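import Pool.Agent.Lib.MP_240c17_al.Two.Spec

/-!
Stable subspaces of finite codimension which are invariant under all commuting operators.
-/

set_option autoImplicit false

namespace Pool.Agent.Lib.MP_240c17_al.Two

universe u

section

variable {k : Type u} [Field k] {X : Type u} [AddCommGroup X] [Module k X] {ι : Type}

/-- The image in `Q` of a stable subspace `W` of `Z` is a submodule over the polynomial ring. -/
private def annImg
    (φ : ι → Module.End k X) (Z : Submodule k X) (hZ : Stab φ Z)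
    (Q : Type u) [AddCommGroup Q] [Module k Q] [Module (MvPolynomial ι k) Q]
    [IsScalarTower k (MvPolynomial ι k) Q] (pr : ↥Z →ₗ[k] Q)
    (hX : ∀ (i : ι) (z : ↥Z),
      (MvPolynomial.X i : MvPolynomial ι k) • pr z = pr ⟨φ i z, hZ i z z.2⟩)
    (W : Submodule k X) (hW : Stab φ W) : Submodule (MvPolynomial ι k) Q where
  carrier := {q | ∃ z : ↥Z, (z : X) ∈ W ∧ pr z = q}
  add_mem' := by
    rintro _ _ ⟨a, ha, rfl⟩ ⟨b, hb, rfl⟩
    exact ⟨a + b, W.add_mem ha hb, map_add _ _ _⟩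
  zero_mem' := ⟨0, W.zero_mem, map_zero _⟩
  smul_mem' := by
    intro c q hq
    induction c using MvPolynomial.induction_on generalizing q with
    | C a =>
      obtain ⟨z, hz, rfl⟩ := hq
      refine ⟨a • z, W.smul_mem a hz, ?_⟩
      rw [map_smul, ← MvPolynomial.algebraMap_eq, algebraMap_smul]
    | add p r hp hr =>
      obtain ⟨z1, hz1, h1⟩ := hp hq
      obtain ⟨z2, hz2, h2⟩ := hr hq
      refine ⟨z1 + z2, W.add_mem hz1 hz2, ?_⟩
      rw [map_add, h1, h2, add_smul]
    | mul_X p i hp =>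
      obtain ⟨z, hz, rfl⟩ := hq
      rw [mul_smul, hX]
      exact hp ⟨⟨φ i z, hZ i z z.2⟩, hW i z hz, rfl⟩

/-- An operator commuting with the `φ i` induces an endomorphism of the module `Q`. -/
private theorem annComm
    (φ : ι → Module.End k X) (Y : Submodule k X) (hZ : Stab φ (⊤ : Submodule k X))
    (Q : Type u) [AddCommGroup Q] [Module k Q] [Module (MvPolynomial ι k) Q]
    [IsScalarTower k (MvPolynomial ι k) Q] (pr : ↥(⊤ : Submodule k X) →ₗ[k] Q)
    (hsurj : Function.Surjective pr) (hker : ∀ z, pr z = 0 ↔ (z : X) ∈ Y)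
    (hX : ∀ (i : ι) (z : ↥(⊤ : Submodule k X)),
      (MvPolynomial.X i : MvPolynomial ι k) • pr z = pr ⟨φ i z, hZ i z z.2⟩)
    (ψ : Module.End k X) (hψ : ∀ i, Commute ψ (φ i)) (hψY : ∀ y ∈ Y, ψ y ∈ Y)
    (r : MvPolynomial ι k) : ∀ z w : ↥(⊤ : Submodule k X), pr z = r • pr w →
      pr ⟨ψ z, Submodule.mem_top⟩ = r • pr ⟨ψ w, Submodule.mem_top⟩ := by
  have hdiff : ∀ z w : ↥(⊤ : Submodule k X), pr z = pr w →
      pr ⟨ψ z, Submodule.mem_top⟩ = pr ⟨ψ w, Submodule.mem_top⟩ := by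
    intro z w h
    have h1 : pr (z - w) = 0 := by rw [map_sub, h, sub_self]
    have h2 : (z : X) - (w : X) ∈ Y := (hker _).mp h1
    have h3 : ψ z - ψ w ∈ Y := by
      rw [← map_sub]
      exact hψY _ h2
    have h4 : pr (⟨ψ z, Submodule.mem_top⟩ - ⟨ψ w, Submodule.mem_top⟩) = 0 := (hker _).mpr h3
    rw [map_sub] at h4
    exact sub_eq_zero.mp h4
  induction r using MvPolynomial.induction_on with
  | C a =>
    intro z w h
    rw [← MvPolynomial.algebraMap_eq, algebraMap_smul] at h ⊢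
    rw [← map_smul] at h ⊢
    rw [hdiff _ _ h]
    congr 1
    exact Subtype.ext (map_smul ψ a (w : X))
  | add p q hp hq =>
    intro z w h
    obtain ⟨z1, hz1⟩ := hsurj (p • pr w)
    obtain ⟨z2, hz2⟩ := hsurj (q • pr w)
    have h1 : pr z = pr (z1 + z2) := by
      rw [h, map_add, hz1, hz2, add_smul]
    rw [hdiff _ _ h1, add_smul, ← hp z1 w hz1, ← hq z2 w hz2, ← map_add]
    congr 1
    exact Subtype.ext (map_add ψ (z1 : X) (z2 : X))
  | mul_X p i hp =>
    intro z w h
    rw [mul_smul, hX] at h ⊢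
    rw [hp z _ h]
    congr 2
    apply Subtype.ext
    show ψ (φ i w) = φ i (ψ w)
    have h1 := hψ i
    exact LinearMap.congr_fun h1 (w : X)

end

private theorem annIdeal {k : Type u} [Field k] {R : Type u} [CommRing R] [Algebra k R] (M : Type u)
    [AddCommGroup M] [Module k M] [Module R M] [IsScalarTower k R M]
    (hM : FiniteDimensional k M) :
    ∃ 𝔫 : Ideal R, Module.Finite k (R ⧸ 𝔫) ∧ ∀ r ∈ 𝔫, ∀ m : M, r • m = 0 := by
  refine ⟨RingHom.ker (Algebra.lsmul k k M : R →ₐ[k] Module.End k M), ?_, ?_⟩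
  · exact FiniteDimensional.of_injective
      (Ideal.kerLiftAlg (Algebra.lsmul k k M : R →ₐ[k] Module.End k M)).toLinearMap
      (Ideal.kerLiftAlg_injective (Algebra.lsmul k k M : R →ₐ[k] Module.End k M))
  · intro r hr m
    have h1 : (Algebra.lsmul k k M : R →ₐ[k] Module.End k M) r = 0 := hr
    have h2 := LinearMap.congr_fun h1 m
    exact h2

/-- A finite module is finite dimensional modulo an ideal of finite codimension. -/
private theorem annFd {k : Type u} [Field k] {R : Type u} [CommRing R] [Algebra k R] (Q : Type u)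
    [AddCommGroup Q] [Module k Q] [Module R Q] [IsScalarTower k R Q] (hfin : Module.Finite R Q)
    (𝔫 : Ideal R) (hRfd : Module.Finite k (R ⧸ 𝔫)) (P : Submodule R Q) (hP : P = 𝔫 • ⊤) :
    FiniteDimensional k (Q ⧸ P) := by
  classical
  obtain ⟨B, hB⟩ := (Module.finite_def.mp hRfd :
    (⊤ : Submodule k (R ⧸ 𝔫)).FG)
  obtain ⟨T, hT⟩ := (Module.finite_def.mp hfin : (⊤ : Submodule (R) Q).FG)
  obtain ⟨sec, hsec⟩ := (Ideal.Quotient.mk_surjective (I := 𝔫)).hasRightInverse
  refine Module.Finite.of_fg_top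
    ⟨(B ×ˢ T).image (fun x => Submodule.Quotient.mk (sec x.1 • x.2)), ?_⟩
  rw [eq_top_iff]
  set V : Submodule k (Q ⧸ P) := Submodule.span k
    (((B ×ˢ T).image (fun x => (Submodule.Quotient.mk (sec x.1 • x.2) : Q ⧸ P)) :
      Finset (Q ⧸ P)) : Set (Q ⧸ P)) with hV
  have hrt : ∀ (r : R) (t : Q), t ∈ T →
      (Submodule.Quotient.mk (r • t) : Q ⧸ P) ∈ V := by
    intro r t ht
    have hlin : ∀ b : R ⧸ 𝔫, b ∈ Submodule.span k (B : Set _) →
        ∀ r : R, Ideal.Quotient.mk 𝔫 r = b →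
          (Submodule.Quotient.mk (r • t) : Q ⧸ P) ∈ V := by
      intro b hb
      have hsame : ∀ r s : R, Ideal.Quotient.mk 𝔫 r = Ideal.Quotient.mk 𝔫 s →
          (Submodule.Quotient.mk (r • t) : Q ⧸ P) = Submodule.Quotient.mk (s • t) := by
        intro r s hrs
        rw [Submodule.Quotient.eq, ← sub_smul]
        rw [hP]
        exact Submodule.smul_mem_smul (Ideal.Quotient.eq.mp hrs) Submodule.mem_top
      induction hb using Submodule.span_induction with
      | mem b hb =>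
        intro r hr
        have h1 : Ideal.Quotient.mk 𝔫 r = Ideal.Quotient.mk 𝔫 (sec b) := by
          rw [hr, hsec]
        rw [hsame _ _ h1]
        apply Submodule.subset_span
        rw [Finset.coe_image]
        exact ⟨(b, t), Finset.mem_coe.mpr (Finset.mem_product.mpr ⟨hb, ht⟩), rfl⟩
      | zero =>
        intro r hr
        have h1 : Ideal.Quotient.mk 𝔫 r = Ideal.Quotient.mk 𝔫 0 := by rw [hr, map_zero]
        rw [hsame _ _ h1, zero_smul]
        exact V.zero_mem
      | add x y _ _ hx hy =>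
        intro r hr
        have h1 : Ideal.Quotient.mk 𝔫 r = Ideal.Quotient.mk 𝔫 (sec x + sec y) := by
          rw [hr, map_add, hsec, hsec]
        rw [hsame _ _ h1, add_smul]
        exact V.add_mem (hx _ (hsec x)) (hy _ (hsec y))
      | smul a x _ hx =>
        intro r hr
        have h1 : Ideal.Quotient.mk 𝔫 r = Ideal.Quotient.mk 𝔫 (a • sec x) := by
          rw [hr, ← Ideal.Quotient.mkₐ_eq_mk k, map_smul, Ideal.Quotient.mkₐ_eq_mk, hsec]
        rw [hsame _ _ h1, smul_assoc]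
        exact V.smul_mem a (hx _ (hsec x))
    exact hlin (Ideal.Quotient.mk 𝔫 r) (by rw [hB]; exact Submodule.mem_top) r rfl
  intro m _
  obtain ⟨q, rfl⟩ := Submodule.Quotient.mk_surjective _ m
  have hq : q ∈ Submodule.span (R) (T : Set Q) := by
    rw [hT]; exact Submodule.mem_top
  rw [Submodule.mem_span_finset] at hq
  obtain ⟨f, -, rfl⟩ := hq
  have h5 : (Submodule.Quotient.mk (∑ t ∈ T, f t • t) : Q ⧸ P) =
      ∑ t ∈ T, (Submodule.Quotient.mk (f t • t) : Q ⧸ P) := map_sum P.mkQ _ _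
  rw [h5]
  exact V.sum_mem fun t ht => hrt _ _ ht

theorem ann (h0 : ModProp.{u}) : AnnProp.{u} := by
  classical
  intro k _ X _ _ ι _ φ Y C hY hcomm hS hC hYC hCfc
  obtain ⟨S, hS⟩ := hS
  have hZ : Stab φ (⊤ : Submodule k X) := stab_top φ
  obtain ⟨Q, _, _, _, _, pr, hsurj, hker, hX⟩ := h0 k X ι φ Y ⊤ hZ hY le_top hcomm
  -- `Q` is finitely generated
  have hfin : Module.Finite (MvPolynomial ι k) Q := by
    refine ⟨⟨S.image (fun s => pr ⟨s, Submodule.mem_top⟩), ?_⟩⟩
    rw [eq_top_iff]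
    intro q _
    obtain ⟨z, rfl⟩ := hsurj q
    set N := Submodule.span (MvPolynomial ι k)
      ((S.image (fun s => pr ⟨s, Submodule.mem_top⟩) : Finset Q) : Set Q) with hN
    have h1 : gen φ (S : Set X) ⊔ Y ≤ ((N.restrictScalars k).comap pr).map
        (Submodule.subtype (⊤ : Submodule k X)) := by
      refine sup_le (gen_le ?_ ?_) ?_
      · rintro i _ ⟨y, hy, rfl⟩
        refine ⟨⟨φ i y, hZ i y y.2⟩, ?_, rfl⟩
        show pr ⟨φ i y, hZ i y y.2⟩ ∈ N
        rw [← hX]
        exact N.smul_mem _ hy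
      · intro t ht
        refine ⟨⟨t, Submodule.mem_top⟩, ?_, rfl⟩
        show pr ⟨t, Submodule.mem_top⟩ ∈ N
        apply Submodule.subset_span
        rw [Finset.coe_image]
        exact ⟨t, ht, rfl⟩
      · intro y hy
        refine ⟨⟨y, Submodule.mem_top⟩, ?_, rfl⟩
        show pr ⟨y, Submodule.mem_top⟩ ∈ N
        rw [(hker ⟨y, Submodule.mem_top⟩).mpr hy]
        exact N.zero_mem
    rw [hS] at h1
    obtain ⟨z', hz', h2⟩ := h1 (Submodule.mem_top : (z : X) ∈ ⊤)
    have h3 : z' = z := Subtype.ext h2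
    rw [← h3]
    exact hz'
  -- the finite dimensional quotient
  set NC : Submodule (MvPolynomial ι k) Q := annImg φ ⊤ hZ Q pr hX C hC with hNC
  have hCfd : FiniteDimensional k (X ⧸ C) := (fc_top_iff C).mp hCfc
  have hMfd : FiniteDimensional k (Q ⧸ NC) := by
    obtain ⟨W, hW⟩ := hCfc
    refine Module.Finite.of_fg_top
      ⟨W.image (fun w => Submodule.Quotient.mk (pr ⟨w, Submodule.mem_top⟩)), ?_⟩
    rw [eq_top_iff]
    intro m _
    obtain ⟨q, rfl⟩ := Submodule.Quotient.mk_surjective _ m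
    obtain ⟨z, rfl⟩ := hsurj q
    obtain ⟨c, hc, w, hw, hcw⟩ := Submodule.mem_sup.mp (hW (Submodule.mem_top : (z : X) ∈ ⊤))
    let g : X →ₗ[k] Q ⧸ NC :=
      ((NC.mkQ).restrictScalars k) ∘ₗ pr ∘ₗ (Submodule.topEquiv (R := k) (M := X)).symm.toLinearMap
    have hg : ∀ x : X, g x = Submodule.Quotient.mk (pr ⟨x, Submodule.mem_top⟩) := fun x => rfl
    have h1 : g w ∈ Submodule.span k (g '' (W : Set X)) := by
      rw [← Submodule.map_span]
      exact Submodule.mem_map_of_mem hw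
    have h2 : g c = 0 := by
      rw [hg, Submodule.Quotient.mk_eq_zero]
      exact ⟨⟨c, Submodule.mem_top⟩, hc, rfl⟩
    have h3 : g (z : X) = g w := by
      rw [← hcw, map_add, h2, zero_add]
    rw [Finset.coe_image]
    have h4 : (Submodule.Quotient.mk (pr z) : Q ⧸ NC) = g (z : X) := rfl
    rw [h4, h3]
    exact h1
  obtain ⟨𝔫, hRfd, hn'⟩ := annIdeal (k := k) (R := MvPolynomial ι k) (Q ⧸ NC) hMfd
  have hn : ∀ r ∈ 𝔫, ∀ q : Q, r • q ∈ NC := by
    intro r hr q
    have h2 := hn' r hr (Submodule.Quotient.mk q)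
    rw [← Submodule.Quotient.mk_eq_zero NC, Submodule.Quotient.mk_smul]
    exact h2
  obtain ⟨P, hP⟩ : ∃ P : Submodule (MvPolynomial ι k) Q, P = 𝔫 • ⊤ := ⟨_, rfl⟩
  have hPC : P ≤ NC := by
    rw [hP, Submodule.smul_le]
    intro r hr q _
    exact hn r hr q
  have hQPfd : FiniteDimensional k (Q ⧸ P) := annFd Q hfin 𝔫 hRfd P hP
  -- the subspace `D`
  let g : X →ₗ[k] Q ⧸ P :=
    ((P.mkQ).restrictScalars k) ∘ₗ pr ∘ₗ (Submodule.topEquiv (R := k) (M := X)).symm.toLinearMap
  have hg : ∀ x : X, g x = Submodule.Quotient.mk (pr ⟨x, Submodule.mem_top⟩) := fun x => rfl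
  have hgm : ∀ x : X, x ∈ LinearMap.ker g ↔ pr ⟨x, Submodule.mem_top⟩ ∈ P := by
    intro x
    rw [LinearMap.mem_ker, hg, Submodule.Quotient.mk_eq_zero]
  refine ⟨LinearMap.ker g, ?_, ?_, ?_, ?_⟩
  · intro y hy
    rw [hgm, (hker ⟨y, Submodule.mem_top⟩).mpr hy]
    exact P.zero_mem
  · intro x hx
    rw [hgm] at hx
    obtain ⟨z, hz, hzx⟩ := hPC hx
    have h1 : pr (z - ⟨x, Submodule.mem_top⟩) = 0 := by rw [map_sub, hzx, sub_self]
    have h2 : (z : X) - x ∈ Y := (hker _).mp h1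
    have h3 : x = (z : X) - ((z : X) - x) := by abel
    rw [h3]
    exact C.sub_mem hz (hYC h2)
  · rw [fc_top_iff]
    exact (LinearMap.quotKerEquivRange g).symm.finiteDimensional
  · intro ψ hψ hψY d hd
    rw [hgm] at hd ⊢
    have key : ∀ q ∈ P, ∀ z : ↥(⊤ : Submodule k X), pr z = q →
        pr ⟨ψ z, Submodule.mem_top⟩ ∈ P := by
      intro q hq
      rw [hP] at hq
      induction hq using Submodule.smul_induction_on' with
      | smul r hr n hn =>
        intro z hz
        obtain ⟨w, rfl⟩ := hsurj n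
        rw [annComm φ Y hZ Q pr hsurj hker hX ψ hψ hψY r z w hz, hP]
        exact Submodule.smul_mem_smul hr Submodule.mem_top
      | add x hx y hy h1 h2 =>
        intro z hz
        obtain ⟨z1, hz1⟩ := hsurj x
        obtain ⟨z2, hz2⟩ := hsurj y
        have h3 := annComm φ Y hZ Q pr hsurj hker hX ψ hψ hψY 1 z (z1 + z2)
          (by rw [one_smul, map_add, hz1, hz2, hz])
        rw [one_smul] at h3
        rw [h3]
        have h4 : (⟨ψ ((z1 + z2 : ↥(⊤ : Submodule k X)) : X), Submodule.mem_top⟩ :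
            ↥(⊤ : Submodule k X)) = ⟨ψ z1, Submodule.mem_top⟩ + ⟨ψ z2, Submodule.mem_top⟩ :=
          Subtype.ext (map_add ψ (z1 : X) (z2 : X))
        rw [h4, map_add]
        exact P.add_mem (h1 z1 hz1) (h2 z2 hz2)
    exact key _ hd ⟨d, Submodule.mem_top⟩ rfl

end Pool.Agent.Lib.MP_240c17_al.Two
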