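import Pool.Agent.Lib.MP_240c17_al.Two.Spec

/-!
The closedness lemma (B2).
-/

set_option autoImplicit false

namespace Pool.Agent.Lib.MP_240c17_al.Two

universe u

section

variable {k : Type u} [Field k] {X : Type u} [AddCommGroup X] [Module k X]

private theorem closed_comm {ι : Type} {φ : ι → Module.End k X}
    (h : ∀ i j, Commute (φ i) (φ j)) (Y Z : Submodule k X) : CommMod φ Y Z := by
  intro i j x _
  have h1 : φ i (φ j x) = φ j (φ i x) := LinearMap.congr_fun (h i j).eq x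
  rw [h1, sub_self]
  exact Y.zero_mem

private theorem closed_fc_inf {Y : Submodule k X} (Z : Submodule k X) (h : FC Y ⊤) :
    FC (Z ⊓ Y) Z := by
  classical
  haveI := (fc_top_iff Y).mp h
  let f : ↥Z →ₗ[k] X ⧸ Y := Y.mkQ.comp Z.subtype
  haveI : FiniteDimensional k (↥Z ⧸ LinearMap.ker f) :=
    LinearEquiv.finiteDimensional f.quotKerEquivRange.symm
  obtain ⟨W, hW⟩ := (fc_top_iff (LinearMap.ker f)).mpr inferInstance
  refine ⟨W.image (fun w : ↥Z => (w : X)), ?_⟩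
  intro z hz
  obtain ⟨a, ha, b, hb, hab⟩ :=
    Submodule.mem_sup.mp (hW (Submodule.mem_top : (⟨z, hz⟩ : ↥Z) ∈ (⊤ : Submodule k ↥Z)))
  have h3 : (a : X) + (b : X) = z := by
    have := congrArg (fun w : ↥Z => (w : X)) hab
    simpa using this
  rw [← h3]
  refine Submodule.add_mem_sup ⟨a.2, ?_⟩ ?_
  · have h4 : Y.mkQ (a : X) = 0 := ha
    rw [← LinearMap.mem_ker, Submodule.ker_mkQ] at h4
    exact h4
  · have h4 : (b : X) ∈ Submodule.map Z.subtype (Submodule.span k (W : Set ↥Z)) := ⟨b, hb, rfl⟩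
    rw [Submodule.map_span] at h4
    rw [Finset.coe_image]
    exact h4

/-- Separation from a finite dimensional subspace. -/
private theorem closed_sep (h2 : RfdProp.{u}) {ι : Type} [Finite ι] (φ : ι → Module.End k X)
    (hφ : ∀ i j, Commute (φ i) (φ j)) (W V : Submodule k X) (hW : Stab φ W)
    (hgen : ∃ S : Finset X, gen φ (S : Set X) ⊔ W = ⊤) (hV : FC W V) :
    ∃ D : Submodule k X, W ≤ D ∧ Stab φ D ∧ FC D ⊤ ∧ D ⊓ V ≤ W := by
  classical
  obtain ⟨F, hF⟩ := hV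
  -- the image of `V` in the quotient by `W` is finite dimensional
  let V' : Submodule k (X ⧸ W) := Submodule.span k ((F.image W.mkQ : Finset (X ⧸ W)) : Set (X ⧸ W))
  haveI : FiniteDimensional k V' := FiniteDimensional.span_finset k _
  have hVV' : ∀ v ∈ V, W.mkQ v ∈ V' := by
    intro v hv
    obtain ⟨a, ha, b, hb, rfl⟩ := Submodule.mem_sup.mp (hF hv)
    have h1 : W.mkQ a = 0 := by
      rw [← LinearMap.mem_ker, Submodule.ker_mkQ]; exact ha
    rw [map_add, h1, zero_add]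
    have h4 : W.mkQ b ∈ Submodule.map W.mkQ (Submodule.span k (F : Set X)) := ⟨b, hb, rfl⟩
    rw [Submodule.map_span] at h4
    show W.mkQ b ∈ Submodule.span k ((F.image W.mkQ : Finset (X ⧸ W)) : Set (X ⧸ W))
    rw [Finset.coe_image]
    exact h4
  let P : ℕ → Prop := fun d => ∃ D : Submodule k X, W ≤ D ∧ Stab φ D ∧ FC D ⊤ ∧
    Module.finrank k ↥(D.map W.mkQ ⊓ V') = d
  have hP : ∃ d, P d := ⟨_, ⊤, le_top, stab_top φ, FC.refl _, rfl⟩
  obtain ⟨D, hWD, hDs, hDfc, hDd⟩ := Nat.find_spec hP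
  have hmin := fun d (hd : d < Nat.find hP) => Nat.find_min hP hd
  refine ⟨D, hWD, hDs, hDfc, ?_⟩
  intro x hx
  by_contra hxW
  obtain ⟨D2, hD2s, hWD2, _, hxD2, hD2fc⟩ := h2 k X ι φ W ⊤ W x hW (closed_comm hφ _ _) hgen hW
    le_rfl le_top Submodule.mem_top hxW
  have hfc : FC (D ⊓ D2) ⊤ := (closed_fc_inf D hD2fc).trans hDfc
  have hlt : (D ⊓ D2).map W.mkQ ⊓ V' < D.map W.mkQ ⊓ V' := by
    refine lt_of_le_of_ne (inf_le_inf_right _ (Submodule.map_mono inf_le_left)) ?_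
    intro heq
    have h1 : W.mkQ x ∈ D.map W.mkQ ⊓ V' := ⟨⟨x, hx.1, rfl⟩, hVV' x hx.2⟩
    rw [← heq] at h1
    obtain ⟨⟨y, hy, hyx⟩, _⟩ := h1
    apply hxD2
    have h2 : x - y ∈ W := by
      rw [← Submodule.ker_mkQ W, LinearMap.mem_ker, map_sub, hyx, sub_self]
    have h3 := D2.add_mem (hWD2 h2) hy.2
    simpa using h3
  have hle : Module.finrank k ↥((D ⊓ D2).map W.mkQ ⊓ V') < Module.finrank k ↥(D.map W.mkQ ⊓ V') :=
    by
      haveI : FiniteDimensional k ↥(D.map W.mkQ ⊓ V') :=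
        Submodule.finiteDimensional_of_le inf_le_right
      exact Submodule.finrank_lt_finrank_of_lt hlt
  rw [hDd] at hle
  exact hmin _ hle ⟨D ⊓ D2, le_inf hWD hWD2, hDs.inf hD2s, hfc, rfl⟩

theorem closed (h1 : HilbertProp.{u}) (h2 : RfdProp.{u}) (h3 : AnnProp.{u})
    (h5 : PolyFdProp.{u}) : ClosedProp.{u} := by
  classical
  intro k _ X _ _ n σ ν W X₀ B q ζ hσσ hνν hσν hW hX₀ hWX hWB hB hgen hBgen hXgen hq hζ
  have hτ : ∀ i j, Commute (Sum.elim σ ν i) (Sum.elim σ ν j) := by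
    rintro (i | i) (j | j)
    · exact hσσ i j
    · exact hσν i j
    · exact (hσν j i).symm
    · exact hνν i j
  have hWσ : Stab σ W := (stab_elim.mp hW).1
  have hXσ : Stab σ X₀ := (stab_elim.mp hX₀).1
  -- (1)
  have hB0 : FC W (B ⊓ X₀) := by
    have h := h1 k X (Fin n) σ W B (B ⊓ X₀) hWσ (closed_comm hσσ _ _) hBgen (hB.inf hXσ)
      (le_inf hWB hWX) inf_le_left
    refine h5 k X (Fin n) σ W (B ⊓ X₀) hWσ (closed_comm hσσ _ _) h ?_
    intro i
    refine ⟨Polynomial.X ^ q, pow_ne_zero _ Polynomial.X_ne_zero, ?_⟩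
    intro x hx
    rw [map_pow, Polynomial.aeval_X]
    exact hq i x hx.2
  -- (2)
  have hD1 : ∃ D1 : Submodule k X, W ≤ D1 ∧ Stab (Sum.elim σ ν) D1 ∧ FC D1 ⊤ ∧
      ζ ∉ B ⊔ (D1 ⊓ X₀) := by
    by_cases hc : ζ ∈ B ⊔ X₀
    · obtain ⟨b, hb, z0, hz0, hbz⟩ := Submodule.mem_sup.mp hc
      have hz0B : z0 ∉ B := fun h => hζ (by rw [← hbz]; exact B.add_mem hb h)
      have hfc : FC W ((B ⊓ X₀) ⊔ Submodule.span k {z0}) := by
        obtain ⟨F, hF⟩ := hB0
        refine ⟨F ∪ {z0}, ?_⟩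
        rw [Finset.coe_union, Submodule.span_union, Finset.coe_singleton, ← sup_assoc]
        exact sup_le_sup_right hF _
      obtain ⟨D, hWD, hDs, hDfc, hDV⟩ := closed_sep h2 (Sum.elim σ ν) hτ W _ hW hgen hfc
      refine ⟨D, hWD, hDs, hDfc, ?_⟩
      intro hmem
      obtain ⟨b', hb', d, hd, hbd⟩ := Submodule.mem_sup.mp hmem
      have e1 : z0 - d = b' - b := by
        have : b + z0 = b' + d := by rw [hbz, hbd]
        rw [sub_eq_sub_iff_add_eq_add, add_comm z0 b, this]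
      have e2 : z0 - d ∈ B ⊓ X₀ := ⟨by rw [e1]; exact B.sub_mem hb' hb, X₀.sub_mem hz0 hd.2⟩
      have e3 : d ∈ (B ⊓ X₀) ⊔ Submodule.span k {z0} := by
        have : d = -(z0 - d) + z0 := by abel
        rw [this]
        exact Submodule.add_mem_sup ((B ⊓ X₀).neg_mem e2) (Submodule.mem_span_singleton_self z0)
      have e4 : d ∈ W := hDV ⟨hd.1, e3⟩
      apply hz0B
      have e5 : z0 = (z0 - d) + d := by abel
      rw [e5]
      exact B.add_mem e2.1 (hWB e4)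
    · exact ⟨⊤, le_top, stab_top _, FC.refl _, by rwa [top_inf_eq]⟩
  obtain ⟨D1, hWD1, hD1s, hD1fc, hζ1⟩ := hD1
  -- (3)
  have hYs : Stab (Sum.elim σ ν) (D1 ⊓ X₀) := hD1s.inf hX₀
  have hYσ : Stab σ (D1 ⊓ X₀) := (stab_elim.mp hYs).1
  have hYgen : ∃ S : Finset X, gen σ (S : Set X) ⊔ (D1 ⊓ X₀) = ⊤ := by
    obtain ⟨S, hS⟩ := hXgen
    obtain ⟨F, hF⟩ := closed_fc_inf X₀ hD1fc
    refine ⟨S ∪ F, ?_⟩
    rw [eq_top_iff, ← hS, Finset.coe_union, gen_union]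
    refine sup_le (le_sup_left.trans le_sup_left) (hF.trans ?_)
    refine sup_le ?_ ?_
    · rw [inf_comm]
      exact le_sup_right
    · exact (Submodule.span_le.mpr (subset_gen σ (F : Set X))).trans
        (le_sup_right.trans le_sup_left)
  -- (4)
  obtain ⟨C, hCs, hUC, _, hζC, hCfc⟩ := h2 k X (Fin n) σ (D1 ⊓ X₀) ⊤ (B ⊔ (D1 ⊓ X₀)) ζ hYσ
    (closed_comm hσσ _ _) hYgen (hB.sup hYσ) le_sup_right le_top Submodule.mem_top hζ1
  -- (5)
  obtain ⟨D, hYD, hDC, hDfc, hDψ⟩ := h3 k X (Fin n) σ (D1 ⊓ X₀) C hYσ (closed_comm hσσ _ _) hYgen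
    hCs (le_sup_right.trans hUC) hCfc
  refine ⟨D, (le_inf hWD1 hWX).trans hYD, ?_, hDfc, ?_⟩
  · rintro (i | i)
    · exact hDψ (σ i) (fun j => hσσ i j) (hYs (Sum.inl i))
    · exact hDψ (ν i) (fun j => (hσν j i).symm) (hYs (Sum.inr i))
  · intro h
    exact hζC ((sup_le (le_sup_left.trans hUC) hDC) h)

end

end Pool.Agent.Lib.MP_240c17_al.Two
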