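import Pool.Agent.Lib.MP_240c17_al.Two.Spec

/-!
Hilbert basis theorem for commuting operators.
-/

set_option autoImplicit false

namespace Pool.Agent.Lib.MP_240c17_al.Two

universe u

/-- The image in `Q` of a stable subspace `W` of `Z` is a submodule over the polynomial ring. -/
private def hilbertImg {k : Type u} [Field k] {X : Type u} [AddCommGroup X] [Module k X] {ι : Type}
    (φ : ι → Module.End k X) (Z : Submodule k X) (hZ : Stab φ Z)
    (Q : Type u) [AddCommGroup Q] [Module k Q] [Module (MvPolynomial ι k) Q]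
    [IsScalarTower k (MvPolynomial ι k) Q] (pr : ↥Z →ₗ[k] Q)
    (hX : ∀ (i : ι) (z : ↥Z),
      (MvPolynomial.X i : MvPolynomial ι k) • pr z = pr ⟨φ i z, hZ i z z.2⟩)
    (W : Submodule k X) (hW : Stab φ W) : Submodule (MvPolynomial ι k) Q where
  carrier := {q | ∃ z : ↥Z, (z : X) ∈ W ∧ pr z = q}
  add_mem' := by
    rintro _ _ ⟨a, ha, rfl⟩ ⟨b, hb, rfl⟩
    exact ⟨a + b, W.add_mem ha hb, map_add _ _ _⟩
  zero_mem' := ⟨0, W.zero_mem, map_zero _⟩
  smul_mem' := by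
    intro c q hq
    induction c using MvPolynomial.induction_on generalizing q with
    | C a =>
      obtain ⟨z, hz, rfl⟩ := hq
      refine ⟨a • z, W.smul_mem a hz, ?_⟩
      rw [map_smul, ← MvPolynomial.algebraMap_eq, algebraMap_smul]
    | add p r hp hr =>
      obtain ⟨z1, hz1, h1⟩ := hp hq
      obtain ⟨z2, hz2, h2⟩ := hr hq
      refine ⟨z1 + z2, W.add_mem hz1 hz2, ?_⟩
      rw [map_add, h1, h2, add_smul]
    | mul_X p i hp =>
      obtain ⟨z, hz, rfl⟩ := hq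
      rw [mul_smul, hX]
      exact hp ⟨⟨φ i z, hZ i z z.2⟩, hW i z hz, rfl⟩

theorem hilbert (h0 : ModProp.{u}) : HilbertProp.{u} := by
  classical
  intro k _ X _ _ ι _ φ Y Z U hY hcomm hS hU hYU hUZ
  obtain ⟨S, hS⟩ := hS
  have hZ : Stab φ Z := by
    rw [← hS]
    exact (gen_stab φ _).sup hY
  have hYZ : Y ≤ Z := hYU.trans hUZ
  obtain ⟨Q, _, _, _, _, pr, hsurj, hker, hX⟩ := h0 k X ι φ Y Z hZ hY hYZ hcomm
  have hSZ : (S : Set X) ⊆ Z := by
    intro x hx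
    rw [← hS]
    exact (le_sup_left : gen φ (S : Set X) ≤ _) (subset_gen φ _ hx)
  -- general principle
  have key : ∀ (T : Set X) (hT : T ⊆ Z) (N : Submodule (MvPolynomial ι k) Q),
      (∀ (t : X) (ht : t ∈ T), pr ⟨t, hT ht⟩ ∈ N) →
      ∀ z : ↥Z, (z : X) ∈ gen φ T ⊔ Y → pr z ∈ N := by
    intro T hT N hTN z hz
    have h1 : gen φ T ⊔ Y ≤ ((N.restrictScalars k).comap pr).map Z.subtype := by
      refine sup_le (gen_le ?_ ?_) ?_
      · rintro i _ ⟨y, hy, rfl⟩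
        refine ⟨⟨φ i y, hZ i y y.2⟩, ?_, rfl⟩
        show pr ⟨φ i y, hZ i y y.2⟩ ∈ N
        rw [← hX]
        exact N.smul_mem _ hy
      · intro t ht
        exact ⟨⟨t, hT ht⟩, hTN t ht, rfl⟩
      · intro y hy
        refine ⟨⟨y, hYZ hy⟩, ?_, rfl⟩
        show pr ⟨y, hYZ hy⟩ ∈ N
        rw [(hker ⟨y, hYZ hy⟩).mpr hy]
        exact N.zero_mem
    obtain ⟨z', hz', h2⟩ := h1 hz
    have h3 : z' = z := Subtype.ext h2
    rw [← h3]
    exact hz'
  have hfin : Module.Finite (MvPolynomial ι k) Q := by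
    refine ⟨⟨S.attach.image (fun s => pr ⟨s.1, hSZ s.2⟩), ?_⟩⟩
    rw [eq_top_iff]
    intro q _
    obtain ⟨z, rfl⟩ := hsurj q
    refine key (S : Set X) hSZ _ ?_ z ?_
    · intro t ht
      apply Submodule.subset_span
      rw [Finset.coe_image]
      exact ⟨⟨t, ht⟩, Finset.mem_coe.mpr (Finset.mem_attach _ _), rfl⟩
    · rw [hS]
      exact z.2
  have hnoeth : IsNoetherian (MvPolynomial ι k) Q := isNoetherian_of_isNoetherianRing_of_finite _ _
  obtain ⟨T, hT⟩ := hnoeth.noetherian (hilbertImg φ Z hZ Q pr hX U hU)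
  have hlift : ∀ t : Q, ∃ x : X, t ∈ T → ∃ hx : x ∈ U, pr ⟨x, hUZ hx⟩ = t := by
    intro t
    by_cases ht : t ∈ T
    · have h1 : t ∈ hilbertImg φ Z hZ Q pr hX U hU := by
        rw [← hT]
        exact Submodule.subset_span ht
      obtain ⟨z, hz, hzt⟩ := h1
      exact ⟨z, fun _ => ⟨hz, hzt⟩⟩
    · exact ⟨0, fun h => absurd h ht⟩
  choose g hg using hlift
  refine ⟨T.image g, ?_⟩
  have hTU : ((T.image g : Finset X) : Set X) ⊆ U := by
    intro x hx
    rw [Finset.coe_image] at hx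
    obtain ⟨t, ht, rfl⟩ := hx
    exact (hg t ht).1
  have hle : gen φ ((T.image g : Finset X) : Set X) ⊔ Y ≤ U := sup_le (gen_le hU hTU) hYU
  apply le_antisymm hle
  intro x hx
  have hstab : Stab φ (gen φ ((T.image g : Finset X) : Set X) ⊔ Y) := (gen_stab φ _).sup hY
  have h1 : pr ⟨x, hUZ hx⟩ ∈ hilbertImg φ Z hZ Q pr hX U hU := ⟨⟨x, hUZ hx⟩, hx, rfl⟩
  rw [← hT] at h1
  have h2 : Submodule.span (MvPolynomial ι k) (T : Set Q) ≤
      hilbertImg φ Z hZ Q pr hX (gen φ ((T.image g : Finset X) : Set X) ⊔ Y) hstab := by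
    rw [Submodule.span_le]
    intro t ht
    obtain ⟨hx', h3⟩ := hg t ht
    refine ⟨⟨g t, hUZ hx'⟩, ?_, h3⟩
    refine (le_sup_left : gen φ ((T.image g : Finset X) : Set X) ≤ _) (subset_gen φ _ ?_)
    rw [Finset.coe_image]
    exact ⟨t, ht, rfl⟩
  obtain ⟨w, hw, hwx⟩ := h2 h1
  have h3 : pr (⟨x, hUZ hx⟩ - w) = 0 := by
    rw [map_sub, hwx, sub_self]
  have h4 : x - w ∈ Y := (hker _).mp h3
  have h5 : x = (w : X) + (x - w) := by abel
  rw [h5]
  exact Submodule.add_mem _ hw ((le_sup_right : Y ≤ _) h4)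

end Pool.Agent.Lib.MP_240c17_al.Two
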