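import Pool.Agent.Lib.MP_240c17_al.Two.Spec

/-!
(A4), (A5): integrality.
-/

set_option autoImplicit false

namespace Pool.Agent.Lib.MP_240c17_al.Two

universe u

section

variable {k : Type u} [Field k] {X : Type u} [AddCommGroup X] [Module k X]

theorem integral_gen_congr {α β : Type} {φ : α → Module.End k X} {φ' : β → Module.End k X}
    (h : ∀ W : Submodule k X, Stab φ W ↔ Stab φ' W) (S : Set X) : gen φ S = gen φ' S := by
  unfold gen
  simp only [h]

theorem integral_adjoin_stab {α : Type} {φ : α → Module.End k X} {W : Submodule k X}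
    (h : Stab φ W) {r : Module.End k X} (hr : r ∈ Algebra.adjoin k (Set.range φ)) :
    ∀ w ∈ W, r w ∈ W := by
  induction hr using Algebra.adjoin_induction with
  | mem x hx =>
    obtain ⟨i, rfl⟩ := hx
    exact h i
  | algebraMap c =>
    intro w hw
    rw [Module.algebraMap_end_apply]
    exact W.smul_mem c hw
  | add x y _ _ hx hy =>
    intro w hw
    exact W.add_mem (hx w hw) (hy w hw)
  | mul x y _ _ hx hy =>
    intro w hw
    exact hx _ (hy w hw)

theorem integral_step {α β : Type} (φ' : α → Module.End k X) (φ'' : β → Module.End k X)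
    (ψ : Module.End k X) (Y Z : Submodule k X)
    (hSt : ∀ W : Submodule k X, Stab φ'' W ↔ Stab φ' W ∧ ∀ w ∈ W, ψ w ∈ W)
    (hY : Stab φ'' Y)
    (hcomm : ∀ i, ∀ x ∈ Z, φ' i (ψ x) - ψ (φ' i x) ∈ Y)
    (S : Finset X) (hS : gen φ'' (S : Set X) ⊔ Y = Z)
    (d : ℕ) (r : ℕ → Module.End k X)
    (hr : ∀ l, ∀ W : Submodule k X, Stab φ' W → ∀ w ∈ W, r l w ∈ W)
    (hd : ∀ x ∈ Z, (ψ ^ d) x - ∑ l ∈ Finset.range d, r l ((ψ ^ l) x) ∈ Y) :
    ∃ S' : Finset X, gen φ' (S' : Set X) ⊔ Y = Z := by
  classical
  have hZ : Stab φ'' Z := by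
    rw [← hS]
    exact (gen_stab _ _).sup hY
  have hYZ : Y ≤ Z := by rw [← hS]; exact le_sup_right
  have hSZ : ∀ s ∈ S, s ∈ Z := by
    intro s hs
    rw [← hS]
    exact (le_sup_left : gen φ'' (S : Set X) ≤ _) (subset_gen _ _ hs)
  have hZ1 := (hSt Z).mp hZ
  have hY1 := (hSt Y).mp hY
  have hpow : ∀ l : ℕ, ∀ x ∈ Z, (ψ ^ l) x ∈ Z := by
    intro l
    induction l with
    | zero => intro x hx; simpa using hx
    | succ l ih =>
      intro x hx
      rw [pow_succ']
      exact hZ1.2 _ (ih x hx)
  set S' : Finset X := (Finset.range d).biUnion fun l => S.image fun s => (ψ ^ l) s with hS'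
  refine ⟨S', ?_⟩
  have hS'Z : ∀ s ∈ S', s ∈ Z := by
    intro s hs
    rw [hS', Finset.mem_biUnion] at hs
    obtain ⟨l, _, hs⟩ := hs
    rw [Finset.mem_image] at hs
    obtain ⟨t, ht, rfl⟩ := hs
    exact hpow l t (hSZ t ht)
  have hGZ : gen φ' (S' : Set X) ≤ Z := gen_le hZ1.1 hS'Z
  apply le_antisymm
  · exact sup_le hGZ hYZ
  · set G : Submodule k X := gen φ' (S' : Set X) ⊔ Y with hG
    have hGst : Stab φ' G := (gen_stab _ _).sup hY1.1
    have hYG : Y ≤ G := le_sup_right
    have hS'G : ∀ s ∈ S', s ∈ G := fun s hs =>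
      (le_sup_left : gen φ' (S' : Set X) ≤ _) (subset_gen _ _ hs)
    by_cases hd0 : d = 0
    · subst hd0
      intro z hz
      have := hd z hz
      simp only [pow_zero, Finset.range_zero, Finset.sum_empty, sub_zero] at this
      exact hYG this
    have hSG : ∀ l < d, ∀ s ∈ S, (ψ ^ l) s ∈ G := by
      intro l hl s hs
      apply hS'G
      rw [hS', Finset.mem_biUnion]
      exact ⟨l, Finset.mem_range.mpr hl, Finset.mem_image_of_mem _ hs⟩
    -- `ψ` maps `S'` into `G`
    have hψS : ∀ s ∈ S', ψ s ∈ G := by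
      intro s hs
      rw [hS', Finset.mem_biUnion] at hs
      obtain ⟨l, hl, hs⟩ := hs
      rw [Finset.mem_image] at hs
      obtain ⟨t, ht, rfl⟩ := hs
      rw [Finset.mem_range] at hl
      have h1 : ψ ((ψ ^ l) t) = (ψ ^ (l + 1)) t := by rw [pow_succ']; rfl
      rw [h1]
      by_cases h2 : l + 1 < d
      · exact hSG _ h2 t ht
      · have h3 : l + 1 = d := by omega
        rw [h3]
        have h4 := hYG (hd t (hSZ t ht))
        have h5 : ∑ l ∈ Finset.range d, r l ((ψ ^ l) t) ∈ G :=
          G.sum_mem fun m hm => hr m G hGst _ (hSG m (Finset.mem_range.mp hm) t ht)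
        have := G.add_mem h4 h5
        rwa [sub_add_cancel] at this
    -- the submodule of elements of `Z` mapped into `G`
    have hψG : ∀ g ∈ gen φ' (S' : Set X), ψ g ∈ G := by
      have hT : gen φ' (S' : Set X) ≤ Z ⊓ G.comap ψ := by
        apply gen_le
        · intro i y hy
          refine ⟨hZ1.1 i y hy.1, ?_⟩
          have h1 := hYG (hcomm i y hy.1)
          have h2 := hGst i _ hy.2
          have := G.sub_mem h2 h1
          rw [sub_sub_cancel] at this
          exact this
        · intro s hs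
          exact ⟨hS'Z s hs, hψS s hs⟩
      exact fun g hg => (hT hg).2
    have hG2 : Stab φ'' G := by
      rw [hSt]
      refine ⟨hGst, ?_⟩
      intro w hw
      obtain ⟨a, ha, b, hb, rfl⟩ := Submodule.mem_sup.mp hw
      rw [map_add]
      exact G.add_mem (hψG a ha) (hYG (hY1.2 b hb))
    rw [← hS]
    refine sup_le (gen_le hG2 ?_) hYG
    intro s hs
    have := hSG 0 (Nat.pos_of_ne_zero hd0) s hs
    simpa using this

end

theorem integral : IntegralProp.{u} := by
  classical
  intro k _ X _ _ ι κ _ φ ψ Y Z hY hcomm hS hint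
  haveI : Fintype κ := Fintype.ofFinite κ
  choose d r hr hd using hint
  have key : ∀ T : Finset κ, ∃ S : Finset X,
      gen (Sum.elim φ (fun j : {j : κ // j ∉ T} => ψ j.1)) (S : Set X) ⊔ Y = Z := by
    intro T
    induction T using Finset.induction_on with
    | empty =>
      obtain ⟨S, hS⟩ := hS
      refine ⟨S, ?_⟩
      rw [← hS]
      congr 1
      apply integral_gen_congr
      intro W
      rw [stab_elim, stab_elim]
      refine and_congr_right fun _ => ?_
      exact ⟨fun h j => h ⟨j, by simp⟩, fun h j => h j.1⟩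
    | insert a T haT ih =>
      obtain ⟨S, hS⟩ := ih
      refine integral_step _ (Sum.elim φ (fun j : {j : κ // j ∉ T} => ψ j.1)) (ψ a) Y Z
        ?_ ?_ ?_ S hS (d a) (r a) ?_ (hd a)
      · intro W
        rw [stab_elim, stab_elim, and_assoc]
        refine and_congr_right fun _ => ?_
        constructor
        · intro h
          refine ⟨fun j => h ⟨j.1, fun hj => j.2 (Finset.mem_insert_of_mem hj)⟩, h ⟨a, haT⟩⟩
        · rintro ⟨h1, h2⟩ ⟨j, hj⟩
          by_cases hja : j = a
          · subst hja; exact h2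
          · exact h1 ⟨j, by simp [hja, hj]⟩
      · rw [stab_elim] at hY ⊢
        exact ⟨hY.1, fun j => hY.2 j.1⟩
      · rintro (i | j) x hx
        · exact hcomm (Sum.inl i) (Sum.inr a) x hx
        · exact hcomm (Sum.inr j.1) (Sum.inr a) x hx
      · intro l W hW
        exact integral_adjoin_stab (stab_elim.mp hW).1 (hr a l)
  obtain ⟨S, hS⟩ := key Finset.univ
  refine ⟨S, ?_⟩
  rw [← hS]
  congr 1
  apply integral_gen_congr
  intro W
  rw [stab_elim]
  exact ⟨fun h => ⟨h, fun j => absurd (Finset.mem_univ j.1) j.2⟩, fun h => h.1⟩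

theorem polyFd : PolyFdProp.{u} := by
  classical
  intro k _ X _ _ ι _ φ Y Z hY hcomm hS hp
  have h := integral k X Empty ι (fun e => e.elim) φ Y Z
    (by
      rw [stab_elim]
      exact ⟨fun e => e.elim, hY⟩)
    (by
      rintro (e | i) (e' | j)
      · exact e.elim
      · exact e.elim
      · exact e'.elim
      · exact hcomm i j)
    (by
      obtain ⟨S, hS⟩ := hS
      refine ⟨S, ?_⟩
      rw [← hS]
      congr 1
      apply integral_gen_congr
      intro W
      rw [stab_elim]
      exact ⟨fun h => h.2, fun h => ⟨fun e => e.elim, h⟩⟩)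
    (by
      intro i
      obtain ⟨p, hp0, hp⟩ := hp i
      refine ⟨p.natDegree, fun l => algebraMap k _ (-(p.leadingCoeff⁻¹ * p.coeff l)),
        fun l => Subalgebra.algebraMap_mem _ _, ?_⟩
      intro x hx
      have h1 := Y.smul_mem p.leadingCoeff⁻¹ (hp x hx)
      have hlc : p.leadingCoeff ≠ 0 := Polynomial.leadingCoeff_ne_zero.mpr hp0
      have h2 : p.leadingCoeff⁻¹ • (Polynomial.aeval (φ i) p) x =
          (φ i ^ p.natDegree) x - ∑ l ∈ Finset.range p.natDegree,
            (algebraMap k (Module.End k X) (-(p.leadingCoeff⁻¹ * p.coeff l))) ((φ i ^ l) x) := by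
        rw [Polynomial.aeval_eq_sum_range, Finset.sum_range_succ]
        simp only [LinearMap.add_apply, LinearMap.sum_apply, LinearMap.smul_apply, smul_add,
          Module.algebraMap_end_apply, neg_smul, Finset.sum_neg_distrib, sub_neg_eq_add,
          Finset.smul_sum, smul_smul]
        rw [Polynomial.coeff_natDegree, inv_mul_cancel₀ hlc, one_smul, add_comm]
      rwa [h2] at h1)
  obtain ⟨S, hS⟩ := h
  refine ⟨S, ?_⟩
  rw [← hS, sup_comm]
  refine sup_le_sup_left ?_ _
  exact gen_le (fun e => e.elim) Submodule.subset_span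

end Pool.Agent.Lib.MP_240c17_al.Two
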