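import Pool.Agent.Lib.MP_240c17_al.Two.Spec

/-!
The subquotient of a space with commuting operators as a module over the polynomial ring.
-/

set_option autoImplicit false

namespace Pool.Agent.Lib.MP_240c17_al.Two

universe u

/-- A polynomial ring acts through commuting endomorphisms. -/
private theorem mod_hom {k : Type u} [Field k] {Q : Type u} [AddCommGroup Q] [Module k Q] {ι : Type}
    (f : ι → Module.End k Q) (hf : ∀ i j, f i * f j = f j * f i) :
    ∃ g : MvPolynomial ι k →ₐ[k] Module.End k Q, ∀ i, g (MvPolynomial.X i) = f i := by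
  classical
  let A : Subalgebra k (Module.End k Q) := Algebra.adjoin k (Set.range f)
  letI : CommRing A := Algebra.adjoinCommRingOfComm k (by
    rintro _ ⟨i, rfl⟩ _ ⟨j, rfl⟩
    exact hf i j)
  let e : ι → A := fun i => ⟨f i, Algebra.subset_adjoin ⟨i, rfl⟩⟩
  refine ⟨A.val.comp (MvPolynomial.aeval e), fun i => ?_⟩
  rw [AlgHom.comp_apply, MvPolynomial.aeval_X]
  rfl

theorem mod_ : ModProp.{u} := by
  intro k _ X _ _ ι φ Y Z hZ hY hYZ hc
  let Y' : Submodule k ↥Z := Y.comap Z.subtype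
  let ψ : ι → Module.End k ↥Z := fun i => (φ i).restrict (hZ i)
  have hψ : ∀ i (z : ↥Z), ((ψ i z : ↥Z) : X) = φ i z := fun i z => rfl
  have hψY : ∀ i, Y' ≤ Y'.comap (ψ i) := by
    intro i z hz
    exact hY i z hz
  let f : ι → Module.End k (↥Z ⧸ Y') := fun i => Y'.mapQ Y' (ψ i) (hψY i)
  have hf : ∀ i (z : ↥Z), f i (Y'.mkQ z) = Y'.mkQ (ψ i z) := fun i z => rfl
  have hcomm : ∀ i j, f i * f j = f j * f i := by
    intro i j
    apply LinearMap.ext
    intro q
    obtain ⟨z, rfl⟩ := Y'.mkQ_surjective q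
    rw [Module.End.mul_apply, Module.End.mul_apply, hf, hf, hf, hf, ← sub_eq_zero, ← map_sub]
    rw [← LinearMap.mem_ker, Submodule.ker_mkQ]
    show ((ψ i (ψ j z) - ψ j (ψ i z) : ↥Z) : X) ∈ Y
    rw [Submodule.coe_sub]
    exact hc i j z z.2
  obtain ⟨g, hg⟩ := mod_hom f hcomm
  letI m1 : Module (MvPolynomial ι k) (↥Z ⧸ Y') := Module.compHom _ g.toRingHom
  have hsmul : ∀ (p : MvPolynomial ι k) (q : ↥Z ⧸ Y'), p • q = g p q := fun p q => rfl
  have m2 : IsScalarTower k (MvPolynomial ι k) (↥Z ⧸ Y') := by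
    constructor
    intro a p q
    rw [hsmul, hsmul, map_smul]
    rfl
  refine ⟨↥Z ⧸ Y', inferInstance, inferInstance, m1, m2, Y'.mkQ, Y'.mkQ_surjective, ?_, ?_⟩
  · intro z
    rw [← LinearMap.mem_ker, Submodule.ker_mkQ]
    rfl
  · intro i z
    rw [hsmul, hg, hf]
    rfl

end Pool.Agent.Lib.MP_240c17_al.Two
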