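import Pool.Agent.Lib.MP_240c17_al.Two.Spec

/-!
Finite modules over `k[x₁,…,x_n]` are residually finite dimensional.
-/

set_option autoImplicit false
set_option linter.style.haveILetI false

namespace Pool.Agent.Lib.MP_240c17_al.Two

universe u

/-- `R / 𝔪` is finite dimensional. -/
private theorem rfd_field {k : Type u} [Field k] {R : Type u} [CommRing R] [Algebra k R]
    [Algebra.FiniteType k R] (m : Ideal R) [hm : m.IsMaximal] : Module.Finite k (R ⧸ m) := by
  letI := Ideal.Quotient.field m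
  have h1 : Algebra.FiniteType k (R ⧸ m) :=
    Algebra.FiniteType.of_surjective (Ideal.Quotient.mkₐ k m) (Ideal.Quotient.mkₐ_surjective k m)
  exact finite_of_finite_type_of_isJacobsonRing k (R ⧸ m)

/-- `Q / 𝔪 Q` is finite dimensional for a finite module. -/
private theorem rfd_step {k : Type u} [Field k] {R : Type u} [CommRing R] [Algebra k R]
    [Algebra.FiniteType k R] (m : Ideal R) [hm : m.IsMaximal] {Q : Type u} [AddCommGroup Q]
    [Module k Q] [Module R Q] [IsScalarTower k R Q] [Module.Finite R Q] :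
    Module.Finite k (Q ⧸ (m • ⊤ : Submodule R Q)) := by
  have h1 := rfd_field (k := k) m
  have h2 : Module.Finite R (Q ⧸ (m • ⊤ : Submodule R Q)) := inferInstance
  have h3 : Module.Finite (R ⧸ m) (Q ⧸ (m • ⊤ : Submodule R Q)) :=
    Module.Finite.of_restrictScalars_finite R _ _
  haveI : IsScalarTower k (R ⧸ m) (Q ⧸ (m • ⊤ : Submodule R Q)) := by
    constructor
    intro a b x
    obtain ⟨b, rfl⟩ := Ideal.Quotient.mk_surjective b
    obtain ⟨x, rfl⟩ := Submodule.mkQ_surjective _ x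
    have h4 : a • (Ideal.Quotient.mk m b) = Ideal.Quotient.mk m (a • b) :=
      (map_smul (Ideal.Quotient.mkₐ k m) a b).symm
    rw [h4]
    show Submodule.Quotient.mk ((a • b) • x) = a • Submodule.Quotient.mk (b • x)
    rw [smul_assoc]
    rfl
  exact Module.Finite.trans (R ⧸ m) _

private theorem rfd_pow {k : Type u} [Field k] {R : Type u} [CommRing R] [IsNoetherianRing R]
    [Algebra k R] [Algebra.FiniteType k R] (m : Ideal R) [hm : m.IsMaximal] {Q : Type u}
    [AddCommGroup Q] [Module k Q] [Module R Q] [IsScalarTower k R Q] [Module.Finite R Q] (j : ℕ) :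
    FC ((m ^ j • ⊤ : Submodule R Q).restrictScalars k) (⊤ : Submodule k Q) := by
  classical
  induction j with
  | zero =>
    refine FC.of_le ?_
    rw [pow_zero, Ideal.one_eq_top, Submodule.top_smul]
    exact le_of_eq (Submodule.restrictScalars_top k R Q).symm
  | succ j ih =>
    refine FC.trans ?_ ih
    let N : Submodule R Q := m ^ j • ⊤
    haveI : Module.Finite R N := inferInstance
    have h1 : Module.Finite k (N ⧸ (m • ⊤ : Submodule R N)) := rfd_step m
    have h2 : FiniteDimensional k (N ⧸ ((m • ⊤ : Submodule R N).restrictScalars k)) := h1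
    rw [← fc_top_iff] at h2
    obtain ⟨W, hW⟩ := h2
    refine ⟨W.image (fun w : N => (w : Q)), ?_⟩
    intro z hz
    obtain ⟨a, ha, b, hb, hab⟩ :=
      Submodule.mem_sup.mp (hW (Submodule.mem_top : (⟨z, hz⟩ : N) ∈ (⊤ : Submodule k N)))
    have h3 : (a : Q) + (b : Q) = z := by
      have := congrArg (fun w : N => (w : Q)) hab
      simpa using this
    rw [← h3]
    refine Submodule.add_mem_sup ?_ ?_
    · have h4 : (a : Q) ∈ Submodule.map N.subtype (m • ⊤ : Submodule R N) := ⟨a, ha, rfl⟩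
      rw [Submodule.map_smul'', Submodule.map_subtype_top] at h4
      show (a : Q) ∈ (m ^ (j + 1) • ⊤ : Submodule R Q)
      rw [pow_succ', Submodule.mul_smul]
      exact h4
    · have h4 : (b : Q) ∈ Submodule.map (N.subtype.restrictScalars k)
          (Submodule.span k (W : Set N)) := ⟨b, hb, rfl⟩
      rw [Submodule.map_span] at h4
      rw [Finset.coe_image]
      exact h4

theorem rfd (h0 : ModProp.{u}) : RfdProp.{u} := by
  classical
  intro k _ X _ _ ι _ φ Y Z U x hY hc hS hU hYU hUZ hxZ hxU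
  obtain ⟨S, hS⟩ := hS
  have hZ : Stab φ Z := by
    rw [← hS]
    exact (gen_stab φ _).sup hY
  obtain ⟨Q, _, _, _, _, pr, hpr, hker, hX⟩ := h0 k X ι φ U Z hZ hU hUZ
    (fun i j x hx => hYU (hc i j x hx))
  -- `Q` is finite
  have hSZ : ∀ s ∈ S, s ∈ Z := fun s hs => by
    rw [← hS]
    exact (le_sup_left : gen φ (S : Set X) ≤ _) (subset_gen φ _ hs)
  haveI hfin : Module.Finite (MvPolynomial ι k) Q := by
    let N : Submodule (MvPolynomial ι k) Q := Submodule.span (MvPolynomial ι k)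
      (Set.range fun s : S => pr ⟨s, hSZ s s.2⟩)
    have h1 : Z ≤ ((N.restrictScalars k).comap pr).map Z.subtype := by
      conv_lhs => rw [← hS]
      refine sup_le (gen_le ?_ ?_) ?_
      · rintro i _ ⟨z, hz, rfl⟩
        refine ⟨⟨φ i z, hZ i z z.2⟩, ?_, rfl⟩
        show pr _ ∈ N
        rw [← hX]
        exact N.smul_mem _ hz
      · intro s hs
        exact ⟨⟨s, hSZ s hs⟩, Submodule.subset_span ⟨⟨s, hs⟩, rfl⟩, rfl⟩
      · intro y hy
        refine ⟨⟨y, hYU.trans hUZ hy⟩, ?_, rfl⟩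
        show pr _ ∈ N
        rw [(hker _).mpr (hYU hy)]
        exact N.zero_mem
    have h2 : N = ⊤ := by
      rw [eq_top_iff]
      intro q _
      obtain ⟨z, rfl⟩ := hpr q
      obtain ⟨z', hz', hzz⟩ := h1 z.2
      have : z' = z := Subtype.ext hzz
      rw [← this]
      exact hz'
    refine Module.finite_def.mpr ⟨Finset.univ.image fun s : S => pr ⟨s, hSZ s s.2⟩, ?_⟩
    rw [Finset.coe_image, Finset.coe_univ, Set.image_univ]
    exact h2
  have hfil : ∃ (m : Ideal (MvPolynomial ι k)) (_ : m.IsMaximal) (j : ℕ),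
      pr ⟨x, hxZ⟩ ∉ (m ^ j • ⊤ : Submodule (MvPolynomial ι k) Q) := by
    set q := pr ⟨x, hxZ⟩ with hq
    have hq0 : q ≠ 0 := fun h => hxU ((hker _).mp h)
    let a : Ideal (MvPolynomial ι k) := LinearMap.ker (LinearMap.toSpanSingleton (MvPolynomial ι k) Q q)
    have ha : a ≠ ⊤ := by
      intro h
      have h1 : (1 : MvPolynomial ι k) ∈ a := by rw [h]; trivial
      have h2 : (1 : MvPolynomial ι k) • q = 0 := h1
      rw [one_smul] at h2
      exact hq0 h2
    obtain ⟨m, hm, ham⟩ := Ideal.exists_le_maximal a ha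
    refine ⟨m, hm, ?_⟩
    by_contra hno
    push Not at hno
    have h1 : q ∈ (⨅ i : ℕ, m ^ i • ⊤ : Submodule (MvPolynomial ι k) Q) :=
      (Submodule.mem_iInf _).mpr hno
    obtain ⟨r, hr⟩ := (m.mem_iInf_smul_pow_eq_bot_iff q).mp h1
    have h2 : (1 - (r : MvPolynomial ι k)) ∈ a := by
      show (1 - (r : MvPolynomial ι k)) • q = 0
      rw [sub_smul, one_smul, hr, sub_self]
    have h3 : (1 : MvPolynomial ι k) ∈ m := by
      have := m.add_mem (ham h2) r.2
      simpa using this
    exact hm.ne_top ((Ideal.eq_top_iff_one m).mpr h3)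
  obtain ⟨m, hm, j, hj⟩ := hfil
  let N : Submodule (MvPolynomial ι k) Q := m ^ j • ⊤
  refine ⟨((N.restrictScalars k).comap pr).map Z.subtype, ?_, ?_, ?_, ?_, ?_⟩
  · rintro i _ ⟨z, hz, rfl⟩
    refine ⟨⟨φ i z, hZ i z z.2⟩, ?_, rfl⟩
    show pr _ ∈ N
    rw [← hX]
    exact N.smul_mem _ hz
  · intro y hy
    refine ⟨⟨y, hUZ hy⟩, ?_, rfl⟩
    show pr _ ∈ N
    rw [(hker _).mpr hy]
    exact N.zero_mem
  · rintro _ ⟨z, _, rfl⟩
    exact z.2
  · rintro ⟨z, hz, hzx⟩
    have : z = ⟨x, hxZ⟩ := Subtype.ext hzx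
    rw [this] at hz
    exact hj hz
  · obtain ⟨W, hW⟩ := rfd_pow (k := k) m (Q := Q) j
    choose g hg using hpr
    refine ⟨W.image fun w => (g w : X), ?_⟩
    intro z hz
    obtain ⟨a, ha, b, hb, hab⟩ :=
      Submodule.mem_sup.mp (hW (Submodule.mem_top : pr ⟨z, hz⟩ ∈ (⊤ : Submodule k Q)))
    have h1 : ∀ b ∈ Submodule.span k (W : Set Q), ∃ w : ↥Z, pr w = b ∧
        (w : X) ∈ Submodule.span k ((W.image fun w => (g w : X) : Finset X) : Set X) := by
      intro b hb
      induction hb using Submodule.span_induction with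
      | mem w hw => exact ⟨g w, hg w, Submodule.subset_span (by
          rw [Finset.coe_image]; exact ⟨w, hw, rfl⟩)⟩
      | zero => exact ⟨0, map_zero pr, Submodule.zero_mem _⟩
      | add x y _ _ ihx ihy =>
        obtain ⟨w1, h1, h2⟩ := ihx
        obtain ⟨w2, h3, h4⟩ := ihy
        exact ⟨w1 + w2, by rw [map_add, h1, h3], Submodule.add_mem _ h2 h4⟩
      | smul t x _ ihx =>
        obtain ⟨w1, h1, h2⟩ := ihx
        exact ⟨t • w1, by rw [map_smul, h1], Submodule.smul_mem _ t h2⟩
    obtain ⟨w, hw, hw'⟩ := h1 b hb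
    refine Submodule.mem_sup.mpr ⟨z - (w : X), ⟨⟨z, hz⟩ - w, ?_, ?_⟩, w, hw', by abel⟩
    · show pr (⟨z, hz⟩ - w) ∈ N
      rw [map_sub, hw, ← hab, add_sub_cancel_right]
      exact ha
    · rfl

end Pool.Agent.Lib.MP_240c17_al.Two
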