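import Pool.Agent.Lib.MP_240c17_al.Two.Spec

set_option autoImplicit false

namespace Pool.Agent.Lib.MP_240c17_al.Two

universe u

theorem stabIdeal : StabIdealProp.{u} := by
  intro k _ P _ _ n x hx Y hY y hy z
  let T : LieSubalgebra k P :=
    { carrier := {z | ∀ y ∈ Y, ⁅y, z⁆ ∈ Y}
      add_mem' := by
        intro a b ha hb y hy
        rw [lie_add]
        exact Y.add_mem (ha y hy) (hb y hy)
      zero_mem' := by
        intro y _
        rw [lie_zero]
        exact Y.zero_mem
      smul_mem' := by
        intro c a ha y hy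
        rw [lie_smul]
        exact Y.smul_mem c (ha y hy)
      lie_mem' := by
        intro a b ha hb y hy
        rw [leibniz_lie, ← lie_skew a ⁅y, b⁆]
        exact Y.add_mem (hb _ (ha y hy)) (Y.neg_mem (ha _ (hb y hy))) }
  have h1 : LieSubalgebra.lieSpan k P (Set.range x) ≤ T := by
    rw [LieSubalgebra.lieSpan_le]
    rintro _ ⟨i, rfl⟩ y hy
    exact hY i y hy
  have h2 : z ∈ T := by
    apply h1
    rw [hx]
    exact LieSubalgebra.mem_top z
  exact h2 y hy

/-- the ideal with underlying subspace `Y` -/
private def lieGenMk {k : Type u} [Field k] {P : Type u} [LieRing P] [LieAlgebra k P]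
    (Y : Submodule k P) (h : ∀ y ∈ Y, ∀ z : P, ⁅y, z⁆ ∈ Y) : LieIdeal k P :=
  { Y with
    lie_mem := by
      intro z m hm
      rw [← lie_skew]
      exact Y.neg_mem (h m hm z) }

private theorem lieGen_stab_ideal {k : Type u} [Field k] {P : Type u} [LieRing P]
    [LieAlgebra k P] {n : ℕ} (x : Fin n → P) (J : LieIdeal k P) :
    Stab (fun i => adr k (x i)) J.toSubmodule := by
  intro i y hy
  change ⁅y, x i⁆ ∈ J
  rw [← lie_skew]
  exact J.neg_mem (J.lie_mem hy)

theorem idealGen : IdealGenProp.{u} := by
  intro k _ P _ _ n x hx S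
  apply le_antisymm
  · have h1 := stabIdeal k P n x hx (gen (fun i => adr k (x i)) S) (gen_stab _ S)
    have h2 : LieSubmodule.lieSpan k P S ≤ lieGenMk _ h1 := by
      rw [LieSubmodule.lieSpan_le]
      exact subset_gen _ S
    exact h2
  · apply gen_le (lieGen_stab_ideal x _)
    exact LieSubmodule.subset_lieSpan

private theorem lieGen_top {k : Type u} [Field k] {P : Type u} [LieRing P]
    [LieAlgebra k P] {n : ℕ} (x : Fin n → P)
    (hx : LieSubalgebra.lieSpan k P (Set.range x) = ⊤) (Y : Submodule k P)
    (hY : ∀ a ∈ Y, ∀ b ∈ Y, ⁅a, b⁆ ∈ Y) (hxY : ∀ i, x i ∈ Y) (z : P) : z ∈ Y := by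
  let T : LieSubalgebra k P := { Y with lie_mem' := fun {a b} ha hb => hY a ha b hb }
  have h1 : LieSubalgebra.lieSpan k P (Set.range x) ≤ T := by
    rw [LieSubalgebra.lieSpan_le]
    rintro _ ⟨i, rfl⟩
    exact hxY i
  have h2 : z ∈ T := by
    apply h1
    rw [hx]
    exact LieSubalgebra.mem_top z
  exact h2

theorem derFc : DerFcProp.{u} := by
  classical
  intro k _ P _ _ n x hx
  refine ⟨Finset.univ.image x, fun z _ => ?_⟩
  apply lieGen_top x hx
  · intro a _ b _
    apply Submodule.mem_sup_left
    exact LieSubmodule.lie_mem_lie (LieSubmodule.mem_top a) (LieSubmodule.mem_top b)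
  · intro i
    apply Submodule.mem_sup_right
    apply Submodule.subset_span
    simp

/-- a finite spanning set of the intersection of a finite span with a subspace -/
private theorem lieGen_inf_fg {k : Type u} [Field k] {P : Type u} [AddCommGroup P]
    [Module k P] (T : Finset P) (Y : Submodule k P) :
    ∃ B : Finset P, Submodule.span k (B : Set P) = Submodule.span k (T : Set P) ⊓ Y := by
  have : FiniteDimensional k (Submodule.span k (T : Set P)) :=
    FiniteDimensional.span_finset k T
  have h2 : (Submodule.span k (T : Set P) ⊓ Y).FG := by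
    have : FiniteDimensional k (Submodule.span k (T : Set P) ⊓ Y : Submodule k P) :=
      Submodule.finiteDimensional_inf_left _ _
    exact (Submodule.fg_iff_finiteDimensional _).mpr this
  exact h2

/-- a span plus an ideal is stable if the brackets of the spanning vectors are in it -/
private theorem lieGen_stab_span {k : Type u} [Field k] {P : Type u} [LieRing P]
    [LieAlgebra k P] {n : ℕ} (x : Fin n → P) (T : Finset P) (J : LieIdeal k P)
    (h : ∀ s ∈ T, ∀ i, ⁅s, x i⁆ ∈ Submodule.span k (T : Set P) ⊔ J.toSubmodule) :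
    Stab (fun i => adr k (x i)) (Submodule.span k (T : Set P) ⊔ J.toSubmodule) := by
  intro i y hy
  change ⁅y, x i⁆ ∈ Submodule.span k (T : Set P) ⊔ J.toSubmodule
  obtain ⟨v, hv, j, hj, rfl⟩ := Submodule.mem_sup.mp hy
  rw [add_lie]
  refine Submodule.add_mem _ ?_ (Submodule.mem_sup_right (lieGen_stab_ideal x J i j hj))
  induction hv using Submodule.span_induction with
  | mem s hs => exact h s hs i
  | zero => rw [zero_lie]; exact Submodule.zero_mem _
  | add a b _ _ ha hb =>
    rw [add_lie]
    exact Submodule.add_mem _ (ha (Submodule.add_mem _ (Submodule.mem_sup_left ‹_›)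
      (Submodule.mem_sup_right hj))) (hb (Submodule.add_mem _ (Submodule.mem_sup_left ‹_›)
      (Submodule.mem_sup_right hj)))
  | smul c a _ ha =>
    rw [smul_lie]
    exact Submodule.smul_mem _ c (ha (Submodule.add_mem _ (Submodule.mem_sup_left ‹_›)
      (Submodule.mem_sup_right hj)))

theorem interFg : InterFgProp.{u} := by
  classical
  intro k _ P _ _ n x hx K hK
  obtain ⟨S, rfl⟩ := hK
  obtain ⟨B, hB⟩ := lieGen_inf_fg S (D1 k P).toSubmodule
  set C : Finset P := S.biUnion (fun s => Finset.univ.image (fun i : Fin n => ⁅s, x i⁆)) with hC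
  refine ⟨B ∪ C, ?_⟩
  set J := LieSubmodule.lieSpan k P ((B ∪ C : Finset P) : Set P) with hJ
  have hCJ : ∀ s ∈ S, ∀ i, ⁅s, x i⁆ ∈ J := by
    intro s hs i
    apply LieSubmodule.subset_lieSpan
    rw [Finset.coe_union]
    right
    rw [Finset.mem_coe, hC, Finset.mem_biUnion]
    exact ⟨s, hs, Finset.mem_image_of_mem _ (Finset.mem_univ i)⟩
  have hBJ : ∀ v ∈ Submodule.span k (S : Set P), v ∈ D1 k P → v ∈ J := by
    intro v hv hvD
    have h1 : v ∈ Submodule.span k (B : Set P) := by
      rw [hB]
      exact ⟨hv, hvD⟩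
    have h2 : Submodule.span k (B : Set P) ≤ J.toSubmodule := by
      rw [Submodule.span_le]
      intro b hb
      apply LieSubmodule.subset_lieSpan
      rw [Finset.coe_union]
      exact Or.inl hb
    exact h2 h1
  have hstab := lieGen_stab_span x S J (fun s hs i => Submodule.mem_sup_right (hCJ s hs i))
  have hid := stabIdeal k P n x hx _ hstab
  have hKle : LieSubmodule.lieSpan k P (S : Set P) ≤ lieGenMk _ hid := by
    rw [LieSubmodule.lieSpan_le]
    intro s hs
    exact Submodule.mem_sup_left (Submodule.subset_span hs)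
  apply le_antisymm
  · rw [hJ, LieSubmodule.lieSpan_le]
    intro b hb
    rw [Finset.coe_union] at hb
    rcases hb with hb | hb
    · have h1 : b ∈ Submodule.span k (B : Set P) := Submodule.subset_span hb
      rw [hB] at h1
      refine ⟨?_, h1.2⟩
      have h3 : Submodule.span k (S : Set P) ≤
          (LieSubmodule.lieSpan k P (S : Set P)).toSubmodule := by
        rw [Submodule.span_le]
        exact LieSubmodule.subset_lieSpan
      exact h3 h1.1
    · rw [Finset.mem_coe, hC, Finset.mem_biUnion] at hb
      obtain ⟨s, hs, hb⟩ := hb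
      obtain ⟨i, _, rfl⟩ := Finset.mem_image.mp hb
      refine ⟨?_, ?_⟩
      · have h4 : s ∈ LieSubmodule.lieSpan k P (S : Set P) := LieSubmodule.subset_lieSpan hs
        exact lieGen_stab_ideal x _ i s h4
      · exact LieSubmodule.lie_mem_lie (LieSubmodule.mem_top s) (LieSubmodule.mem_top (x i))
  · intro a ha
    have h1 : a ∈ Submodule.span k (S : Set P) ⊔ J.toSubmodule := hKle ha.1
    obtain ⟨v, hv, j, hj, hvj⟩ := Submodule.mem_sup.mp h1
    have hJD : J ≤ D1 k P := by
      rw [hJ, LieSubmodule.lieSpan_le]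
      intro b hb
      rw [Finset.coe_union] at hb
      rcases hb with hb | hb
      · have h1 : b ∈ Submodule.span k (B : Set P) := Submodule.subset_span hb
        rw [hB] at h1
        exact h1.2
      · rw [Finset.mem_coe, hC, Finset.mem_biUnion] at hb
        obtain ⟨s, hs, hb⟩ := hb
        obtain ⟨i, _, rfl⟩ := Finset.mem_image.mp hb
        exact LieSubmodule.lie_mem_lie (LieSubmodule.mem_top s) (LieSubmodule.mem_top (x i))
    have hvD : v ∈ D1 k P := by
      have h5 : v = a - j := by rw [← hvj]; abel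
      rw [h5]
      exact (D1 k P).sub_mem ha.2 (hJD hj)
    rw [← hvj]
    exact J.add_mem (hBJ v hv hvD) hj

theorem cofFg : CofFgProp.{u} := by
  classical
  intro k _ P _ _ n x hx I hI
  obtain ⟨W, hW⟩ := hI
  set T : Finset P := W ∪ Finset.univ.image x with hT
  have hWT : Submodule.span k (W : Set P) ≤ Submodule.span k (T : Set P) := by
    apply Submodule.span_mono
    rw [hT, Finset.coe_union]
    exact Set.subset_union_left
  have hdec : ∀ (s : P) (i : Fin n), ∃ a ∈ I, ∃ v ∈ Submodule.span k (T : Set P),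
      a + v = ⁅s, x i⁆ := by
    intro s i
    obtain ⟨a, ha, v, hv, hav⟩ := Submodule.mem_sup.mp (hW (Submodule.mem_top : ⁅s, x i⁆ ∈ ⊤))
    exact ⟨a, ha, v, hWT hv, hav⟩
  choose a haI v hvV hav using hdec
  obtain ⟨B, hB⟩ := lieGen_inf_fg T I.toSubmodule
  set C : Finset P := T.biUnion (fun s => Finset.univ.image (fun i : Fin n => a s i)) with hC
  refine ⟨B ∪ C, ?_⟩
  set J := LieSubmodule.lieSpan k P ((B ∪ C : Finset P) : Set P) with hJ
  have hCJ : ∀ s ∈ T, ∀ i, a s i ∈ J := by
    intro s hs i
    apply LieSubmodule.subset_lieSpan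
    rw [Finset.coe_union]
    right
    rw [Finset.mem_coe, hC, Finset.mem_biUnion]
    exact ⟨s, hs, Finset.mem_image_of_mem _ (Finset.mem_univ i)⟩
  have hBJ : ∀ w ∈ Submodule.span k (T : Set P), w ∈ I → w ∈ J := by
    intro w hw hwI
    have h1 : w ∈ Submodule.span k (B : Set P) := by
      rw [hB]
      exact ⟨hw, hwI⟩
    have h2 : Submodule.span k (B : Set P) ≤ J.toSubmodule := by
      rw [Submodule.span_le]
      intro b hb
      apply LieSubmodule.subset_lieSpan
      rw [Finset.coe_union]
      exact Or.inl hb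
    exact h2 h1
  have hstab := lieGen_stab_span x T J (fun s hs i => by
    rw [← hav s i]
    exact Submodule.add_mem _ (Submodule.mem_sup_right (hCJ s hs i))
      (Submodule.mem_sup_left (hvV s i)))
  have hid := stabIdeal k P n x hx _ hstab
  have htop := lieGen_top x hx _ (fun a ha b _ => hid a ha b) (fun i =>
    Submodule.mem_sup_left (Submodule.subset_span (by
      rw [hT, Finset.coe_union]
      right
      rw [Finset.mem_coe]
      exact Finset.mem_image_of_mem _ (Finset.mem_univ i))))
  have hJI : J ≤ I := by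
    rw [hJ, LieSubmodule.lieSpan_le]
    intro b hb
    rw [Finset.coe_union] at hb
    rcases hb with hb | hb
    · have h1 : b ∈ Submodule.span k (B : Set P) := Submodule.subset_span hb
      rw [hB] at h1
      exact h1.2
    · rw [Finset.mem_coe, hC, Finset.mem_biUnion] at hb
      obtain ⟨s, hs, hb⟩ := hb
      obtain ⟨i, _, rfl⟩ := Finset.mem_image.mp hb
      exact haI s i
  apply le_antisymm hJI
  intro b hb
  obtain ⟨w, hw, j, hj, hwj⟩ := Submodule.mem_sup.mp (htop b)
  have hwI : w ∈ I := by
    have h5 : w = b - j := by rw [← hwj]; abel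
    rw [h5]
    exact I.sub_mem hb (hJI hj)
  rw [← hwj]
  exact J.add_mem (hBJ w hw hwI) hj

end Pool.Agent.Lib.MP_240c17_al.Two
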