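import Mathlib

/-!
Vector spaces with a family of operators: stable subspaces, generated subspaces, finite codimension.
-/

set_option autoImplicit false

namespace Pool.Agent.Lib.MP_240c17_al.Two

universe u

section

variable {k : Type u} [Field k] {X : Type u} [AddCommGroup X] [Module k X] {ι κ : Type}

/-- `Y` is stable under the operators `φ i`. -/
def Stab (φ : ι → Module.End k X) (Y : Submodule k X) : Prop := ∀ i, ∀ y ∈ Y, φ i y ∈ Y

/-- The smallest stable subspace containing `S`. -/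
def gen (φ : ι → Module.End k X) (S : Set X) : Submodule k X := sInf {Y | Stab φ Y ∧ S ⊆ Y}

/-- `Y` has finite codimension in `Z` (mostly used with `Y ≤ Z`). -/
def FC (Y Z : Submodule k X) : Prop :=
  ∃ W : Finset X, Z ≤ Y ⊔ Submodule.span k (W : Set X)

/-- The operators commute on `Z` modulo `Y`. -/
def CommMod (φ : ι → Module.End k X) (Y Z : Submodule k X) : Prop :=
  ∀ i j, ∀ x ∈ Z, φ i (φ j x) - φ j (φ i x) ∈ Y

theorem subset_gen (φ : ι → Module.End k X) (S : Set X) : S ⊆ gen φ S := by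
  intro x hx
  rw [SetLike.mem_coe, gen, Submodule.mem_sInf]
  exact fun Y hY => hY.2 hx

theorem gen_stab (φ : ι → Module.End k X) (S : Set X) : Stab φ (gen φ S) := by
  intro i y hy
  rw [gen, Submodule.mem_sInf] at hy ⊢
  exact fun Y hY => hY.1 i y (hy Y hY)

theorem gen_le {φ : ι → Module.End k X} {S : Set X} {Y : Submodule k X} (h1 : Stab φ Y)
    (h2 : S ⊆ Y) : gen φ S ≤ Y := by
  intro x hx
  rw [gen, Submodule.mem_sInf] at hx
  exact hx Y ⟨h1, h2⟩

theorem gen_mono (φ : ι → Module.End k X) {S T : Set X} (h : S ⊆ T) : gen φ S ≤ gen φ T :=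
  gen_le (gen_stab φ T) (h.trans (subset_gen φ T))

theorem Stab.sup {φ : ι → Module.End k X} {Y Z : Submodule k X} (h1 : Stab φ Y)
    (h2 : Stab φ Z) : Stab φ (Y ⊔ Z) := by
  intro i y hy
  obtain ⟨a, ha, b, hb, rfl⟩ := Submodule.mem_sup.mp hy
  rw [map_add]
  exact Submodule.add_mem_sup (h1 i a ha) (h2 i b hb)

theorem Stab.inf {φ : ι → Module.End k X} {Y Z : Submodule k X} (h1 : Stab φ Y)
    (h2 : Stab φ Z) : Stab φ (Y ⊓ Z) :=
  fun i y hy => ⟨h1 i y hy.1, h2 i y hy.2⟩

theorem stab_top (φ : ι → Module.End k X) : Stab φ ⊤ := fun _ _ _ => Submodule.mem_top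

theorem stab_bot (φ : ι → Module.End k X) : Stab φ ⊥ := by
  intro i y hy
  rw [(Submodule.mem_bot k).mp hy, map_zero]
  exact Submodule.zero_mem _

theorem stab_elim {φ : ι → Module.End k X} {ψ : κ → Module.End k X} {Y : Submodule k X} :
    Stab (Sum.elim φ ψ) Y ↔ Stab φ Y ∧ Stab ψ Y := by
  constructor
  · exact fun h => ⟨fun i => h (Sum.inl i), fun i => h (Sum.inr i)⟩
  · rintro ⟨h1, h2⟩ (i | i)
    · exact h1 i
    · exact h2 i

theorem gen_union (φ : ι → Module.End k X) (S T : Set X) :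
    gen φ (S ∪ T) = gen φ S ⊔ gen φ T := by
  apply le_antisymm
  · apply gen_le ((gen_stab φ S).sup (gen_stab φ T))
    rintro x (hx | hx)
    · exact (le_sup_left : gen φ S ≤ _) (subset_gen φ S hx)
    · exact (le_sup_right : gen φ T ≤ _) (subset_gen φ T hx)
  · exact sup_le (gen_mono φ Set.subset_union_left) (gen_mono φ Set.subset_union_right)

theorem FC.refl (Y : Submodule k X) : FC Y Y := ⟨∅, by simp⟩

theorem FC.of_le {Y Z : Submodule k X} (h : Z ≤ Y) : FC Y Z := ⟨∅, by simpa using h⟩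

theorem FC.mono {Y Y' Z Z' : Submodule k X} (h : FC Y Z) (h1 : Y ≤ Y') (h2 : Z' ≤ Z) :
    FC Y' Z' := by
  obtain ⟨W, hW⟩ := h
  exact ⟨W, h2.trans (hW.trans (sup_le_sup_right h1 _))⟩

theorem FC.trans {Y Z U : Submodule k X} (h1 : FC Y Z) (h2 : FC Z U) : FC Y U := by
  classical
  obtain ⟨W1, hW1⟩ := h1
  obtain ⟨W2, hW2⟩ := h2
  refine ⟨W1 ∪ W2, ?_⟩
  rw [Finset.coe_union, Submodule.span_union, ← sup_assoc]
  exact hW2.trans (sup_le_sup_right hW1 _)

/-- Finite codimension in the whole space is finite dimensionality of the quotient. -/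
theorem fc_top_iff (Y : Submodule k X) : FC Y ⊤ ↔ FiniteDimensional k (X ⧸ Y) := by
  classical
  constructor
  · rintro ⟨W, hW⟩
    have h1 : Submodule.span k ((W.image Y.mkQ : Finset (X ⧸ Y)) : Set (X ⧸ Y)) = ⊤ := by
      rw [Finset.coe_image, ← Submodule.map_span, eq_top_iff]
      intro q _
      obtain ⟨x, rfl⟩ := Y.mkQ_surjective q
      obtain ⟨y, hy, w, hw, rfl⟩ := Submodule.mem_sup.mp (hW (Submodule.mem_top : x ∈ ⊤))
      refine ⟨w, hw, ?_⟩
      rw [map_add, (Submodule.Quotient.mk_eq_zero Y).mpr hy |> (fun h => (h : Y.mkQ y = 0)), zero_add]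
    exact Module.Finite.of_fg_top (⟨_, h1⟩ : (⊤ : Submodule k (X ⧸ Y)).FG)
  · intro h
    obtain ⟨W, hW⟩ := (Module.finite_def.mp h : (⊤ : Submodule k (X ⧸ Y)).FG)
    obtain ⟨g, hg⟩ := Y.mkQ_surjective.hasRightInverse
    refine ⟨W.image g, ?_⟩
    intro x _
    have h1 : Y.mkQ x ∈ Submodule.span k (W : Set (X ⧸ Y)) := by rw [hW]; trivial
    have h2 : Submodule.span k (W : Set (X ⧸ Y)) =
        (Submodule.span k ((W.image g : Finset X) : Set X)).map Y.mkQ := by
      rw [Submodule.map_span, Finset.coe_image, Set.image_image]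
      congr 1
      ext q
      constructor
      · exact fun hq => ⟨q, hq, hg q⟩
      · rintro ⟨q', hq', rfl⟩
        have h3 : Y.mkQ (g q') = q' := hg q'
        show Y.mkQ (g q') ∈ (W : Set (X ⧸ Y))
        rw [h3]
        exact hq'
    rw [h2] at h1
    obtain ⟨w, hw, hwx⟩ := h1
    refine Submodule.mem_sup.mpr ⟨x - w, ?_, w, hw, by abel⟩
    rw [← Submodule.ker_mkQ Y, LinearMap.mem_ker, map_sub, hwx, sub_self]

end

end Pool.Agent.Lib.MP_240c17_al.Two
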