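import Pool.Agent.Lib.MP_240c17_al.Defs
import Pool.Agent.Lib.MP_240c17_al.Two.Basic

/-!
# Statements of the lemmas for the classification inside the variety N₂A

Every lemma is a `Prop`; the proof is in the docstring. The files proving them are independent.
-/

set_option autoImplicit false

namespace Pool.Agent.Lib.MP_240c17_al.Two

universe u

open TensorProduct

/-! ## A. Commuting operators -/

/-- (A0) The subquotient `Z / Y` as a module over the polynomial ring. PROOF.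
`Q = ↥Z ⧸ Y.comap Z.subtype` with the induced operators, which commute strictly; the subalgebra of
`Module.End k Q` generated by them is commutative (`Algebra.adjoinCommRingOfComm`), so there is an
algebra homomorphism `MvPolynomial ι k → Module.End k Q`; `Module.compHom`. -/
def ModProp : Prop :=
  ∀ (k : Type u) [Field k] (X : Type u) [AddCommGroup X] [Module k X] (ι : Type)
    (φ : ι → Module.End k X) (Y Z : Submodule k X) (hZ : Stab φ Z), Stab φ Y → Y ≤ Z →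
    CommMod φ Y Z →
    ∃ (Q : Type u) (_ : AddCommGroup Q) (_ : Module k Q) (_ : Module (MvPolynomial ι k) Q)
      (_ : IsScalarTower k (MvPolynomial ι k) Q) (pr : ↥Z →ₗ[k] Q),
      Function.Surjective pr ∧ (∀ z, pr z = 0 ↔ (z : X) ∈ Y) ∧
      ∀ (i : ι) (z : ↥Z), (MvPolynomial.X i : MvPolynomial ι k) • pr z = pr ⟨φ i z, hZ i z z.2⟩

/-- (A1) Hilbert basis theorem. PROOF (may use A0). `Z` is stable. Pass to `Q = Z / Y` (type
`↥Z ⧸ Y.comap Z.subtype`) with the induced strictly commuting operators. `Q` is a module over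
`MvPolynomial ι k` (the subalgebra of `Module.End k Q` generated by the operators is commutative:
`Algebra.adjoinCommRingOfComm`), it is generated by the images of `S`, hence Noetherian
(`MvPolynomial` over a field with finitely many variables is Noetherian); stable subspaces are the
submodules; pull back. -/
def HilbertProp : Prop :=
  ∀ (k : Type u) [Field k] (X : Type u) [AddCommGroup X] [Module k X] (ι : Type) [Finite ι]
    (φ : ι → Module.End k X) (Y Z U : Submodule k X), Stab φ Y → CommMod φ Y Z →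
    (∃ S : Finset X, gen φ (S : Set X) ⊔ Y = Z) → Stab φ U → Y ≤ U → U ≤ Z →
    ∃ S : Finset X, gen φ (S : Set X) ⊔ Y = U

/-- (A2) Finitely generated modules over finitely generated commutative algebras are residually
finite dimensional. PROOF (may use A0). As in (A1), with `Q = Z / U`, a finite module over the Noetherian ring
`R = MvPolynomial ι k`, and `x ≠ 0` in `Q`. Choose a maximal ideal `𝔪` containing the annihilator of
`x`. By Krull's intersection theorem (`Ideal.mem_iInf_smul_pow_eq_bot_iff` or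
`Ideal.iInf_pow_smul_eq_bot...`) if `x ∈ 𝔪 ^ j Q` for all `j` then `(1 - r) x = 0` for some `r ∈ 𝔪`,
so `1 ∈ 𝔪`, a contradiction. So `x ∉ 𝔪 ^ j Q` for some `j`, and `Q / 𝔪 ^ j Q` is finite dimensional,
because `R / 𝔪` is (Nullstellensatz / Zariski's lemma) and `R` is Noetherian. -/
def RfdProp : Prop :=
  ∀ (k : Type u) [Field k] (X : Type u) [AddCommGroup X] [Module k X] (ι : Type) [Finite ι]
    (φ : ι → Module.End k X) (Y Z U : Submodule k X) (x : X), Stab φ Y → CommMod φ Y Z →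
    (∃ S : Finset X, gen φ (S : Set X) ⊔ Y = Z) → Stab φ U → Y ≤ U → U ≤ Z → x ∈ Z → x ∉ U →
    ∃ D : Submodule k X, Stab φ D ∧ U ≤ D ∧ D ≤ Z ∧ x ∉ D ∧ FC D Z

/-- (A3) PROOF (may use A0). `Q = X / Y`, a finite module over `R = MvPolynomial ι k`. `𝔫` = annihilator of `X / C`
in `R`; `R / 𝔫` embeds in `End (X / C)`, so it is finite dimensional. `D` = preimage of `𝔫 Q`;
`Q / 𝔫 Q` is a finite module over `R / 𝔫`, hence finite dimensional. -/
def AnnProp : Prop :=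
  ∀ (k : Type u) [Field k] (X : Type u) [AddCommGroup X] [Module k X] (ι : Type) [Finite ι]
    (φ : ι → Module.End k X) (Y C : Submodule k X), Stab φ Y → CommMod φ Y ⊤ →
    (∃ S : Finset X, gen φ (S : Set X) ⊔ Y = ⊤) → Stab φ C → Y ≤ C → FC C ⊤ →
    ∃ D : Submodule k X, Y ≤ D ∧ D ≤ C ∧ FC D ⊤ ∧
      ∀ ψ : Module.End k X, (∀ i, Commute ψ (φ i)) → (∀ y ∈ Y, ψ y ∈ Y) → ∀ d ∈ D, ψ d ∈ D

/-- (A4) Integrality. PROOF. Induction on the number of the operators `ψ j` (`κ` finite; e.g. by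
`Finite.induction_empty_option`, or for `κ = Fin s` by induction on `s`): for a single `ψ` with
`ψ ^ d ≡ ∑ l < d, r l ψ ^ l` modulo `Y` on `Z`, and `Z = gen (φ ∪ ψ) S ⊔ Y`, take
`S' = {ψ ^ l s : s ∈ S, l < d}` and check that `gen φ S' ⊔ Y` is stable under `ψ` and contains `S`
(if `d = 0` then `Z ≤ Y`). Alternatively pass to `Z / Y`, where everything commutes, and use the
commutative algebras generated by the operators and `fg_adjoin_of_finite`. -/
def IntegralProp : Prop :=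
  ∀ (k : Type u) [Field k] (X : Type u) [AddCommGroup X] [Module k X] (ι κ : Type) [Finite κ]
    (φ : ι → Module.End k X) (ψ : κ → Module.End k X) (Y Z : Submodule k X),
    Stab (Sum.elim φ ψ) Y → CommMod (Sum.elim φ ψ) Y Z →
    (∃ S : Finset X, gen (Sum.elim φ ψ) (S : Set X) ⊔ Y = Z) →
    (∀ j : κ, ∃ (d : ℕ) (r : ℕ → Module.End k X),
      (∀ l, r l ∈ Algebra.adjoin k (Set.range φ)) ∧
      ∀ x ∈ Z, (ψ j ^ d) x - ∑ l ∈ Finset.range d, r l ((ψ j ^ l) x) ∈ Y) →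
    ∃ S : Finset X, gen φ (S : Set X) ⊔ Y = Z

/-- (A5) PROOF. (A4) with `ι = Empty` (divide `p` by its leading coefficient): `Z = span S ⊔ Y`. -/
def PolyFdProp : Prop :=
  ∀ (k : Type u) [Field k] (X : Type u) [AddCommGroup X] [Module k X] (ι : Type) [Finite ι]
    (φ : ι → Module.End k X) (Y Z : Submodule k X), Stab φ Y → CommMod φ Y Z →
    (∃ S : Finset X, gen φ (S : Set X) ⊔ Y = Z) →
    (∀ i, ∃ p : Polynomial k, p ≠ 0 ∧ ∀ x ∈ Z, Polynomial.aeval (φ i) p x ∈ Y) → FC Y Z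

/-! ## B. Modules on which `f (u_t, v_t) = 0` -/

/-- (B1) PROOF. Put `σ i = a i + b i`, `a_t = ∑ t i a i`, `σ_t = ∑ t i σ i`, so `b_t = σ_t - a_t`.
(i) Expanding `(σ_t - a_t) ^ (m-j)` by the binomial formula,
`∑ j, c j a_t ^ j b_t ^ (m-j) = ∑ l ≤ m, e l σ_t ^ l a_t ^ (m-l)` with
`e l = ∑ j ≤ m - l, c j * (m-j).choose l * (-1) ^ (m-j-l)` independent of `t`. Not all `e l` are
zero: otherwise `∑ j, c j T ^ j (1 - T) ^ (m-j) = 0` in `k[T]`; for the least `j` with `c j ≠ 0`,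
divide by `T ^ j` and put `T = 0`. Let `ε` be the least `l` with `e l ≠ 0` and
`G (S, U) = ∑_{l=ε}^m e l S ^ (l-ε) U ^ (m-l)`. So `σ_t ^ ε G (σ_t, a_t) X ⊆ Y` for all `t`.
(ii) Fix `i, j` and `x : X`. Let `t = e_i + λ e_j`, `λ ∈ k`. As polynomials in `λ` with coefficients
commuting operators: `(σ i + λ σ j) ^ ε * P(λ)`, `P(λ) = ∑_l λ ^ l P_l`, `P_0 = G (σ i, a i)`. The
values at all `λ` of the infinite field `k` map `x` into `Y`, hence so do all the coefficients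
(Vandermonde, in `X / Y`). CLAIM: there is `N` with `σ j ^ N P_l X ⊆ Y` for all `l`. By induction on
`ε` it suffices to show: if all the coefficients of `(σ i + λ σ j) R(λ)` map `X` into `Y` then
`σ j ^ N` times all the coefficients of `R` do; the coefficient of `λ ^ (l+1)` is
`σ i R_(l+1) + σ j R_l`, descending induction on `l`.
(A possible implementation: the commutative ring `A = Algebra.adjoin k (all operators on X / Y)` and
polynomials `A[λ]`.)
(iii) So there is `q` with `σ j ^ q G (σ i, a i) X ⊆ Y` for all `i, j`. Let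
`X₀ = Y ⊔ ⨆ i, range (G (σ i, a i))`. It is stable, `σ j ^ q X₀ ⊆ Y`.
(iv) Modulo `X₀`: `G (σ i, a i) = 0`, i.e. `e ε • a i ^ (m-ε) = - ∑_{l>ε} e l σ i ^ (l-ε) a i ^ (m-l)`, so
(A4) with `φ = σ`, `ψ = a` (note `gen (a, b) S ≤ gen (σ, a) S` because `b = σ - a`). -/
def LinesProp : Prop :=
  ∀ (k : Type u) [Field k] [Infinite k] (X : Type u) [AddCommGroup X] [Module k X] (n : ℕ)
    (a b : Fin n → Module.End k X) (Y : Submodule k X) (m : ℕ) (c : ℕ → k),
    (∀ i j, Commute (a i) (a j)) → (∀ i j, Commute (b i) (b j)) → (∀ i j, Commute (a i) (b j)) →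
    (∃ i ≤ m, c i ≠ 0) → Stab (Sum.elim a b) Y →
    (∃ S : Finset X, gen (Sum.elim a b) (S : Set X) ⊔ Y = ⊤) →
    (∀ (t : Fin n → k) (x : X), ∑ j ∈ Finset.range (m + 1),
      c j • (((∑ i, t i • a i) ^ j * (∑ i, t i • b i) ^ (m - j)) x) ∈ Y) →
    ∃ (X₀ : Submodule k X) (q : ℕ), Y ≤ X₀ ∧ Stab (Sum.elim a b) X₀ ∧
      (∀ i, ∀ x ∈ X₀, ((a i + b i) ^ q) x ∈ Y) ∧
      ∃ S : Finset X, gen (fun i => a i + b i) (S : Set X) ⊔ X₀ = ⊤

/-- (B2) Closedness. PROOF. (1) `B₀ = B ⊓ X₀` has `FC W B₀`: (A1) gives `B₀ = gen σ S ⊔ W`, and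
(A5) with `p = T ^ q`. So `B₀ ≤ W ⊔ span (finite set)`.
(2) There is `D₁`, stable under `σ, ν`, `W ≤ D₁`, `FC D₁ ⊤`, with `ζ ∉ B ⊔ (D₁ ⊓ X₀)`.
If `ζ ∉ B ⊔ X₀` take `D₁ = ⊤`. Otherwise `ζ = b + ζ₀`, `b ∈ B`, `ζ₀ ∈ X₀`, `ζ₀ ∉ B`. Choose `D₁` with
`D₁ ⊓ (B₀ ⊔ span {ζ₀}) ≤ W`: lemma: for a finite set `F` there is a stable `D₁ ≥ W` of finite
codimension with `D₁ ⊓ (W ⊔ span F) ≤ W`; induction on the dimension of `(D₁ ⊓ (W ⊔ span F)) / W`
(finite): if it is nonzero pick `x` in `D₁ ⊓ (W ⊔ span F)`, not in `W`, and replace `D₁` by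
`D₁ ⊓ D`, `D` from (A2) for `(σ, ν)` with `U = W`, `Z = ⊤` and this `x`.
If `ζ = b' + d` with `b' ∈ B`, `d ∈ D₁ ⊓ X₀` then `ζ₀ - d = b' - b ∈ B ⊓ X₀ = B₀`, so
`d ∈ D₁ ⊓ (B₀ ⊔ span {ζ₀}) ≤ W ≤ B`, hence `ζ₀ ∈ B`, a contradiction.
(3) Put `Y = D₁ ⊓ X₀`. Then `gen σ S' ⊔ Y = ⊤` for a finite `S'`: `⊤ = gen σ S ⊔ X₀` and
`X₀ ≤ Y ⊔ span (finite set)` because `FC D₁ ⊤` (`X₀ / (D₁ ⊓ X₀)` embeds in `X / D₁`).
(4) (A2) for `σ`, with `Y`, `Z = ⊤`, `U = B ⊔ Y`, `x = ζ`: a `σ`-stable `C ≥ B ⊔ Y` of finite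
codimension, `ζ ∉ C`.
(5) (A3) for `σ`, `Y`, `C` gives `D`, stable under `σ` and `ν` (they commute with `σ` and preserve
`Y`); `D ≤ C`, so `ζ ∉ B ⊔ D`. -/
def ClosedProp : Prop :=
  ∀ (k : Type u) [Field k] (X : Type u) [AddCommGroup X] [Module k X] (n : ℕ)
    (σ ν : Fin n → Module.End k X) (W X₀ B : Submodule k X) (q : ℕ) (ζ : X),
    (∀ i j, Commute (σ i) (σ j)) → (∀ i j, Commute (ν i) (ν j)) → (∀ i j, Commute (σ i) (ν j)) →
    Stab (Sum.elim σ ν) W → Stab (Sum.elim σ ν) X₀ → W ≤ X₀ → W ≤ B → Stab σ B →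
    (∃ S : Finset X, gen (Sum.elim σ ν) (S : Set X) ⊔ W = ⊤) →
    (∃ S : Finset X, gen σ (S : Set X) ⊔ W = B) →
    (∃ S : Finset X, gen σ (S : Set X) ⊔ X₀ = ⊤) →
    (∀ i, ∀ x ∈ X₀, (σ i ^ q) x ∈ W) → ζ ∉ B →
    ∃ D : Submodule k X, W ≤ D ∧ Stab (Sum.elim σ ν) D ∧ FC D ⊤ ∧ ζ ∉ B ⊔ D

/-- (B3) PROOF. Let `s, t` be the (commuting) endomorphisms of the finite dimensional space
`Q = (M ⊗ M) / D` induced by `x ⊗ 1 + 1 ⊗ x` and `x ⊗ x`. With `[a, b]` = class of `a ⊗ b`: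
`[x (x a), b] = s [x a, b] - t [a, b]`. Define `P_0 = 0, Q_0 = 1, P_1 = 1, Q_1 = 0`,
`P_(j+2) = s P_(j+1) - t P_j`, `Q_(j+2) = s Q_(j+1) - t Q_j` in `End Q`; then
`[x ^ j a, b] = P_j [x a, b] + Q_j [a, b]`. The vectors `(P_j, Q_j)` in the finite dimensional space
`End Q × End Q` are linearly dependent: `∑ c_j P_j = 0 = ∑ c_j Q_j`; take `p = ∑ c_j T ^ j`. -/
def RecProp : Prop :=
  ∀ (k : Type u) [Field k] (M : Type u) [AddCommGroup M] [Module k M] (x : Module.End k M)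
    (D : Submodule k (M ⊗[k] M)), FC D ⊤ →
    (∀ w ∈ D, (LinearMap.rTensor M x + LinearMap.lTensor M x) w ∈ D) →
    (∀ w ∈ D, (LinearMap.rTensor M x * LinearMap.lTensor M x) w ∈ D) →
    ∃ p : Polynomial k, p ≠ 0 ∧ ∀ a b : M, (Polynomial.aeval x p a) ⊗ₜ[k] b ∈ D

/-- (B4) PROOF. Take `{s ⊗ s' : s, s' ∈ S}`; the set of the `a` with `a ⊗ s' ∈ gen` for all
`s' ∈ S` is a stable subspace containing `S`, so it is everything; then the set of the `b` with
`a ⊗ b ∈ gen` for all `a` is a stable subspace containing `S`. -/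
def TensorGenProp : Prop :=
  ∀ (k : Type u) [Field k] (M : Type u) [AddCommGroup M] [Module k M] (n : ℕ)
    (x : Fin n → Module.End k M), (∃ S : Finset M, gen x (S : Set M) = ⊤) →
    ∃ S : Finset (M ⊗[k] M), gen (Sum.elim (fun i => LinearMap.rTensor M (x i))
      (fun i => LinearMap.lTensor M (x i))) (S : Set (M ⊗[k] M)) = ⊤

/-- (B5) The abstract theorem. PROOF. `X = M ⊗ M`, `a i = rTensor (x i)`, `b i = lTensor (x i)`,
`σ i = a i + b i`, `ν i = a i * b i`; all commute. Let `J` be the largest `(a, b)`-stable subspace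
contained in `W`: `J = sSup {Y | Stab (a, b) Y ∧ Y ≤ W}`. By `hI` the
space `⨆ t, range (f (a_t, b_t))` is `(a, b)`-stable and contained in `W`, so it is in `J`, and (B1)
applies with `Y = J` ((B4) for the generation): it gives `X₁ ≥ J` and `q`. Put `X₀ = X₁ ⊔ W`: stable
under `σ, ν`; `σ i ^ q X₀ ⊆ W`; `gen σ S ⊔ X₀ = ⊤`. Next `X` is generated by a finite set under
`(σ, ν)`: (B4) and (A4) with `φ = (σ, ν)` (on `Fin n ⊕ Fin n`), `ψ = a`,
`a i ^ 2 = σ i * a i - ν i`, `Y = ⊥`. (B2) gives `D`; (B3) gives `p i` for `D` and each `i`; the span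
in the conclusion is contained in `D`. -/
def AbsProp : Prop :=
  ∀ (k : Type u) [Field k] [Infinite k] (M : Type u) [AddCommGroup M] [Module k M] (n : ℕ)
    (x : Fin n → Module.End k M) (W B : Submodule k (M ⊗[k] M)) (m : ℕ) (c : ℕ → k)
    (ζ : M ⊗[k] M), (∀ i j, Commute (x i) (x j)) → (∃ S : Finset M, gen x (S : Set M) = ⊤) →
    (∀ i, ∀ w ∈ W, (LinearMap.rTensor M (x i) + LinearMap.lTensor M (x i)) w ∈ W) →
    (∀ i, ∀ w ∈ W, (LinearMap.rTensor M (x i) * LinearMap.lTensor M (x i)) w ∈ W) →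
    (∃ i ≤ m, c i ≠ 0) →
    (∀ (t : Fin n → k) (a b : M), ∑ j ∈ Finset.range (m + 1),
      c j • (((∑ i, t i • x i) ^ j) a ⊗ₜ[k] ((∑ i, t i • x i) ^ (m - j)) b) ∈ W) →
    W ≤ B → (∀ i, ∀ w ∈ B, (LinearMap.rTensor M (x i) + LinearMap.lTensor M (x i)) w ∈ B) →
    (∃ S : Finset (M ⊗[k] M), gen (fun i => LinearMap.rTensor M (x i) + LinearMap.lTensor M (x i))
      (S : Set (M ⊗[k] M)) ⊔ W = B) →
    ζ ∉ B →
    ∃ p : Fin n → Polynomial k, (∀ i, p i ≠ 0) ∧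
      ζ ∉ B ⊔ Submodule.span k {w | ∃ (i : Fin n) (a b : M), w = (Polynomial.aeval (x i) (p i) a) ⊗ₜ[k] b}

/-! ## C. Lie algebras -/

section Lie

/-- The operator `z ↦ ⁅z, y⁆`. -/
def adr (k : Type u) [Field k] {P : Type u} [LieRing P] [LieAlgebra k P] (y : P) :
    Module.End k P where
  toFun z := ⁅z, y⁆
  map_add' a b := add_lie a b y
  map_smul' c a := smul_lie c a y

/-- The derived algebra. -/
abbrev D1 (k : Type u) [Field k] (P : Type u) [LieRing P] [LieAlgebra k P] : LieIdeal k P :=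
  ⁅(⊤ : LieIdeal k P), (⊤ : LieIdeal k P)⁆

/-- The second derived algebra. -/
abbrev D2 (k : Type u) [Field k] (P : Type u) [LieRing P] [LieAlgebra k P] : LieIdeal k P :=
  ⁅D1 k P, D1 k P⁆

/-- (C1a) A subspace stable under the brackets with generators is an ideal. PROOF. The set of the `z`
with `⁅Y, z⁆ ⊆ Y` is a Lie subalgebra (Jacobi) containing the generators. -/
def StabIdealProp : Prop :=
  ∀ (k : Type u) [Field k] (P : Type u) [LieRing P] [LieAlgebra k P] (n : ℕ) (x : Fin n → P),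
    LieSubalgebra.lieSpan k P (Set.range x) = ⊤ → ∀ Y : Submodule k P,
    Stab (fun i => adr k (x i)) Y → ∀ y ∈ Y, ∀ z : P, ⁅y, z⁆ ∈ Y

/-- (C1b) Ideals of finite codimension of a finitely generated Lie algebra are finitely generated as
ideals. PROOF. Choose a finite dimensional subspace `V` containing the `x i` with `V + I = P`, and
linear maps `w i : V → V` with `⁅v, x i⁆ - w i v ∈ I`. Let `J` be the ideal generated by finite
spanning sets of `V ∩ I` and of `{⁅v, x i⁆ - w i v}`; `J ≤ I`. Then `V + J` is stable under the brackets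
with the `x i`, hence an ideal by (C1a), and it contains the `x i`; a subspace which is an ideal and
contains the generators is everything (it is a Lie subalgebra). So `I = J + (V ∩ I) = J`. -/
def CofFgProp : Prop :=
  ∀ (k : Type u) [Field k] (P : Type u) [LieRing P] [LieAlgebra k P] (n : ℕ) (x : Fin n → P),
    LieSubalgebra.lieSpan k P (Set.range x) = ⊤ → ∀ I : LieIdeal k P, FC I.toSubmodule ⊤ →
    ∃ S : Finset P, LieSubmodule.lieSpan k P (S : Set P) = I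

/-- (C1c) PROOF. `K` = ideal generated by the finite set `S`, `V` = span of `S`. Let `J` be the ideal
generated by a finite spanning set of `V ∩ D1` and the `⁅s, x i⁆`, `s ∈ S`. `V + J` is stable under the
brackets with the `x i`, so it is an ideal (C1a), and `K = V + J`, `K ⊓ D1 = J + (V ∩ D1) = J`. -/
def InterFgProp : Prop :=
  ∀ (k : Type u) [Field k] (P : Type u) [LieRing P] [LieAlgebra k P] (n : ℕ) (x : Fin n → P),
    LieSubalgebra.lieSpan k P (Set.range x) = ⊤ → ∀ K : LieIdeal k P,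
    (∃ S : Finset P, LieSubmodule.lieSpan k P (S : Set P) = K) →
    ∃ S : Finset P, LieSubmodule.lieSpan k P (S : Set P) = K ⊓ D1 k P

/-- (C1d) The derived algebra of a finitely generated Lie algebra has finite codimension. PROOF.
`span (x i) + D1` is a Lie subalgebra containing the generators. -/
def DerFcProp : Prop :=
  ∀ (k : Type u) [Field k] (P : Type u) [LieRing P] [LieAlgebra k P] (n : ℕ) (x : Fin n → P),
    LieSubalgebra.lieSpan k P (Set.range x) = ⊤ → FC (D1 k P).toSubmodule ⊤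

/-- (C1e) An ideal generated by a finite set `S` is, as a subspace, generated by `S` under the
operators `⁅·, x i⁆`. PROOF. `gen (adr (x i)) S` is an ideal by (C1a). -/
def IdealGenProp : Prop :=
  ∀ (k : Type u) [Field k] (P : Type u) [LieRing P] [LieAlgebra k P] (n : ℕ) (x : Fin n → P),
    LieSubalgebra.lieSpan k P (Set.range x) = ⊤ → ∀ S : Set P,
    (LieSubmodule.lieSpan k P S).toSubmodule = gen (fun i => adr k (x i)) S

/-- (C2) PROOF. If `ζ ∉ I` take `D = I`. Otherwise `I` is finitely generated as an ideal (C1b), so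
`I = gen (adr (x i)) S` for a finite `S` (C1e). On `Z = I` the operators `adr (x i)` commute modulo
`Y = ⁅I, D1⁆` (Jacobi: `⁅⁅z, x j⁆, x i⁆ - ⁅⁅z, x i⁆, x j⁆ = ⁅z, ⁅x j, x i⁆⁆`). (A2) with `U = Y`, `x = ζ`
gives a stable `D`, `Y ≤ D ≤ I`, `ζ ∉ D`, of finite codimension in `I`, hence in `P`; it is an
ideal by (C1a). -/
def SepProp : Prop :=
  ∀ (k : Type u) [Field k] (P : Type u) [LieRing P] [LieAlgebra k P] (n : ℕ) (x : Fin n → P),
    LieSubalgebra.lieSpan k P (Set.range x) = ⊤ → ∀ (I : LieIdeal k P) (ζ : P),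
    FC I.toSubmodule ⊤ → ζ ∉ (⁅I, D1 k P⁆ : LieIdeal k P) →
    ∃ D : LieIdeal k P, FC D.toSubmodule ⊤ ∧ ζ ∉ D

/-- `E` has the norm property for `y`: `∑ ⁅a j, b j⁆ = 0` implies `∑ ⁅⁅a j, y⁆, ⁅b j, y⁆⁆ = 0` for `a j, b j` in
the derived algebra. -/
def NormRel (k : Type u) [Field k] {E : Type u} [LieRing E] [LieAlgebra k E] (y : E) : Prop :=
  ∀ (N : ℕ) (a b : Fin N → E), (∀ j, a j ∈ D1 k E) → (∀ j, b j ∈ D1 k E) →
    ∑ j, ⁅a j, b j⁆ = 0 → ∑ j, ⁅⁅a j, y⁆, ⁅b j, y⁆⁆ = 0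

/-- (C3) PROOF. CLAIM: `θ a - a - ⁅a, x i⁆ ∈ D2` for all `a ∈ D1`. The set `C` of the `a ∈ D1` with this
property is a subspace; `⁅x j, x l⁆ ∈ C` by Jacobi; if `a ∈ C` then `⁅a, x l⁆ ∈ C`
(`θ ⁅a, x l⁆ = ⁅θ a, x l + ⁅x l, x i⁆⁆ ≡ ⁅a, x l⁆ + ⁅⁅a, x i⁆, x l⁆` and `⁅⁅a, x l⁆, x i⁆ ≡ ⁅⁅a, x i⁆, x l⁆` modulo
`D2`). So `C` is an ideal (C1a) containing all `⁅x j, x l⁆`, hence `C = D1` (modulo such an ideal the
generators commute). Now let `∑ ⁅a j, b j⁆ = 0`. Apply `θ`: since `D2` commutes with `D1`,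
`0 = ∑ ⁅a j + ⁅a j, x i⁆, b j + ⁅b j, x i⁆⁆ = ∑ ⁅a j, b j⁆ + ⁅∑ ⁅a j, b j⁆, x i⁆ + ∑ ⁅⁅a j, x i⁆, ⁅b j, x i⁆⁆`. -/
def NormProp : Prop :=
  ∀ (k : Type u) [Field k] (F : Type u) [LieRing F] [LieAlgebra k F] (n : ℕ) (x : Fin n → F),
    LieSubalgebra.lieSpan k F (Set.range x) = ⊤ →
    (∀ a ∈ D2 k F, ∀ b ∈ D1 k F, ⁅a, b⁆ = 0) → ∀ (i : Fin n) (θ : F →ₗ⁅k⁆ F),
    (∀ j, θ (x j) = x j + ⁅x j, x i⁆) → NormRel k (x i)

/-- (C5) PROOF. Let `Z = {a ∈ D1 | ∀ b ∈ D1, ⁅a, b⁆ = 0}` (a subspace of `↥(D1 k E)`, containing `D2`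
and `K`), `M = ↥(D1 k E) ⧸ Z`, `x i : M → M` induced by `⁅·, x i⁆` (they commute because
`⁅a, ⁅x j, x i⁆⁆ ∈ D2`), and `β : M ⊗ M → E` linear with `β (a ⊗ b) = ⁅a, b⁆`, with image `D2`. Let `W = ker β`:
it is stable under `x ⊗ 1 + 1 ⊗ x` (`β ((x ⊗ 1 + 1 ⊗ x) w) = ⁅β w, x i⁆`, derivation) and under `x ⊗ x` by
`NormRel` (every element of `M ⊗ M` is a finite sum of `a j ⊗ b j`). Let `B = β ⁻¹ (K)`: stable under
`σ i = x i ⊗ 1 + 1 ⊗ x i`. `B = gen σ S ⊔ W`: `K` is generated by a finite set under the operators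
`adr (x i)` (C1e), which commute on `K` because `⁅K, D1⁆ = 0`; `K ⊓ D2` is a stable subspace, so by (A1)
(`Y = ⊥`, `Z = K`) it is generated by a finite set; take preimages in `M ⊗ M`. `M` is generated by a
finite set under the `x i`: `D1` is finitely generated as an ideal (C1b, C1d, C1e). The identity (I) for
`y = ∑ t i x i`: `(y-bracket) ^ j` on `M` is `(∑ t i x i) ^ j`. `ζ = β z`, `z ∉ B`. (B5) gives `p i`. Let
`I` = `D2 + K + Z' + ∑ i, p i (adr (x i)) D1` where `Z'` = the elements of `D1` commuting with `D1` (so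
`I` = `Z' + ∑ p i (adr (x i)) D1`). It is stable under the `adr (x i)`, because these commute modulo
`D2 ≤ Z'` on `D1`; so it is an ideal (C1a). `FC I D1` by (A5) (`X = E`, `Y = I`, `Z = D1`), and `FC D1 ⊤`,
so `FC I ⊤`. Finally `ζ ∉ ⁅I, D1⁆ ⊔ K`: an element of `⁅I, D1⁆` is `β w` with
`w ∈ span {p i (x i) a ⊗ b}`; if `β z = β w + κ` with `κ ∈ K` then `z - w ∈ B`, contradiction. -/
def McProp : Prop :=
  ∀ (k : Type u) [Field k] [Infinite k] (E : Type u) [LieRing E] [LieAlgebra k E] (n : ℕ)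
    (x : Fin n → E) (K : LieIdeal k E) (m : ℕ) (c : ℕ → k) (ζ : E),
    LieSubalgebra.lieSpan k E (Set.range x) = ⊤ →
    (∀ a ∈ D2 k E, ∀ b ∈ D1 k E, ⁅a, b⁆ = 0) → (∀ i, NormRel k (x i)) →
    (∃ i ≤ m, c i ≠ 0) →
    (∀ a b y : E, ∑ i ∈ Finset.range (m + 1),
      c i • ⁅(fun l => ⁅l, y⁆)^[i] a, (fun l => ⁅l, y⁆)^[m - i] b⁆ = 0) →
    K ≤ D1 k E → (∀ a ∈ K, ∀ b ∈ D1 k E, ⁅a, b⁆ = 0) →
    (∃ S : Finset E, LieSubmodule.lieSpan k E (S : Set E) = K) →
    ζ ∈ D2 k E → ζ ∉ K →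
    ∃ I : LieIdeal k E, FC I.toSubmodule ⊤ ∧ ζ ∉ (⁅I, D1 k E⁆ ⊔ K : LieIdeal k E)

/-- (C6) PROOF. If `ζ ∉ K ⊔ D1` take `I = K ⊔ D1` (C1d). Otherwise subtract an element of `K`: we may
assume `ζ ∈ D1`, `ζ ∉ K`. Let `P = F / K`. If the image of `ζ` is not in `D2 P`, apply (C2) to `P` and
`I = D1 P` (finite codimension by C1d), and pull back `D`. Otherwise subtract an element of `K` again:
`ζ ∈ D2 F`, `ζ ∉ K`. Let `K' = K ⊓ D1`, finitely generated by (C1c), and `E = F / ⁅K', D1⁆`. `E`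
satisfies the hypotheses of (C5) with `K_E` = image of `K'`: for `NormRel`: if `∑ ⁅a j, b j⁆ = 0` in
`E`, lift `a j, b j` to `D1 F`; `∑ ⁅a j, b j⁆ = ∑ ⁅κ l, c l⁆` with `κ l ∈ K'`, `c l ∈ D1`; by `NormRel` in `F`
`∑ ⁅⁅a j, y⁆, ⁅b j, y⁆⁆ = ∑ ⁅⁅κ l, y⁆, ⁅c l, y⁆⁆ ∈ ⁅K', D1⁆`. The image of `ζ` is not in `K_E` because
`⁅K', D1⁆ ≤ K'`. (C5) gives `I_E`; let `I_F` be its preimage in `F`: `ζ ∉ ⁅I_F, D1⁆ ⊔ K'`. Let `I_P` be the
image of `I_F` in `P`. If the image of `ζ` were in `⁅I_P, D1 P⁆`, then `ζ = w + κ` with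
`w ∈ ⁅I_F, D1⁆`, `κ ∈ K`, and `κ ∈ K ⊓ D1 = K'`, a contradiction. (C2) for `P`, `I_P` gives an ideal of
finite codimension of `P` not containing the image of `ζ`; pull it back. -/
def LieMainProp : Prop :=
  ∀ (k : Type u) [Field k] [Infinite k] (F : Type u) [LieRing F] [LieAlgebra k F] (n : ℕ)
    (x : Fin n → F) (K : LieIdeal k F) (m : ℕ) (c : ℕ → k) (ζ : F),
    LieSubalgebra.lieSpan k F (Set.range x) = ⊤ →
    (∀ a ∈ D2 k F, ∀ b ∈ D1 k F, ⁅a, b⁆ = 0) → (∀ i, NormRel k (x i)) →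
    (∃ i ≤ m, c i ≠ 0) →
    (∀ a b y : F, ∑ i ∈ Finset.range (m + 1),
      c i • ⁅(fun l => ⁅l, y⁆)^[i] a, (fun l => ⁅l, y⁆)^[m - i] b⁆ = 0) →
    (∃ S : Finset F, LieSubmodule.lieSpan k F (S : Set F) = K) → ζ ∉ K →
    ∃ I : LieIdeal k F, K ≤ I ∧ FC I.toSubmodule ⊤ ∧ ζ ∉ I

end Lie

end Pool.Agent.Lib.MP_240c17_al.Two
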