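import Pool.Agent.Lib.MP_240c17_al.Func
import Pool.Agent.Lib.MP_240c17_al.Fin
import Pool.Agent.Lib.MP_240c17_al.Two.Spec

/-!
Relatively free algebras: generators, universal property.
-/

set_option autoImplicit false

namespace Pool.Agent.Lib.MP_240c17_al.Two

universe u

variable {k : Type u} [Field k]

open Pool.Agent.Lib.MP_240c17_al

/-- Factorization of a homomorphism through a quotient by an ideal. -/
theorem relFree_factor {L P : Type u} [LieRing L] [LieAlgebra k L] [LieRing P] [LieAlgebra k P]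
    (I : LieIdeal k L) (f : L →ₗ⁅k⁆ P) (h : I ≤ f.ker) :
    ∃ g : (L ⧸ I) →ₗ⁅k⁆ P, ∀ x, g (qMk I x) = f x := by
  have h1 : I.toSubmodule ≤ LinearMap.ker (f : L →ₗ[k] P) := by
    intro x hx
    exact LieHom.mem_ker.mp (h hx)
  let g0 : (L ⧸ I) →ₗ[k] P := I.toSubmodule.liftQ (f : L →ₗ[k] P) h1
  have hg0 : ∀ x, g0 (qMk I x) = f x := fun x => rfl
  refine ⟨{ g0 with map_lie' := ?_ }, fun x => hg0 x⟩
  intro a b
  obtain ⟨a, rfl⟩ := qMk_surjective I a
  obtain ⟨b, rfl⟩ := qMk_surjective I b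
  show g0 ⁅qMk I a, qMk I b⁆ = ⁅g0 (qMk I a), g0 (qMk I b)⁆
  rw [← LieHom.map_lie, hg0, hg0, hg0, LieHom.map_lie]

theorem relFree_inVariety_of_surjective {L P : Type u} [LieRing L] [LieAlgebra k L] [LieRing P]
    [LieAlgebra k P] {Id : Set (FreeLieAlgebra k ℕ)} (f : L →ₗ⁅k⁆ P)
    (hf : Function.Surjective f) (h : InVariety Id L) : InVariety Id P := by
  intro g hg ρ
  choose r hr using hf
  have h1 : FreeLieAlgebra.lift k ρ = f.comp (FreeLieAlgebra.lift k fun i => r (ρ i)) := by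
    apply FreeLieAlgebra.hom_ext
    intro i
    simp [hr]
  rw [h1, LieHom.comp_apply, h g hg, map_zero]

/-- The relatively free algebra belongs to the variety. -/
theorem relFree_mem (Id : Set (FreeLieAlgebra k ℕ)) (n : ℕ) :
    InVariety Id (FreeLieAlgebra k (Fin n) ⧸ verbalIdeal Id n) := by
  intro g hg ρ
  choose r hr using qMk_surjective (verbalIdeal Id n)
  have h1 : FreeLieAlgebra.lift k ρ =
      (qMk (verbalIdeal Id n)).comp (FreeLieAlgebra.lift k fun i => r (ρ i)) := by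
    apply FreeLieAlgebra.hom_ext
    intro i
    simp [hr]
  rw [h1, LieHom.comp_apply, qMk_eq_zero]
  exact LieSubmodule.subset_lieSpan ⟨g, hg, _, rfl⟩

/-- Universal property. -/
theorem relFree_lift (Id : Set (FreeLieAlgebra k ℕ)) (n : ℕ) {L : Type u} [LieRing L]
    [LieAlgebra k L] (hL : InVariety Id L) (η : Fin n → L) :
    ∃ θ : (FreeLieAlgebra k (Fin n) ⧸ verbalIdeal Id n) →ₗ⁅k⁆ L,
      ∀ i, θ (qMk (verbalIdeal Id n) (FreeLieAlgebra.of k i)) = η i := by
  have h1 : verbalIdeal Id n ≤ (FreeLieAlgebra.lift k η).ker := by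
    unfold verbalIdeal
    rw [LieSubmodule.lieSpan_le]
    rintro w ⟨g, hg, ρ, rfl⟩
    show FreeLieAlgebra.lift k ρ g ∈ (FreeLieAlgebra.lift k η).ker
    rw [LieHom.mem_ker, ← LieHom.comp_apply]
    have h2 : (FreeLieAlgebra.lift k η).comp (FreeLieAlgebra.lift k ρ) =
        FreeLieAlgebra.lift k (fun i => FreeLieAlgebra.lift k η (ρ i)) := by
      apply FreeLieAlgebra.hom_ext
      intro i
      simp
    rw [h2]
    exact hL g hg _
  obtain ⟨θ, hθ⟩ := relFree_factor (verbalIdeal Id n) (FreeLieAlgebra.lift k η) h1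
  refine ⟨θ, fun i => ?_⟩
  rw [hθ, FreeLieAlgebra.lift_of_apply]

/-- The relatively free algebra is generated by the images of the free generators. -/
theorem relFree_gen (Id : Set (FreeLieAlgebra k ℕ)) (n : ℕ) :
    LieSubalgebra.lieSpan k (FreeLieAlgebra k (Fin n) ⧸ verbalIdeal Id n)
      (Set.range fun i => qMk (verbalIdeal Id n) (FreeLieAlgebra.of k i)) = ⊤ := by
  rw [eq_top_iff]
  intro q _
  obtain ⟨w, rfl⟩ := qMk_surjective (verbalIdeal Id n) q
  have h1 : qMk (verbalIdeal Id n) w =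
      FreeLieAlgebra.lift k (fun i => qMk (verbalIdeal Id n) (FreeLieAlgebra.of k i)) w := by
    have : qMk (verbalIdeal Id n) =
        FreeLieAlgebra.lift k (fun i => qMk (verbalIdeal Id n) (FreeLieAlgebra.of k i)) := by
      apply FreeLieAlgebra.hom_ext
      intro i
      simp
    rw [← this]
  rw [h1]
  refine lift_mem (LieSubalgebra.lieSpan k _ (Set.range fun i =>
    qMk (verbalIdeal Id n) (FreeLieAlgebra.of k i))) _ ?_ w
  intro i
  exact LieSubalgebra.subset_lieSpan (Set.mem_range_self i)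

end Pool.Agent.Lib.MP_240c17_al.Two
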