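import Pool.Agent.Lib.MP_240c17_al.Two.Spec

/-!
MP_240c17_al, classification inside the variety N₂A: (B5) the abstract theorem (helper3).
-/

set_option autoImplicit false

namespace Pool.Agent.Lib.MP_240c17_al.Two

universe u

open TensorProduct

private theorem abs_stab_sSup {k : Type u} [Field k] {X : Type u} [AddCommGroup X] [Module k X]
    {ι : Type} (φ : ι → Module.End k X) (T : Set (Submodule k X)) (h : ∀ Y ∈ T, Stab φ Y) :
    Stab φ (sSup T) := by
  intro i y hy
  have h1 : sSup T ≤ (sSup T).comap (φ i) := by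
    refine sSup_le (fun Y hY => ?_)
    intro z hz
    exact (le_sSup hY : Y ≤ sSup T) (h Y hY i z hz)
  exact h1 hy

private theorem abs_stab_range {k : Type u} [Field k] {X : Type u} [AddCommGroup X] [Module k X]
    {ι : Type} (φ : ι → Module.End k X) (g : Module.End k X) (h : ∀ i, Commute (φ i) g) :
    Stab φ (LinearMap.range g) := by
  rintro i y ⟨z, rfl⟩
  refine ⟨φ i z, ?_⟩
  have := LinearMap.congr_fun (h i).eq z
  exact this.symm

theorem abs_ (h4 : IntegralProp.{u}) (b1 : LinesProp.{u}) (b2 : ClosedProp.{u})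
    (b3 : RecProp.{u}) (b4 : TensorGenProp.{u}) : AbsProp.{u} := by
  classical
  intro k _ _ M _ _ n x W B m c ζ hcomm hgen hWσ hWν hc hI hWB hBσ hBgen hζ
  -- the operators
  set a : Fin n → Module.End k (M ⊗[k] M) := fun i => LinearMap.rTensor M (x i) with ha
  set b : Fin n → Module.End k (M ⊗[k] M) := fun i => LinearMap.lTensor M (x i) with hb
  set σ : Fin n → Module.End k (M ⊗[k] M) := fun i => a i + b i with hσ
  set ν : Fin n → Module.End k (M ⊗[k] M) := fun i => a i * b i with hν
  have caa : ∀ i j, Commute (a i) (a j) := by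
    intro i j
    show LinearMap.rTensor M (x i) * LinearMap.rTensor M (x j) =
      LinearMap.rTensor M (x j) * LinearMap.rTensor M (x i)
    rw [← LinearMap.rTensor_mul, ← LinearMap.rTensor_mul, (hcomm i j).eq]
  have cbb : ∀ i j, Commute (b i) (b j) := by
    intro i j
    show LinearMap.lTensor M (x i) * LinearMap.lTensor M (x j) =
      LinearMap.lTensor M (x j) * LinearMap.lTensor M (x i)
    rw [← LinearMap.lTensor_mul, ← LinearMap.lTensor_mul, (hcomm i j).eq]
  have cab : ∀ i j, Commute (a i) (b j) := by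
    intro i j
    show LinearMap.rTensor M (x i) ∘ₗ LinearMap.lTensor M (x j) =
      LinearMap.lTensor M (x j) ∘ₗ LinearMap.rTensor M (x i)
    rw [LinearMap.rTensor_comp_lTensor, LinearMap.lTensor_comp_rTensor]
  have cba : ∀ i j, Commute (b i) (a j) := fun i j => (cab j i).symm
  have cσa : ∀ i j, Commute (σ i) (a j) := fun i j => (caa i j).add_left (cba i j)
  have cσb : ∀ i j, Commute (σ i) (b j) := fun i j => (cab i j).add_left (cbb i j)
  have cνa : ∀ i j, Commute (ν i) (a j) := fun i j => (caa i j).mul_left (cba i j)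
  have cνb : ∀ i j, Commute (ν i) (b j) := fun i j => (cab i j).mul_left (cbb i j)
  have cσσ : ∀ i j, Commute (σ i) (σ j) := fun i j => (cσa i j).add_right (cσb i j)
  have cνν : ∀ i j, Commute (ν i) (ν j) := fun i j => (cνa i j).mul_right (cνb i j)
  have cσν : ∀ i j, Commute (σ i) (ν j) := fun i j => (cσa i j).mul_right (cσb i j)
  have hstab : ∀ Y : Submodule k (M ⊗[k] M), Stab (Sum.elim a b) Y → Stab (Sum.elim σ ν) Y := by
    intro Y hY
    rw [stab_elim] at hY ⊢
    refine ⟨fun i y hy => ?_, fun i y hy => ?_⟩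
    · exact Y.add_mem (hY.1 i y hy) (hY.2 i y hy)
    · exact hY.1 i _ (hY.2 i y hy)
  have hWst : Stab (Sum.elim σ ν) W := stab_elim.2 ⟨fun i => hWσ i, fun i => hWν i⟩
  -- the largest stable subspace of `W`
  set J : Submodule k (M ⊗[k] M) := sSup {Y | Stab (Sum.elim a b) Y ∧ Y ≤ W} with hJ
  have hJst : Stab (Sum.elim a b) J := abs_stab_sSup _ _ (fun Y hY => hY.1)
  have hJW : J ≤ W := sSup_le (fun Y hY => hY.2)
  -- generation
  obtain ⟨S0, hS0⟩ := b4 k M n x hgen
  have hS0' : gen (Sum.elim a b) (S0 : Set (M ⊗[k] M)) = ⊤ := hS0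
  -- the identity
  have hpure : ∀ (t : Fin n → k) (j l : ℕ) (u v : M),
      ((∑ i, t i • a i) ^ j * (∑ i, t i • b i) ^ l) (u ⊗ₜ[k] v) =
        ((∑ i, t i • x i) ^ j) u ⊗ₜ[k] ((∑ i, t i • x i) ^ l) v := by
    intro t j l u v
    have e1 : (∑ i, t i • a i) = LinearMap.rTensor M (∑ i, t i • x i) := by
      refine TensorProduct.ext' (fun u v => ?_)
      simp only [ha, LinearMap.sum_apply, LinearMap.smul_apply, LinearMap.rTensor_tmul]
      rw [TensorProduct.sum_tmul]
      simp only [TensorProduct.smul_tmul']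
    have e2 : (∑ i, t i • b i) = LinearMap.lTensor M (∑ i, t i • x i) := by
      refine TensorProduct.ext' (fun u v => ?_)
      simp only [hb, LinearMap.sum_apply, LinearMap.smul_apply, LinearMap.lTensor_tmul]
      rw [TensorProduct.tmul_sum]
      simp only [TensorProduct.tmul_smul]
    rw [e1, e2, LinearMap.rTensor_pow, LinearMap.lTensor_pow, Module.End.mul_apply,
      LinearMap.lTensor_tmul, LinearMap.rTensor_tmul]
  have hIJ : ∀ (t : Fin n → k) (z : M ⊗[k] M), ∑ j ∈ Finset.range (m + 1),
      c j • (((∑ i, t i • a i) ^ j * (∑ i, t i • b i) ^ (m - j)) z) ∈ J := by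
    intro t z
    set g : Module.End k (M ⊗[k] M) := ∑ j ∈ Finset.range (m + 1),
      c j • ((∑ i, t i • a i) ^ j * (∑ i, t i • b i) ^ (m - j)) with hg
    have hgz : ∀ z, g z = ∑ j ∈ Finset.range (m + 1),
      c j • (((∑ i, t i • a i) ^ j * (∑ i, t i • b i) ^ (m - j)) z) := by
      intro z
      rw [hg, LinearMap.sum_apply]
      rfl
    rw [← hgz z]
    have hrange : LinearMap.range g ∈ {Y | Stab (Sum.elim a b) Y ∧ Y ≤ W} := by
      constructor
      · refine abs_stab_range _ g ?_
        have key : ∀ f : Module.End k (M ⊗[k] M), (∀ i, Commute f (a i)) →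
            (∀ i, Commute f (b i)) → Commute f g := by
          intro f h1 h2
          rw [hg]
          refine Commute.sum_right _ _ _ (fun j _ => ?_)
          refine Commute.smul_right ?_ _
          refine Commute.mul_right ?_ ?_
          · exact (Commute.sum_right _ _ _ (fun i _ => (h1 i).smul_right _)).pow_right _
          · exact (Commute.sum_right _ _ _ (fun i _ => (h2 i).smul_right _)).pow_right _
        rintro (i | i)
        · exact key _ (fun j => caa i j) (fun j => cab i j)
        · exact key _ (fun j => cba i j) (fun j => cbb i j)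
      · rintro _ ⟨w, rfl⟩
        induction w using TensorProduct.induction_on with
        | zero => rw [map_zero]; exact W.zero_mem
        | tmul u v =>
          rw [hgz]
          have := hI t u v
          refine (congrArg (· ∈ W) (Finset.sum_congr rfl (fun j _ => ?_))).mpr this
          rw [hpure]
        | add u v hu hv => rw [map_add]; exact W.add_mem hu hv
    exact (le_sSup hrange : LinearMap.range g ≤ J) ⟨z, rfl⟩
  obtain ⟨X₁, q, hJX, hX₁st, hX₁q, S1, hS1⟩ := b1 k (M ⊗[k] M) n a b J m c caa cbb cab hc hJst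
    ⟨S0, by rw [hS0', top_sup_eq]⟩ hIJ
  -- the generation under `σ, ν`
  obtain ⟨S2, hS2⟩ := h4 k (M ⊗[k] M) (Fin n ⊕ Fin n) (Fin n) (Sum.elim σ ν) a ⊥ ⊤
    (stab_bot _) (by
      have hcm : ∀ f g : Module.End k (M ⊗[k] M), Commute f g → ∀ z, f (g z) - g (f z) ∈
          (⊥ : Submodule k (M ⊗[k] M)) := by
        intro f g h z
        have := LinearMap.congr_fun h.eq z
        rw [Module.End.mul_apply, Module.End.mul_apply] at this
        rw [this, sub_self]
        exact Submodule.zero_mem _
      rintro ((i | i) | i) ((j | j) | j) z _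
      · exact hcm _ _ (cσσ i j) z
      · exact hcm _ _ (cσν i j) z
      · exact hcm _ _ (cσa i j) z
      · exact hcm _ _ (cσν j i).symm z
      · exact hcm _ _ (cνν i j) z
      · exact hcm _ _ (cνa i j) z
      · exact hcm _ _ (cσa j i).symm z
      · exact hcm _ _ (cνa j i).symm z
      · exact hcm _ _ (caa i j) z)
    ⟨S0, by
      rw [sup_bot_eq, eq_top_iff, ← hS0']
      refine gen_le ?_ (subset_gen _ _)
      have hst := gen_stab (Sum.elim (Sum.elim σ ν) a) (S0 : Set (M ⊗[k] M))
      rw [stab_elim] at hst ⊢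
      obtain ⟨h1, h2⟩ := hst
      rw [stab_elim] at h1
      refine ⟨h2, fun i y hy => ?_⟩
      have e : b i y = σ i y - a i y := by
        rw [hσ, LinearMap.add_apply, add_sub_cancel_left]
      rw [e]
      exact Submodule.sub_mem _ (h1.1 i y hy) (h2 i y hy)⟩
    (by
      intro j
      refine ⟨2, fun l => if l = 0 then -ν j else σ j, fun l => ?_, fun z _ => ?_⟩
      · by_cases hl : l = 0
        · simp only [hl, if_true]
          exact Subalgebra.neg_mem _ (Algebra.subset_adjoin ⟨Sum.inr j, rfl⟩)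
        · simp only [hl, if_false]
          exact Algebra.subset_adjoin ⟨Sum.inl j, rfl⟩
      · rw [Submodule.mem_bot]
        simp only [Finset.sum_range_succ, Finset.sum_range_zero, zero_add, if_true, pow_zero,
          pow_one, one_ne_zero, if_false, Module.End.one_apply]
        have hba : b j (a j z) = a j (b j z) := LinearMap.congr_fun (cba j j).eq z
        rw [pow_two, Module.End.mul_apply, LinearMap.neg_apply, hν, hσ]
        rw [Module.End.mul_apply, LinearMap.add_apply, hba]
        abel)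
  have hX₀st : Stab (Sum.elim σ ν) (X₁ ⊔ W) := (hstab X₁ hX₁st).sup hWst
  have hσW : ∀ (i : Fin n) (q : ℕ), ∀ w ∈ W, (σ i ^ q) w ∈ W := by
    intro i q
    induction q with
    | zero => intro w hw; simpa using hw
    | succ q ih =>
      intro w hw
      rw [pow_succ', Module.End.mul_apply]
      exact hWσ i _ (ih w hw)
  obtain ⟨D, hWD, hDst, hDfc, hζD⟩ := b2 k (M ⊗[k] M) n σ ν W (X₁ ⊔ W) B q ζ cσσ cνν cσν hWst
    hX₀st le_sup_right hWB (fun i => hBσ i)
    ⟨S2, by
      rw [sup_bot_eq] at hS2
      rw [hS2, top_sup_eq]⟩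
    hBgen
    ⟨S1, by
      rw [eq_top_iff, ← hS1]
      exact sup_le_sup_left le_sup_left _⟩
    (by
      intro i z hz
      obtain ⟨z1, hz1, w, hw, rfl⟩ := Submodule.mem_sup.mp hz
      rw [map_add]
      exact W.add_mem (hJW (hX₁q i z1 hz1)) (hσW i q w hw)) hζ
  rw [stab_elim] at hDst
  have hp : ∀ i, ∃ p : Polynomial k, p ≠ 0 ∧
      ∀ u v : M, (Polynomial.aeval (x i) p u) ⊗ₜ[k] v ∈ D := fun i =>
    b3 k M (x i) D hDfc (fun w hw => hDst.1 i w hw) (fun w hw => hDst.2 i w hw)
  choose p hp0 hpD using hp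
  refine ⟨p, hp0, fun h => hζD ?_⟩
  have hle : B ⊔ Submodule.span k {w | ∃ (i : Fin n) (a b : M),
      w = (Polynomial.aeval (x i) (p i) a) ⊗ₜ[k] b} ≤ B ⊔ D := by
    refine sup_le_sup_left (Submodule.span_le.2 ?_) _
    rintro _ ⟨i, u, v, rfl⟩
    exact hpD i u v
  exact hle h

end Pool.Agent.Lib.MP_240c17_al.Two
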