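import Pool.Agent.Lib.MP_240c17_al.Necessary
import Pool.Agent.Lib.MP_240c17_al.Two.RelFree

/-!
Assembly: from the Lie-theoretic main lemma to relatively finitely presented algebras.
-/

set_option autoImplicit false

namespace Pool.Agent.Lib.MP_240c17_al.Two

universe u

open Pool.Agent.Lib.MP_240c17_al

variable {k : Type u} [Field k]

/-- In an algebra with `⁅⁅⁅a,b⁆,⁅c,d⁆⁆,⁅e,f⁆⁆ = 0` the second derived algebra commutes with the derived
algebra. -/
theorem final_D2 {F : Type u} [LieRing F] [LieAlgebra k F]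
    (h : ∀ a b c d e f : F, ⁅⁅⁅a, b⁆, ⁅c, d⁆⁆, ⁅e, f⁆⁆ = 0) :
    ∀ a ∈ D2 k F, ∀ b ∈ D1 k F, ⁅a, b⁆ = 0 := by
  -- span descriptions
  have hD1 : ∀ b ∈ D1 k F, b ∈ Submodule.span k {w : F | ∃ e f : F, w = ⁅e, f⁆} := by
    intro b hb
    have h1 : (D1 k F).toSubmodule =
        Submodule.span k {⁅(x : F), (y : F)⁆ | (x : (⊤ : LieIdeal k F)) (y : (⊤ : LieIdeal k F))} :=
      LieSubmodule.lieIdeal_oper_eq_linear_span _ _
    have h2 : b ∈ (D1 k F).toSubmodule := hb
    rw [h1] at h2
    refine Submodule.span_mono ?_ h2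
    rintro _ ⟨x, y, rfl⟩
    exact ⟨x, y, rfl⟩
  have hc1 : ∀ w ∈ D1 k F, ∀ e f : F, ∀ v ∈ D1 k F, ⁅⁅v, w⁆, ⁅e, f⁆⁆ = 0 := by
    intro w hw e f v hv
    have h1 := hD1 w hw
    have h2 := hD1 v hv
    induction h1 using Submodule.span_induction with
    | mem w hw' =>
      obtain ⟨c, d, rfl⟩ := hw'
      clear hw
      induction h2 using Submodule.span_induction with
      | mem v hv' =>
        obtain ⟨a, b, rfl⟩ := hv'
        exact h a b c d e f
      | zero => rw [zero_lie, zero_lie]
      | add x y hx hy ihx ihy =>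
        rw [add_lie, add_lie]
        have e1 : ⁅⁅x, ⁅c, d⁆⁆, ⁅e, f⁆⁆ = 0 := by
          by_cases hx' : x ∈ D1 k F
          · exact ihx hx'
          · exact absurd ((Submodule.span_le (p := (D1 k F).toSubmodule)).mpr (by
              rintro _ ⟨p, q, rfl⟩
              exact LieSubmodule.lie_mem_lie trivial trivial) hx) hx'
        have e2 : ⁅⁅y, ⁅c, d⁆⁆, ⁅e, f⁆⁆ = 0 := by
          by_cases hx' : y ∈ D1 k F
          · exact ihy hx'
          · exact absurd ((Submodule.span_le (p := (D1 k F).toSubmodule)).mpr (by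
              rintro _ ⟨p, q, rfl⟩
              exact LieSubmodule.lie_mem_lie trivial trivial) hy) hx'
        rw [e1, e2, add_zero]
      | smul t x hx ihx =>
        have e1 : ⁅⁅x, ⁅c, d⁆⁆, ⁅e, f⁆⁆ = 0 := by
          by_cases hx' : x ∈ D1 k F
          · exact ihx hx'
          · exact absurd ((Submodule.span_le (p := (D1 k F).toSubmodule)).mpr (by
              rintro _ ⟨p, q, rfl⟩
              exact LieSubmodule.lie_mem_lie trivial trivial) hx) hx'
        rw [smul_lie, smul_lie, e1, smul_zero]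
    | zero => rw [lie_zero, zero_lie]
    | add x y hx hy ihx ihy =>
      have hx' : x ∈ D1 k F := (Submodule.span_le (p := (D1 k F).toSubmodule)).mpr (by
              rintro _ ⟨p, q, rfl⟩
              exact LieSubmodule.lie_mem_lie trivial trivial) hx
      have hy' : y ∈ D1 k F := (Submodule.span_le (p := (D1 k F).toSubmodule)).mpr (by
              rintro _ ⟨p, q, rfl⟩
              exact LieSubmodule.lie_mem_lie trivial trivial) hy
      rw [lie_add, add_lie, ihx hx', ihy hy', add_zero]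
    | smul t x hx ihx =>
      have hx' : x ∈ D1 k F := (Submodule.span_le (p := (D1 k F).toSubmodule)).mpr (by
              rintro _ ⟨p, q, rfl⟩
              exact LieSubmodule.lie_mem_lie trivial trivial) hx
      rw [lie_smul, smul_lie, ihx hx', smul_zero]
  intro a ha b hb
  have h1 : (D2 k F).toSubmodule =
      Submodule.span k {⁅(x : F), (y : F)⁆ | (x : D1 k F) (y : D1 k F)} :=
    LieSubmodule.lieIdeal_oper_eq_linear_span _ _
  have h2 : a ∈ (D2 k F).toSubmodule := ha
  rw [h1] at h2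
  induction h2 using Submodule.span_induction with
  | mem a ha' =>
    obtain ⟨v, w, rfl⟩ := ha'
    have h3 := hD1 b hb
    induction h3 using Submodule.span_induction with
    | mem b hb' =>
      obtain ⟨e, f, rfl⟩ := hb'
      exact hc1 w w.2 e f v v.2
    | zero => rw [lie_zero]
    | add x y hx hy ihx ihy =>
      have hx' : x ∈ D1 k F := (Submodule.span_le (p := (D1 k F).toSubmodule)).mpr (by
              rintro _ ⟨p, q, rfl⟩
              exact LieSubmodule.lie_mem_lie trivial trivial) hx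
      have hy' : y ∈ D1 k F := (Submodule.span_le (p := (D1 k F).toSubmodule)).mpr (by
              rintro _ ⟨p, q, rfl⟩
              exact LieSubmodule.lie_mem_lie trivial trivial) hy
      rw [lie_add, ihx hx', ihy hy', add_zero]
    | smul t x hx ihx =>
      have hx' : x ∈ D1 k F := (Submodule.span_le (p := (D1 k F).toSubmodule)).mpr (by
              rintro _ ⟨p, q, rfl⟩
              exact LieSubmodule.lie_mem_lie trivial trivial) hx
      rw [lie_smul, ihx hx', smul_zero]
  | zero => rw [zero_lie]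
  | add x y hx hy ihx ihy =>
    have hx' : x ∈ D2 k F := by
      show x ∈ (D2 k F).toSubmodule
      rw [h1]; exact hx
    have hy' : y ∈ D2 k F := by
      show y ∈ (D2 k F).toSubmodule
      rw [h1]; exact hy
    rw [add_lie, ihx hx', ihy hy', add_zero]
  | smul t x hx ihx =>
    have hx' : x ∈ D2 k F := by
      show x ∈ (D2 k F).toSubmodule
      rw [h1]; exact hx
    rw [smul_lie, ihx hx', smul_zero]

/-- Sufficiency of the identity inside `N₂A`. -/
theorem final_suff (hM : LieMainProp.{u}) (hNorm : NormProp.{u}) [Infinite k]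
    (Id : Set (FreeLieAlgebra k ℕ))
    (hN : ∀ (L : Type u) [LieRing L] [LieAlgebra k L], InVariety Id L →
      ∀ a b c d e f : L, ⁅⁅⁅a, b⁆, ⁅c, d⁆⁆, ⁅e, f⁆⁆ = 0)
    (m : ℕ) (c : ℕ → k) (hc : ∃ i ≤ m, c i ≠ 0)
    (hI : ∀ (L : Type u) [LieRing L] [LieAlgebra k L], InVariety Id L → ∀ a b y : L,
        ∑ i ∈ Finset.range (m + 1),
          c i • ⁅(fun l => ⁅l, y⁆)^[i] a, (fun l => ⁅l, y⁆)^[m - i] b⁆ = 0)
    (L : Type u) [LieRing L] [LieAlgebra k L] (hL : RelFinitelyPresented Id L) :
    ResiduallyFiniteDimensional k L := by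
  classical
  obtain ⟨n, π, S, hπ, hker⟩ := hL
  intro x hx
  obtain ⟨w, rfl⟩ := hπ x
  -- the relatively free algebra
  let T := verbalIdeal Id n
  let q : FreeLieAlgebra k (Fin n) →ₗ⁅k⁆ (FreeLieAlgebra k (Fin n) ⧸ T) := qMk T
  have hq : Function.Surjective q := qMk_surjective T
  let K : LieIdeal k (FreeLieAlgebra k (Fin n) ⧸ T) :=
    LieSubmodule.lieSpan k _ ((S.image q : Finset _) : Set (FreeLieAlgebra k (Fin n) ⧸ T))
  have hKker : ∀ v, q v ∈ K → v ∈ π.ker := by
    intro v hv
    have h1 : K ≤ LieIdeal.map q π.ker := by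
      rw [LieSubmodule.lieSpan_le]
      intro z hz
      rw [Finset.coe_image] at hz
      obtain ⟨s, hs, rfl⟩ := hz
      refine LieIdeal.mem_map ?_
      rw [hker]
      exact (le_sup_right : _ ≤ verbalIdeal Id n ⊔ _) (LieSubmodule.subset_lieSpan hs)
    obtain ⟨v', hv'⟩ := LieIdeal.mem_map_of_surjective hq (h1 hv)
    have h2 : v - v' ∈ T := by
      rw [← qMk_eq_zero, map_sub, sub_eq_zero]
      exact hv'.symm
    have h0 : verbalIdeal Id n ≤ π.ker := by
      rw [hker]
      exact le_sup_left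
    have h3 : v - v' ∈ π.ker := h0 h2
    have h4 := π.ker.add_mem h3 v'.2
    simpa using h4
  have hζ : q w ∉ K := fun h => hx (LieHom.mem_ker.mp (hKker w h))
  have hV := relFree_mem Id n
  obtain ⟨I, hKI, hfc, hwI⟩ := hM k (FreeLieAlgebra k (Fin n) ⧸ T) n
    (fun i => q (FreeLieAlgebra.of k i)) K m c (q w) (relFree_gen Id n)
    (final_D2 (hN _ hV)) (by
      intro i
      obtain ⟨θ, hθ⟩ := relFree_lift Id n hV
        (fun j => q (FreeLieAlgebra.of k j) + ⁅q (FreeLieAlgebra.of k j), q (FreeLieAlgebra.of k i)⁆)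
      exact hNorm k _ n (fun i => q (FreeLieAlgebra.of k i)) (relFree_gen Id n)
        (final_D2 (hN _ hV)) i θ hθ) hc (hI _ hV) ⟨_, rfl⟩ hζ
  -- the ideal of `L`
  let J : LieIdeal k L := LieIdeal.map π (LieIdeal.comap q I)
  refine ⟨J, ?_, ?_⟩
  · show FiniteDimensional k (L ⧸ J.toSubmodule)
    rw [← fc_top_iff]
    obtain ⟨W, hW⟩ := hfc
    choose r hr using hq
    refine ⟨W.image fun z => π (r z), ?_⟩
    intro l _
    obtain ⟨v, rfl⟩ := hπ l
    obtain ⟨a, ha, b, hb, hab⟩ := Submodule.mem_sup.mp (hW (Submodule.mem_top : q v ∈ ⊤))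
    have h1 : ∀ b ∈ Submodule.span k (W : Set (FreeLieAlgebra k (Fin n) ⧸ T)),
        ∃ v' : FreeLieAlgebra k (Fin n), q v' = b ∧
          π v' ∈ Submodule.span k ((W.image fun z => π (r z) : Finset L) : Set L) := by
      intro b hb
      induction hb using Submodule.span_induction with
      | mem z hz =>
        exact ⟨r z, hr z, Submodule.subset_span (by
          rw [Finset.coe_image]
          exact ⟨z, hz, rfl⟩)⟩
      | zero => exact ⟨0, map_zero q, by rw [map_zero]; exact Submodule.zero_mem _⟩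
      | add x y hx hy ihx ihy =>
        obtain ⟨v1, h1, h2⟩ := ihx
        obtain ⟨v2, h3, h4⟩ := ihy
        exact ⟨v1 + v2, by rw [map_add, h1, h3], by rw [map_add]; exact Submodule.add_mem _ h2 h4⟩
      | smul t x hx ihx =>
        obtain ⟨v1, h1, h2⟩ := ihx
        exact ⟨t • v1, by rw [map_smul, h1], by rw [map_smul]; exact Submodule.smul_mem _ t h2⟩
    obtain ⟨v', hv', hv'W⟩ := h1 b hb
    refine Submodule.mem_sup.mpr ⟨π (v - v'), ?_, π v', hv'W, by rw [map_sub]; abel⟩
    show π (v - v') ∈ J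
    refine LieIdeal.mem_map ?_
    show q (v - v') ∈ I
    rw [map_sub, hv', ← hab, add_sub_cancel_right]
    exact ha
  · intro hmem
    obtain ⟨v, hv⟩ := LieIdeal.mem_map_of_surjective hπ hmem
    have h1 : q v ∈ I := v.2
    have h2 : (v : FreeLieAlgebra k (Fin n)) - w ∈ π.ker := by
      rw [LieHom.mem_ker, map_sub, hv, sub_self]
    have h3 : ∀ z ∈ π.ker, q z ∈ K := by
      intro z hz
      rw [hker] at hz
      obtain ⟨a, ha, b, hb, rfl⟩ := (LieSubmodule.mem_sup _ _ _).mp hz
      rw [map_add, (qMk_eq_zero T a).mpr ha, zero_add]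
      have h4 : LieSubmodule.lieSpan k (FreeLieAlgebra k (Fin n))
          (S : Set (FreeLieAlgebra k (Fin n))) ≤ LieIdeal.comap q K := by
        rw [LieSubmodule.lieSpan_le]
        intro s hs
        show q s ∈ K
        refine LieSubmodule.subset_lieSpan ?_
        rw [Finset.coe_image]
        exact ⟨s, hs, rfl⟩
      exact h4 hb
    have h5 : q v - q w ∈ I := by
      rw [← map_sub]
      exact hKI (h3 _ h2)
    apply hwI
    have h6 := I.sub_mem h1 h5
    simpa using h6

end Pool.Agent.Lib.MP_240c17_al.Two
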