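import Pool.Agent.Lib.MP_240c17_al.Two.Spec

/-!
(C6) The main theorem for Lie algebras.
-/

set_option autoImplicit false

namespace Pool.Agent.Lib.MP_240c17_al.Two

universe u

namespace LieMain

variable {k : Type u} [Field k]

/-- Quotients as surjections. -/
theorem exists_quot {F : Type u} [LieRing F] [LieAlgebra k F] (K : LieIdeal k F) :
    ∃ (P : Type u) (_ : LieRing P) (_ : LieAlgebra k P) (π : F →ₗ⁅k⁆ P),
      Function.Surjective π ∧ ∀ z, π z = 0 ↔ z ∈ K := by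
  refine ⟨F ⧸ K, inferInstance, inferInstance,
    { toLinearMap := (LieSubmodule.Quotient.mk' K : F →ₗ[k] F ⧸ K)
      map_lie' := fun {x y} => LieSubmodule.Quotient.mk_bracket K x y }, ?_, ?_⟩
  · exact LieSubmodule.Quotient.surjective_mk' K
  · intro z
    exact LieSubmodule.Quotient.mk_eq_zero' (N := K)

variable {F : Type u} [LieRing F] [LieAlgebra k F] {P : Type u} [LieRing P] [LieAlgebra k P]

theorem br_span (I J : LieIdeal k F) : (⁅I, J⁆ : LieIdeal k F).toSubmodule =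
    Submodule.span k {m | ∃ a ∈ I, ∃ b ∈ J, ⁅a, b⁆ = m} :=
  LieSubmodule.lieIdeal_oper_eq_linear_span' J I

theorem mem_br {I J : LieIdeal k F} {w : F} : w ∈ (⁅I, J⁆ : LieIdeal k F) ↔
    w ∈ Submodule.span k {m | ∃ a ∈ I, ∃ b ∈ J, ⁅a, b⁆ = m} := by
  rw [← br_span]
  exact Iff.rfl

/-- Pushing forward elements of `⁅I, J⁆`. -/
theorem push_br (π : F →ₗ⁅k⁆ P) {I J : LieIdeal k F} {I' J' : LieIdeal k P}
    (hI : ∀ a ∈ I, π a ∈ I') (hJ : ∀ a ∈ J, π a ∈ J') {w : F} (hw : w ∈ (⁅I, J⁆ : LieIdeal k F)) :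
    π w ∈ (⁅I', J'⁆ : LieIdeal k P) := by
  rw [mem_br] at hw
  induction hw using Submodule.span_induction with
  | mem x hx =>
    obtain ⟨a, ha, b, hb, rfl⟩ := hx
    rw [LieHom.map_lie]
    exact LieSubmodule.lie_mem_lie (hI a ha) (hJ b hb)
  | zero => rw [map_zero]; exact zero_mem _
  | add x y _ _ hx hy => rw [map_add]; exact add_mem hx hy
  | smul c x _ hx => rw [map_smul]; exact SMulMemClass.smul_mem c hx

/-- Lifting elements of `⁅I', J'⁆`. -/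
theorem lift_br (π : F →ₗ⁅k⁆ P) {I J : LieIdeal k F} {I' J' : LieIdeal k P}
    (hI : ∀ a' ∈ I', ∃ a ∈ I, π a = a') (hJ : ∀ a' ∈ J', ∃ a ∈ J, π a = a') {w' : P}
    (hw : w' ∈ (⁅I', J'⁆ : LieIdeal k P)) :
    ∃ w ∈ (⁅I, J⁆ : LieIdeal k F), π w = w' := by
  rw [mem_br] at hw
  induction hw using Submodule.span_induction with
  | mem x hx =>
    obtain ⟨a', ha', b', hb', rfl⟩ := hx
    obtain ⟨a, ha, rfl⟩ := hI a' ha'
    obtain ⟨b, hb, rfl⟩ := hJ b' hb'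
    exact ⟨⁅a, b⁆, LieSubmodule.lie_mem_lie ha hb, LieHom.map_lie _ _ _⟩
  | zero => exact ⟨0, zero_mem _, map_zero _⟩
  | add x y _ _ hx hy =>
    obtain ⟨a, ha, rfl⟩ := hx
    obtain ⟨b, hb, rfl⟩ := hy
    exact ⟨a + b, add_mem ha hb, map_add _ _ _⟩
  | smul c x _ hx =>
    obtain ⟨a, ha, rfl⟩ := hx
    exact ⟨c • a, SMulMemClass.smul_mem c ha, map_smul _ _ _⟩

theorem push_D1 (π : F →ₗ⁅k⁆ P) {a : F} (ha : a ∈ D1 k F) : π a ∈ D1 k P :=
  push_br π (fun _ _ => LieSubmodule.mem_top _) (fun _ _ => LieSubmodule.mem_top _) ha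

theorem push_D2 (π : F →ₗ⁅k⁆ P) {a : F} (ha : a ∈ D2 k F) : π a ∈ D2 k P :=
  push_br π (fun _ h => push_D1 π h) (fun _ h => push_D1 π h) ha

theorem lift_top {π : F →ₗ⁅k⁆ P} (hπ : Function.Surjective π) :
    ∀ a' ∈ (⊤ : LieIdeal k P), ∃ a ∈ (⊤ : LieIdeal k F), π a = a' := by
  intro a' _
  obtain ⟨a, rfl⟩ := hπ a'
  exact ⟨a, LieSubmodule.mem_top _, rfl⟩

theorem lift_D1 {π : F →ₗ⁅k⁆ P} (hπ : Function.Surjective π) :
    ∀ a' ∈ D1 k P, ∃ a ∈ D1 k F, π a = a' :=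
  fun _ h => lift_br π (lift_top hπ) (lift_top hπ) h

theorem lift_D2 {π : F →ₗ⁅k⁆ P} (hπ : Function.Surjective π) :
    ∀ a' ∈ D2 k P, ∃ a ∈ D2 k F, π a = a' :=
  fun _ h => lift_br π (lift_D1 hπ) (lift_D1 hπ) h

theorem D2_le_D1 {a : F} (ha : a ∈ D2 k F) : a ∈ D1 k F := by
  have h : D2 k F ≤ D1 k F := LieSubmodule.lie_le_right _ _
  exact h ha

/-- Generators are mapped to generators. -/
theorem gen_map {π : F →ₗ⁅k⁆ P} (hπ : Function.Surjective π) {n : ℕ} {x : Fin n → F}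
    (hx : LieSubalgebra.lieSpan k F (Set.range x) = ⊤) :
    LieSubalgebra.lieSpan k P (Set.range (fun i => π (x i))) = ⊤ := by
  rw [eq_top_iff]
  rintro p -
  obtain ⟨f, rfl⟩ := hπ p
  have h : f ∈ LieSubalgebra.lieSpan k F (Set.range x) := by rw [hx]; exact LieSubalgebra.mem_top f
  have h2 : LieSubalgebra.lieSpan k F (Set.range x) ≤
      (LieSubalgebra.lieSpan k P (Set.range (fun i => π (x i)))).comap π := by
    rw [LieSubalgebra.lieSpan_le]
    rintro _ ⟨i, rfl⟩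
    show π (x i) ∈ LieSubalgebra.lieSpan k P _
    exact LieSubalgebra.subset_lieSpan ⟨i, rfl⟩
  exact h2 h

/-- The preimage of an ideal. -/
def pre (π : F →ₗ⁅k⁆ P) (D : LieIdeal k P) : LieIdeal k F :=
  { D.toSubmodule.comap (π : F →ₗ[k] P) with
    lie_mem := by
      intro x m hm
      show π ⁅x, m⁆ ∈ D
      rw [LieHom.map_lie]
      exact D.lie_mem hm }

theorem mem_pre {π : F →ₗ⁅k⁆ P} {D : LieIdeal k P} {z : F} : z ∈ pre π D ↔ π z ∈ D := Iff.rfl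

/-- The image of an ideal. -/
def img (π : F →ₗ⁅k⁆ P) (hπ : Function.Surjective π) (D : LieIdeal k F) : LieIdeal k P :=
  { D.toSubmodule.map (π : F →ₗ[k] P) with
    lie_mem := by
      intro x m hm
      obtain ⟨y, rfl⟩ := hπ x
      obtain ⟨d, hd, rfl⟩ := hm
      exact ⟨⁅y, d⁆, D.lie_mem hd, LieHom.map_lie _ _ _⟩ }

theorem mem_img {π : F →ₗ⁅k⁆ P} {hπ : Function.Surjective π} {D : LieIdeal k F} {z : P} :
    z ∈ img π hπ D ↔ ∃ d ∈ D, π d = z := Iff.rfl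

theorem fc_pre {π : F →ₗ⁅k⁆ P} (hπ : Function.Surjective π) {D : LieIdeal k P}
    (h : FC D.toSubmodule ⊤) : FC (pre π D).toSubmodule ⊤ := by
  classical
  obtain ⟨W, hW⟩ := h
  obtain ⟨g, hg⟩ := hπ.hasRightInverse
  refine ⟨W.image g, ?_⟩
  intro f _
  obtain ⟨d, hd, w, hw, h1⟩ := Submodule.mem_sup.mp (hW (Submodule.mem_top : π f ∈ ⊤))
  have h2 : Submodule.span k (W : Set P) ≤
      (Submodule.span k ((W.image g : Finset F) : Set F)).map (π : F →ₗ[k] P) := by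
    rw [Submodule.span_le]
    intro w hw
    refine ⟨g w, Submodule.subset_span (by simpa using ⟨w, hw, rfl⟩), hg w⟩
  obtain ⟨v, hv, hvw⟩ := h2 hw
  refine Submodule.mem_sup.mpr ⟨f - v, ?_, v, hv, by abel⟩
  show π (f - v) ∈ D
  have h3 : π v = w := hvw
  rw [map_sub, h3, ← h1]
  simpa using hd

theorem fc_img {π : F →ₗ⁅k⁆ P} (hπ : Function.Surjective π) {D : LieIdeal k F}
    (h : FC D.toSubmodule ⊤) : FC (img π hπ D).toSubmodule ⊤ := by
  classical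
  obtain ⟨W, hW⟩ := h
  refine ⟨W.image π, ?_⟩
  intro p _
  obtain ⟨f, rfl⟩ := hπ p
  obtain ⟨d, hd, w, hw, h1⟩ := Submodule.mem_sup.mp (hW (Submodule.mem_top : f ∈ ⊤))
  refine Submodule.mem_sup.mpr ⟨π d, ⟨d, hd, rfl⟩, π w, ?_, by rw [← map_add, h1]⟩
  have h2 : Submodule.span k (W : Set F) ≤
      (Submodule.span k ((W.image π : Finset P) : Set P)).comap (π : F →ₗ[k] P) := by
    rw [Submodule.span_le]
    intro w hw
    exact Submodule.subset_span (by simpa using ⟨w, hw, rfl⟩)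
  exact h2 hw

/-- The image of a finitely generated ideal. -/
theorem fg_img {π : F →ₗ⁅k⁆ P} (hπ : Function.Surjective π) {D : LieIdeal k F}
    (h : ∃ S : Finset F, LieSubmodule.lieSpan k F (S : Set F) = D) :
    ∃ S : Finset P, LieSubmodule.lieSpan k P (S : Set P) = img π hπ D := by
  classical
  obtain ⟨S, rfl⟩ := h
  refine ⟨S.image π, le_antisymm ?_ ?_⟩
  · rw [LieSubmodule.lieSpan_le]
    intro p hp
    simp only [Finset.coe_image, Set.mem_image, Finset.mem_coe] at hp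
    obtain ⟨s, hs, rfl⟩ := hp
    exact ⟨s, LieSubmodule.subset_lieSpan hs, rfl⟩
  · rintro p ⟨d, hd, rfl⟩
    have h2 : (LieSubmodule.lieSpan k F (S : Set F) : LieIdeal k F) ≤
        pre π (LieSubmodule.lieSpan k P ((S.image π : Finset P) : Set P)) := by
      rw [LieSubmodule.lieSpan_le]
      intro s hs
      show π s ∈ LieSubmodule.lieSpan k P ((S.image π : Finset P) : Set P)
      exact LieSubmodule.subset_lieSpan (by simpa using ⟨s, hs, rfl⟩)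
    exact h2 hd

/-- Elements of `⁅I, J⁆` as sums of brackets. -/
theorem exists_sum {I J : LieIdeal k F} {w : F} (hw : w ∈ (⁅I, J⁆ : LieIdeal k F)) :
    ∃ (L : ℕ) (a b : Fin L → F), (∀ l, a l ∈ I) ∧ (∀ l, b l ∈ J) ∧ ∑ l, ⁅a l, b l⁆ = w := by
  rw [mem_br] at hw
  induction hw using Submodule.span_induction with
  | mem x hx =>
    obtain ⟨a, ha, b, hb, rfl⟩ := hx
    exact ⟨1, fun _ => a, fun _ => b, fun _ => ha, fun _ => hb, by simp⟩
  | zero => exact ⟨0, Fin.elim0, Fin.elim0, fun l => l.elim0, fun l => l.elim0, by simp⟩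
  | add x y _ _ hx hy =>
    obtain ⟨L, a, b, ha, hb, rfl⟩ := hx
    obtain ⟨L', a', b', ha', hb', rfl⟩ := hy
    refine ⟨L + L', Fin.append a a', Fin.append b b', ?_, ?_, ?_⟩
    · intro l
      refine Fin.addCases (fun i => ?_) (fun i => ?_) l
      · rw [Fin.append_left]; exact ha i
      · rw [Fin.append_right]; exact ha' i
    · intro l
      refine Fin.addCases (fun i => ?_) (fun i => ?_) l
      · rw [Fin.append_left]; exact hb i
      · rw [Fin.append_right]; exact hb' i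
    · rw [Fin.sum_univ_add]
      simp [Fin.append_left, Fin.append_right]
  | smul c x _ hx =>
    obtain ⟨L, a, b, ha, hb, rfl⟩ := hx
    refine ⟨L, fun l => c • a l, b, fun l => SMulMemClass.smul_mem c (ha l), hb, ?_⟩
    rw [Finset.smul_sum]
    exact Finset.sum_congr rfl (fun l _ => smul_lie _ _ _)

/-- The norm relation passes to `F / ⁅K', D1⁆`. -/
theorem normRel_quot {E : Type u} [LieRing E] [LieAlgebra k E] {ρ : F →ₗ⁅k⁆ E}
    (hρ : Function.Surjective ρ) (K' : LieIdeal k F) (hK' : K' ≤ D1 k F)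
    (hker : ∀ z, ρ z = 0 ↔ z ∈ (⁅K', D1 k F⁆ : LieIdeal k F)) {y : F} (hy : NormRel k y) :
    NormRel k (ρ y) := by
  intro N a b ha hb hab
  choose a' ha' hae using fun j => lift_D1 hρ (a j) (ha j)
  choose b' hb' hbe using fun j => lift_D1 hρ (b j) (hb j)
  have h1 : ρ (∑ j, ⁅a' j, b' j⁆) = 0 := by
    rw [map_sum, ← hab]
    exact Finset.sum_congr rfl (fun j _ => by rw [LieHom.map_lie, hae, hbe])
  obtain ⟨L, κ, c, hκ, hc, hsum⟩ := exists_sum ((hker _).mp h1)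
  have h2 := hy (N + L) (Fin.append a' (fun l => - κ l)) (Fin.append b' c) ?_ ?_ ?_
  · have h3 : ∑ j, ⁅⁅a j, ρ y⁆, ⁅b j, ρ y⁆⁆ = ρ (∑ j, ⁅⁅a' j, y⁆, ⁅b' j, y⁆⁆) := by
      rw [map_sum]
      exact Finset.sum_congr rfl (fun j _ => by simp only [LieHom.map_lie, hae, hbe])
    rw [h3, hker]
    rw [Fin.sum_univ_add] at h2
    simp only [Fin.append_left, Fin.append_right] at h2
    have h4 : ∑ j, ⁅⁅a' j, y⁆, ⁅b' j, y⁆⁆ = ∑ l, ⁅⁅κ l, y⁆, ⁅c l, y⁆⁆ := by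
      have h5 : ∑ l, ⁅⁅- κ l, y⁆, ⁅c l, y⁆⁆ = - ∑ l, ⁅⁅κ l, y⁆, ⁅c l, y⁆⁆ := by
        rw [← Finset.sum_neg_distrib]
        exact Finset.sum_congr rfl (fun l _ => by rw [neg_lie, neg_lie])
      rw [h5] at h2
      exact sub_eq_zero.mp (by rw [sub_eq_add_neg]; exact h2)
    rw [h4]
    refine sum_mem (fun l _ => LieSubmodule.lie_mem_lie ?_ ?_)
    · exact lie_mem_left k F K' _ _ (hκ l)
    · exact lie_mem_left k F (D1 k F) _ _ (hc l)
  · intro j
    refine Fin.addCases (fun i => ?_) (fun i => ?_) j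
    · rw [Fin.append_left]; exact ha' i
    · rw [Fin.append_right]; exact neg_mem (hK' (hκ i))
  · intro j
    refine Fin.addCases (fun i => ?_) (fun i => ?_) j
    · rw [Fin.append_left]; exact hb' i
    · rw [Fin.append_right]; exact hc i
  · rw [Fin.sum_univ_add]
    simp only [Fin.append_left, Fin.append_right]
    rw [← hsum, ← Finset.sum_add_distrib]
    exact Finset.sum_eq_zero (fun l _ => by rw [neg_lie, add_neg_cancel])

/-- Iterated brackets are compatible with homomorphisms. -/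
theorem map_iter (ρ : F →ₗ⁅k⁆ P) (y a : F) (i : ℕ) :
    ρ ((fun l => ⁅l, y⁆)^[i] a) = (fun l => ⁅l, ρ y⁆)^[i] (ρ a) := by
  induction i with
  | zero => rfl
  | succ i ih =>
    rw [Function.iterate_succ_apply', Function.iterate_succ_apply', ← ih]
    exact LieHom.map_lie _ _ _

/-- The essential case: `ζ` in the second derived algebra. -/
theorem main_D2 (c2 : SepProp.{u}) (c5 : McProp.{u}) (c1c : InterFgProp.{u})
    [Infinite k] (n : ℕ)
    (x : Fin n → F) (K : LieIdeal k F) (m : ℕ) (c : ℕ → k) (ζ : F)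
    (hx : LieSubalgebra.lieSpan k F (Set.range x) = ⊤)
    (h21 : ∀ a ∈ D2 k F, ∀ b ∈ D1 k F, ⁅a, b⁆ = 0) (hN : ∀ i, NormRel k (x i))
    (hc : ∃ i ≤ m, c i ≠ 0)
    (hid : ∀ a b y : F, ∑ i ∈ Finset.range (m + 1),
      c i • ⁅(fun l => ⁅l, y⁆)^[i] a, (fun l => ⁅l, y⁆)^[m - i] b⁆ = 0)
    (hK : ∃ S : Finset F, LieSubmodule.lieSpan k F (S : Set F) = K) (hζ : ζ ∉ K)
    (hζ2 : ζ ∈ D2 k F) :
    ∃ I : LieIdeal k F, K ≤ I ∧ FC I.toSubmodule ⊤ ∧ ζ ∉ I := by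
  obtain ⟨P, _, _, π, hπ, hπK⟩ := exists_quot K
  set K' : LieIdeal k F := K ⊓ D1 k F with hK'
  have hK'fg : ∃ S : Finset F, LieSubmodule.lieSpan k F (S : Set F) = K' := c1c k F n x hx K hK
  obtain ⟨E, _, _, ρ, hρ, hρK⟩ := exists_quot (⁅K', D1 k F⁆ : LieIdeal k F)
  have hK'D1 : K' ≤ D1 k F := inf_le_right
  have hRK' : (⁅K', D1 k F⁆ : LieIdeal k F) ≤ K' := LieSubmodule.lie_le_left _ _
  obtain ⟨I, hI, hζI⟩ := c5 k E n (fun i => ρ (x i)) (img ρ hρ K') m c (ρ ζ) (gen_map hρ hx)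
    (by
      intro a ha b hb
      obtain ⟨a', ha', rfl⟩ := lift_D2 hρ a ha
      obtain ⟨b', hb', rfl⟩ := lift_D1 hρ b hb
      rw [← LieHom.map_lie, h21 a' ha' b' hb', map_zero])
    (fun i => normRel_quot hρ K' hK'D1 hρK (hN i)) hc
    (by
      intro a b y
      obtain ⟨a', rfl⟩ := hρ a
      obtain ⟨b', rfl⟩ := hρ b
      obtain ⟨y', rfl⟩ := hρ y
      have h := congrArg ρ (hid a' b' y')
      rw [map_sum, map_zero] at h
      rw [← h]
      exact Finset.sum_congr rfl (fun i _ => by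
        rw [map_smul, LieHom.map_lie, map_iter, map_iter]))
    (by
      rintro _ ⟨d, hd, rfl⟩
      exact push_D1 ρ (hK'D1 hd))
    (by
      rintro _ ⟨d, hd, rfl⟩ b hb
      obtain ⟨b', hb', rfl⟩ := lift_D1 hρ b hb
      show ⁅ρ d, ρ b'⁆ = 0
      rw [← LieHom.map_lie, hρK]
      exact LieSubmodule.lie_mem_lie hd hb')
    (fg_img hρ hK'fg) (push_D2 ρ hζ2)
    (by
      rintro ⟨d, hd, hde⟩
      have h1 : ρ (ζ - d) = 0 := by
        have h2 : ρ d = ρ ζ := hde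
        rw [map_sub, h2, sub_self]
      have h2 : ζ - d ∈ K' := hRK' ((hρK _).mp h1)
      have h3 : ζ ∈ K' := by
        have := add_mem h2 (show d ∈ K' from hd)
        rwa [sub_add_cancel] at this
      exact hζ (inf_le_left (a := K) (b := D1 k F) h3))
  have hIF : FC (pre ρ I).toSubmodule ⊤ := fc_pre hρ hI
  have hζF : ζ ∉ (⁅pre ρ I, D1 k F⁆ ⊔ K' : LieIdeal k F) := by
    intro h
    obtain ⟨w, hw, κ, hκ, hwκ⟩ := LieSubmodule.mem_sup _ _ _ |>.mp h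
    apply hζI
    rw [LieSubmodule.mem_sup]
    refine ⟨ρ w, push_br ρ (fun a ha => ha) (fun a ha => push_D1 ρ ha) hw, ρ κ, ⟨κ, hκ, rfl⟩, ?_⟩
    rw [← map_add, hwκ]
  have hζP : π ζ ∉ (⁅img π hπ (pre ρ I), D1 k P⁆ : LieIdeal k P) := by
    intro h
    obtain ⟨w, hw, hwe⟩ := lift_br π (I := pre ρ I) (J := D1 k F)
      (fun a' ha' => ha') (lift_D1 hπ) h
    apply hζF
    rw [LieSubmodule.mem_sup]
    refine ⟨w, hw, ζ - w, ?_, by abel⟩
    refine ⟨?_, ?_⟩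
    · exact (hπK _).mp (by rw [map_sub, hwe, sub_self])
    · have h1 : (⁅pre ρ I, D1 k F⁆ : LieIdeal k F) ≤ D1 k F := LieSubmodule.lie_le_right _ _
      exact sub_mem (D2_le_D1 hζ2) (h1 hw)
  obtain ⟨D, hD, hζD⟩ := c2 k P n (fun i => π (x i)) (gen_map hπ hx) (img π hπ (pre ρ I)) (π ζ)
    (fc_img hπ hIF) hζP
  refine ⟨pre π D, ?_, fc_pre hπ hD, hζD⟩
  intro z hz
  show π z ∈ D
  rw [(hπK z).mpr hz]
  exact zero_mem _

end LieMain

open LieMain in
/-- (C6) -/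
theorem lieMain (c2 : SepProp.{u}) (c5 : McProp.{u}) (c1c : InterFgProp.{u})
    (c1d : DerFcProp.{u}) : LieMainProp.{u} := by
  intro k _ _ F _ _ n x K m c ζ hx h21 hN hc hid hK hζ
  by_cases h1 : ζ ∈ K ⊔ D1 k F
  swap
  · refine ⟨K ⊔ D1 k F, le_sup_left, ?_, h1⟩
    refine (c1d k F n x hx).mono ?_ le_rfl
    exact (le_sup_right : D1 k F ≤ K ⊔ D1 k F)
  obtain ⟨κ, hκ, ζ1, hζ1, rfl⟩ := LieSubmodule.mem_sup _ _ _ |>.mp h1
  have hζ1K : ζ1 ∉ K := fun h => hζ (add_mem hκ h)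
  suffices h : ∃ I : LieIdeal k F, K ≤ I ∧ FC I.toSubmodule ⊤ ∧ ζ1 ∉ I by
    obtain ⟨I, hKI, hI, hζI⟩ := h
    refine ⟨I, hKI, hI, fun h => hζI ?_⟩
    have := sub_mem h (hKI hκ)
    rwa [add_sub_cancel_left] at this
  obtain ⟨P, _, _, π, hπ, hπK⟩ := exists_quot K
  by_cases h2 : π ζ1 ∈ D2 k P
  swap
  · obtain ⟨D, hD, hζD⟩ := c2 k P n (fun i => π (x i)) (gen_map hπ hx) (D1 k P) (π ζ1)
      (c1d k P n _ (gen_map hπ hx)) h2
    refine ⟨pre π D, ?_, fc_pre hπ hD, hζD⟩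
    intro z hz
    show π z ∈ D
    rw [(hπK z).mpr hz]
    exact zero_mem _
  obtain ⟨ζ2, hζ2, hζ12⟩ := lift_D2 hπ _ h2
  have h3 : ζ1 - ζ2 ∈ K := (hπK _).mp (by rw [map_sub, hζ12, sub_self])
  have hζ2K : ζ2 ∉ K := by
    intro h
    apply hζ1K
    have := add_mem h3 h
    rwa [sub_add_cancel] at this
  obtain ⟨I, hKI, hI, hζI⟩ := main_D2 c2 c5 c1c n x K m c ζ2 hx h21 hN hc hid hK hζ2K hζ2
  refine ⟨I, hKI, hI, fun h => hζI ?_⟩
  have := sub_mem h (hKI h3)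
  rwa [sub_sub_cancel] at this

end Pool.Agent.Lib.MP_240c17_al.Two
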