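import Pool.Agent.Lib.MP_240c17_al.Two.Spec

/-!
From the abstract theorem (B5) to Lie algebras.
-/

set_option autoImplicit false
set_option linter.all false

namespace Pool.Agent.Lib.MP_240c17_al.Two

universe u

open TensorProduct

section

variable {k : Type u} [Field k] {E : Type u} [LieRing E] [LieAlgebra k E]

private theorem mc_leib (a b y : E) : ⁅⁅a, b⁆, y⁆ = ⁅⁅a, y⁆, b⁆ + ⁅a, ⁅b, y⁆⁆ := by
  rw [lie_lie a b y, ← lie_skew b ⁅a, y⁆, sub_eq_add_neg, add_comm, neg_neg]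

/-- the bracket on the derived algebra -/
private def mc_bil (k : Type u) [Field k] (E : Type u) [LieRing E] [LieAlgebra k E] :
    ↥(D1 k E).toSubmodule →ₗ[k] ↥(D1 k E).toSubmodule →ₗ[k] E :=
  LinearMap.mk₂ k (fun a b => ⁅(a : E), (b : E)⁆) (fun a b c => add_lie _ _ _)
    (fun t a b => smul_lie _ _ _) (fun a b c => lie_add _ _ _) (fun t a b => lie_smul _ _ _)

private abbrev mc_Z (k : Type u) [Field k] (E : Type u) [LieRing E] [LieAlgebra k E] :
    Submodule k ↥(D1 k E).toSubmodule := LinearMap.ker (mc_bil k E)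

private theorem mc_mem_Z (a : ↥(D1 k E).toSubmodule) :
    a ∈ mc_Z k E ↔ ∀ b ∈ D1 k E, ⁅(a : E), b⁆ = 0 := by
  rw [LinearMap.mem_ker]
  constructor
  · intro h b hb
    exact LinearMap.congr_fun h ⟨b, hb⟩
  · intro h
    apply LinearMap.ext
    intro b
    exact h b b.2

private abbrev mc_M (k : Type u) [Field k] (E : Type u) [LieRing E] [LieAlgebra k E] : Type u :=
  ↥(D1 k E).toSubmodule ⧸ mc_Z k E

/-- the class of an element of the derived algebra -/
private def mc_cl (a : E) (ha : a ∈ D1 k E) : mc_M k E := (mc_Z k E).mkQ ⟨a, ha⟩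

private theorem mc_cl_surj (q : mc_M k E) : ∃ (a : E) (ha : a ∈ D1 k E), q = mc_cl a ha := by
  obtain ⟨⟨a, ha⟩, rfl⟩ := (mc_Z k E).mkQ_surjective q
  exact ⟨a, ha, rfl⟩

private theorem mc_cl_eq_zero (a : E) (ha : a ∈ D1 k E) :
    mc_cl a ha = 0 ↔ ∀ b ∈ D1 k E, ⁅a, b⁆ = 0 := by
  rw [← mc_mem_Z ⟨a, ha⟩]
  unfold mc_cl
  rw [← LinearMap.mem_ker, Submodule.ker_mkQ]

private theorem mc_pairing : ∃ β : mc_M k E →ₗ[k] mc_M k E →ₗ[k] E,
    ∀ (a b : E) (ha : a ∈ D1 k E) (hb : b ∈ D1 k E), β (mc_cl a ha) (mc_cl b hb) = ⁅a, b⁆ := by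
  let g1 : mc_M k E →ₗ[k] ↥(D1 k E).toSubmodule →ₗ[k] E := (mc_Z k E).liftQ (mc_bil k E) le_rfl
  have hg1 : ∀ a b, g1 ((mc_Z k E).mkQ a) b = ⁅(a : E), (b : E)⁆ := fun a b => rfl
  have h1 : mc_Z k E ≤ LinearMap.ker g1.flip := by
    intro z hz
    rw [LinearMap.mem_ker]
    apply LinearMap.ext
    intro q
    obtain ⟨a, rfl⟩ := (mc_Z k E).mkQ_surjective q
    rw [LinearMap.flip_apply, hg1, ← lie_skew, (mc_mem_Z z).mp hz a a.2, neg_zero]
    rfl
  let g2 : mc_M k E →ₗ[k] mc_M k E →ₗ[k] E := (mc_Z k E).liftQ g1.flip h1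
  exact ⟨g2.flip, fun a b ha hb => rfl⟩

/-- the operator on `M` -/
private theorem mc_op (y : E) : ∃ X : Module.End k (mc_M k E),
    ∀ (a : E) (ha : a ∈ D1 k E), X (mc_cl a ha) = mc_cl ⁅a, y⁆ (lie_mem_left k E _ a y ha) := by
  have hst : ∀ a ∈ (D1 k E).toSubmodule, adr k y a ∈ (D1 k E).toSubmodule :=
    fun a ha => lie_mem_left k E (D1 k E) a y ha
  let f : Module.End k ↥(D1 k E).toSubmodule := (adr k y).restrict hst
  have h1 : mc_Z k E ≤ (mc_Z k E).comap f := by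
    intro z hz
    rw [Submodule.mem_comap, mc_mem_Z]
    intro b hb
    have h2 : ((f z : ↥(D1 k E).toSubmodule) : E) = ⁅(z : E), y⁆ := rfl
    have h3 := (mc_mem_Z z).mp hz
    have h4 : ⁅⁅(z : E), y⁆, b⁆ = ⁅(z : E), ⁅y, b⁆⁆ - ⁅y, ⁅(z : E), b⁆⁆ := lie_lie _ _ _
    rw [h2, h4, h3 b hb, lie_zero, sub_zero]
    exact h3 _ (lie_mem_right k E (D1 k E) y b hb)
  exact ⟨(mc_Z k E).mapQ (mc_Z k E) f h1, fun a ha => rfl⟩

private theorem mc_D2_span : (D2 k E).toSubmodule =
    Submodule.span k {w | ∃ (a b : E), a ∈ D1 k E ∧ b ∈ D1 k E ∧ w = ⁅a, b⁆} := by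
  have h1 : (D2 k E).toSubmodule =
      Submodule.span k {⁅(x : E), (y : E)⁆ | (x : D1 k E) (y : D1 k E)} :=
    LieSubmodule.lieIdeal_oper_eq_linear_span _ _
  rw [h1]
  congr 1
  ext w
  constructor
  · rintro ⟨a, b, rfl⟩
    exact ⟨a, b, a.2, b.2, rfl⟩
  · rintro ⟨a, b, ha, hb, rfl⟩
    exact ⟨⟨a, ha⟩, ⟨b, hb⟩, rfl⟩

private theorem mc_fin_sum {M : Type u} [AddCommGroup M] [Module k M] (w : M ⊗[k] M) :
    ∃ (N : ℕ) (a b : Fin N → M), w = ∑ j, a j ⊗ₜ[k] b j := by
  obtain ⟨S, hS⟩ := TensorProduct.exists_finset w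
  let e := S.equivFin
  refine ⟨S.card, fun j => ((e.symm j : S) : M × M).1, fun j => ((e.symm j : S) : M × M).2, ?_⟩
  rw [hS, ← Finset.sum_coe_sort S (fun i => i.1 ⊗ₜ[k] i.2)]
  exact (Equiv.sum_comp e.symm (fun i : S => (i : M × M).1 ⊗ₜ[k] (i : M × M).2)).symm

theorem mc (h1 : HilbertProp.{u}) (h5 : PolyFdProp.{u}) (b5 : AbsProp.{u})
    (c1a : StabIdealProp.{u}) (c1b : CofFgProp.{u}) (c1d : DerFcProp.{u})
    (c1e : IdealGenProp.{u}) : McProp.{u} := by
  classical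
  intro k _ _ E _ _ n x K m c ζ hgen h2 hnorm hc hI hK1 hK hKfg hζ2 hζK
  obtain ⟨β, hβ⟩ := mc_pairing (k := k) (E := E)
  choose X hX using fun i => mc_op (k := k) (x i)
  let T : mc_M k E ⊗[k] mc_M k E →ₗ[k] E := TensorProduct.lift β
  have hT : ∀ (a b : E) (ha : a ∈ D1 k E) (hb : b ∈ D1 k E),
      T (mc_cl a ha ⊗ₜ[k] mc_cl b hb) = ⁅a, b⁆ := by
    intro a b ha hb
    show TensorProduct.lift β _ = _
    rw [TensorProduct.lift.tmul, hβ]
  have hcl_add : ∀ (a b : E) (ha : a ∈ D1 k E) (hb : b ∈ D1 k E),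
      mc_cl (a + b) ((D1 k E).add_mem ha hb) = mc_cl a ha + mc_cl b hb := fun a b ha hb => rfl
  have hcl_smul : ∀ (t : k) (a : E) (ha : a ∈ D1 k E),
      mc_cl (t • a) ((D1 k E).smul_mem t ha) = t • mc_cl a ha := fun t a ha => rfl
  -- the operators commute
  have hXX : ∀ i j, Commute (X i) (X j) := by
    intro i j
    apply LinearMap.ext
    intro q
    obtain ⟨a, ha, rfl⟩ := mc_cl_surj q
    rw [Module.End.mul_apply, Module.End.mul_apply, hX, hX, hX, hX, ← sub_eq_zero]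
    have e : ⁅⁅a, x j⁆, x i⁆ - ⁅⁅a, x i⁆, x j⁆ = ⁅a, ⁅x j, x i⁆⁆ := by
      rw [mc_leib a (x j) (x i)]
      abel
    have e2 : ⁅a, ⁅x j, x i⁆⁆ ∈ D2 k E :=
      LieSubmodule.lie_mem_lie ha (LieSubmodule.lie_mem_lie trivial trivial)
    show mc_cl (⁅⁅a, x j⁆, x i⁆ - ⁅⁅a, x i⁆, x j⁆) _ = 0
    rw [mc_cl_eq_zero]
    intro b hb
    rw [e]
    exact h2 _ e2 b hb
  -- `M` is generated by a finite set
  have hD1fc : FC (D1 k E).toSubmodule ⊤ := c1d k E n x hgen
  obtain ⟨S0, hS0⟩ := c1b k E n x hgen (D1 k E) hD1fc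
  have hS0' : (D1 k E).toSubmodule = gen (fun i => adr k (x i)) (S0 : Set E) := by
    rw [← c1e k E n x hgen, hS0]
  have hS0D : ∀ s ∈ S0, s ∈ D1 k E := by
    intro s hs
    show s ∈ (D1 k E).toSubmodule
    rw [hS0']
    exact subset_gen _ _ hs
  have hMgen : ∃ S : Finset (mc_M k E), gen X (S : Set (mc_M k E)) = ⊤ := by
    refine ⟨S0.attach.image fun s => mc_cl s.1 (hS0D s.1 s.2), ?_⟩
    set S : Set (mc_M k E) := ((S0.attach.image fun s => mc_cl s.1 (hS0D s.1 s.2) :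
      Finset (mc_M k E)) : Set (mc_M k E)) with hSdef
    have h3 : (D1 k E).toSubmodule ≤
        ((gen X S).comap (mc_Z k E).mkQ).map (D1 k E).toSubmodule.subtype := by
      conv_lhs => rw [hS0']
      apply gen_le
      · rintro i _ ⟨a, ha, rfl⟩
        refine ⟨⟨⁅(a : E), x i⁆, lie_mem_left k E _ _ _ a.2⟩, ?_, rfl⟩
        have h4 : X i (mc_cl a a.2) ∈ gen X S := gen_stab X S i _ ha
        rw [hX] at h4
        exact h4
      · intro s hs
        refine ⟨⟨s, hS0D s hs⟩, ?_, rfl⟩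
        apply subset_gen X S
        rw [hSdef, Finset.coe_image]
        exact ⟨⟨s, hs⟩, Finset.mem_coe.mpr (Finset.mem_attach _ _), rfl⟩
    rw [eq_top_iff]
    intro q _
    obtain ⟨a, ha, rfl⟩ := mc_cl_surj q
    obtain ⟨a', ha', haa⟩ := h3 ha
    have : a' = ⟨a, ha⟩ := Subtype.ext haa
    rw [this] at ha'
    exact ha'
  -- derivation property
  have hTσ : ∀ i w, T ((LinearMap.rTensor (mc_M k E) (X i) +
      LinearMap.lTensor (mc_M k E) (X i)) w) = ⁅T w, x i⁆ := by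
    intro i w
    induction w with
    | zero => rw [map_zero, map_zero, zero_lie]
    | add u v hu hv => rw [map_add, map_add, hu, hv, map_add, add_lie]
    | tmul p q =>
      obtain ⟨a, ha, rfl⟩ := mc_cl_surj p
      obtain ⟨b, hb, rfl⟩ := mc_cl_surj q
      rw [LinearMap.add_apply, LinearMap.rTensor_tmul, LinearMap.lTensor_tmul, map_add, hX, hX,
        hT, hT, hT, mc_leib a b (x i)]
  let W : Submodule k (mc_M k E ⊗[k] mc_M k E) := LinearMap.ker T
  let B : Submodule k (mc_M k E ⊗[k] mc_M k E) := K.toSubmodule.comap T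
  have hWσ : ∀ i, ∀ w ∈ W, (LinearMap.rTensor (mc_M k E) (X i) +
      LinearMap.lTensor (mc_M k E) (X i)) w ∈ W := by
    intro i w hw
    rw [LinearMap.mem_ker] at hw ⊢
    rw [hTσ, hw, zero_lie]
  have hWν : ∀ i, ∀ w ∈ W, (LinearMap.rTensor (mc_M k E) (X i) *
      LinearMap.lTensor (mc_M k E) (X i)) w ∈ W := by
    intro i w hw
    rw [LinearMap.mem_ker] at hw ⊢
    obtain ⟨N, a, b, rfl⟩ := mc_fin_sum w
    choose a' ha' ha using fun j => mc_cl_surj (a j)
    choose b' hb' hb using fun j => mc_cl_surj (b j)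
    have e1 : ∑ j, ⁅a' j, b' j⁆ = 0 := by
      rw [map_sum] at hw
      rw [← hw]
      refine Finset.sum_congr rfl fun j _ => ?_
      rw [ha j, hb j, hT]
    have e2 := hnorm i N a' b' ha' hb' e1
    rw [map_sum, map_sum, ← e2]
    refine Finset.sum_congr rfl fun j _ => ?_
    rw [Module.End.mul_apply, LinearMap.lTensor_tmul, LinearMap.rTensor_tmul, ha j, hb j, hX, hX, hT]
  -- the identity
  have hpow : ∀ (t : Fin n → k) (j : ℕ) (a : E) (ha : a ∈ D1 k E),
      ∃ h : (fun l => ⁅l, ∑ i, t i • x i⁆)^[j] a ∈ D1 k E,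
        ((∑ i, t i • X i) ^ j) (mc_cl a ha) = mc_cl _ h := by
    intro t j a ha
    induction j with
    | zero => exact ⟨ha, rfl⟩
    | succ j ih =>
      obtain ⟨h, hh⟩ := ih
      have e1 : (fun l => ⁅l, ∑ i, t i • x i⁆)^[j + 1] a =
          ⁅(fun l => ⁅l, ∑ i, t i • x i⁆)^[j] a, ∑ i, t i • x i⁆ := Function.iterate_succ_apply' _ _ _
      have e2 : (fun l => ⁅l, ∑ i, t i • x i⁆)^[j + 1] a ∈ D1 k E := by
        rw [e1]
        exact lie_mem_left k E _ _ _ h
      refine ⟨e2, ?_⟩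
      rw [pow_succ', Module.End.mul_apply, hh]
      set g := (fun l => ⁅l, ∑ i, t i • x i⁆)^[j] a with hg
      have e3 : mc_cl _ e2 = mc_cl ⁅g, ∑ i, t i • x i⁆ (lie_mem_left k E _ _ _ h) := by
        congr 1
      rw [e3]
      have e4 : ∀ s : Finset (Fin n), (∑ i ∈ s, t i • X i) (mc_cl g h) =
          mc_cl ⁅g, ∑ i ∈ s, t i • x i⁆ (lie_mem_left k E _ _ _ h) := by
        intro s
        induction s using Finset.induction_on with
        | empty =>
          have e5 : mc_cl ⁅g, ∑ i ∈ (∅ : Finset (Fin n)), t i • x i⁆ (lie_mem_left k E _ _ _ h) =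
              mc_cl (0 : E) (D1 k E).zero_mem := by
            congr 1
            rw [Finset.sum_empty, lie_zero]
          rw [e5, Finset.sum_empty, LinearMap.zero_apply]
          rfl
        | insert i s his ih2 =>
          have e5 : mc_cl ⁅g, ∑ i ∈ insert i s, t i • x i⁆ (lie_mem_left k E _ _ _ h) =
              mc_cl (t i • ⁅g, x i⁆ + ⁅g, ∑ i ∈ s, t i • x i⁆)
                ((D1 k E).add_mem ((D1 k E).smul_mem _ (lie_mem_left k E _ _ _ h))
                  (lie_mem_left k E _ _ _ h)) := by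
            congr 1
            rw [Finset.sum_insert his, lie_add, lie_smul]
          rw [e5, Finset.sum_insert his, LinearMap.add_apply, ih2, LinearMap.smul_apply, hX]
          rfl
      exact e4 Finset.univ
  have hWI : ∀ (t : Fin n → k) (a b : mc_M k E), ∑ j ∈ Finset.range (m + 1),
      c j • (((∑ i, t i • X i) ^ j) a ⊗ₜ[k] ((∑ i, t i • X i) ^ (m - j)) b) ∈ W := by
    intro t p q
    obtain ⟨a, ha, rfl⟩ := mc_cl_surj p
    obtain ⟨b, hb, rfl⟩ := mc_cl_surj q
    rw [LinearMap.mem_ker, map_sum, ← hI a b (∑ i, t i • x i)]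
    refine Finset.sum_congr rfl fun j _ => ?_
    obtain ⟨h3, h3'⟩ := hpow t j a ha
    obtain ⟨h4, h4'⟩ := hpow t (m - j) b hb
    rw [map_smul, h3', h4', hT]
  have hWB : W ≤ B := by
    intro w hw
    show T w ∈ K
    rw [LinearMap.mem_ker.mp hw]
    exact K.zero_mem
  have hBσ : ∀ i, ∀ w ∈ B, (LinearMap.rTensor (mc_M k E) (X i) +
      LinearMap.lTensor (mc_M k E) (X i)) w ∈ B := by
    intro i w hw
    show T _ ∈ K
    rw [hTσ]
    exact lie_mem_left k E K _ _ hw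
  -- the range of `T`
  have hrange : ∀ e ∈ D2 k E, ∃ w, T w = e := by
    intro e he
    have h3 : e ∈ (D2 k E).toSubmodule := he
    rw [mc_D2_span] at h3
    clear he
    induction h3 using Submodule.span_induction with
    | mem e he =>
      obtain ⟨a, b, ha, hb, rfl⟩ := he
      exact ⟨_, hT a b ha hb⟩
    | zero => exact ⟨0, map_zero T⟩
    | add p q hp hq ihp ihq =>
      obtain ⟨w1, hw1⟩ := ihp
      obtain ⟨w2, hw2⟩ := ihq
      exact ⟨w1 + w2, by rw [map_add, hw1, hw2]⟩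
    | smul t p hp ihp =>
      obtain ⟨w1, hw1⟩ := ihp
      exact ⟨t • w1, by rw [map_smul, hw1]⟩
  have hTD2 : ∀ w, T w ∈ D2 k E := by
    intro w
    induction w with
    | zero => rw [map_zero]; exact (D2 k E).zero_mem
    | add u v hu hv => rw [map_add]; exact (D2 k E).add_mem hu hv
    | tmul p q =>
      obtain ⟨a, ha, rfl⟩ := mc_cl_surj p
      obtain ⟨b, hb, rfl⟩ := mc_cl_surj q
      rw [hT]
      exact LieSubmodule.lie_mem_lie ha hb
  have hBgen : ∃ S : Finset (mc_M k E ⊗[k] mc_M k E),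
      gen (fun i => LinearMap.rTensor (mc_M k E) (X i) + LinearMap.lTensor (mc_M k E) (X i))
      (S : Set (mc_M k E ⊗[k] mc_M k E)) ⊔ W = B := by
    obtain ⟨SK, hSK⟩ := hKfg
    obtain ⟨S1, hS1⟩ := h1 k E (Fin n) (fun i => adr k (x i)) ⊥ K.toSubmodule
      (K.toSubmodule ⊓ (D2 k E).toSubmodule) (stab_bot _) (by
        intro i j a ha
        show ⁅⁅a, x j⁆, x i⁆ - ⁅⁅a, x i⁆, x j⁆ ∈ (⊥ : Submodule k E)
        rw [Submodule.mem_bot]
        have e : ⁅⁅a, x j⁆, x i⁆ - ⁅⁅a, x i⁆, x j⁆ = ⁅a, ⁅x j, x i⁆⁆ := by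
          rw [mc_leib a (x j) (x i)]
          abel
        rw [e]
        exact hK a ha _ (LieSubmodule.lie_mem_lie trivial trivial))
      ⟨SK, by rw [sup_bot_eq, ← c1e k E n x hgen, hSK]⟩ (by
        intro i a ha
        exact ⟨lie_mem_left k E K _ _ ha.1, lie_mem_left k E (D2 k E) _ _ ha.2⟩) bot_le inf_le_left
    rw [sup_bot_eq] at hS1
    have hS1D : ∀ s ∈ S1, s ∈ D2 k E ∧ s ∈ K := by
      intro s hs
      have : s ∈ K.toSubmodule ⊓ (D2 k E).toSubmodule := by
        rw [← hS1]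
        exact subset_gen _ _ hs
      exact ⟨this.2, this.1⟩
    choose! r hr using hrange
    refine ⟨S1.image r, ?_⟩
    apply le_antisymm
    · refine sup_le (gen_le hBσ ?_) hWB
      intro w hw
      rw [Finset.coe_image] at hw
      obtain ⟨s, hs, rfl⟩ := hw
      show T (r s) ∈ K
      rw [hr s (hS1D s hs).1]
      exact (hS1D s hs).2
    · intro w hw
      have h3 : gen (fun i => adr k (x i)) (S1 : Set E) ≤
          (gen (fun i => LinearMap.rTensor (mc_M k E) (X i) + LinearMap.lTensor (mc_M k E) (X i))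
            ((S1.image r : Finset _) : Set (mc_M k E ⊗[k] mc_M k E))).map T := by
        apply gen_le
        · rintro i _ ⟨v, hv, rfl⟩
          refine ⟨_, gen_stab _ _ i v hv, ?_⟩
          rw [hTσ]
          rfl
        · intro s hs
          refine ⟨r s, subset_gen _ _ ?_, hr s (hS1D s hs).1⟩
          rw [Finset.coe_image]
          exact ⟨s, hs, rfl⟩
      have h4 : T w ∈ K.toSubmodule ⊓ (D2 k E).toSubmodule := ⟨hw, hTD2 w⟩
      rw [← hS1] at h4
      obtain ⟨v, hv, hvw⟩ := h3 h4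
      refine Submodule.mem_sup.mpr ⟨v, hv, w - v, ?_, by abel⟩
      rw [LinearMap.mem_ker, map_sub, hvw, sub_self]
  obtain ⟨z, hz⟩ := hrange ζ hζ2
  have hzB : z ∉ B := by
    intro h
    apply hζK
    rw [← hz]
    exact h
  obtain ⟨p, hp0, hpz⟩ := b5 k (mc_M k E) n X W B m c z hXX hMgen hWσ hWν hc hWI hWB hBσ hBgen hzB
  -- the ideal
  let M' : Submodule k (mc_M k E) := ⨆ i, LinearMap.range (Polynomial.aeval (X i) (p i))
  have hM's : Stab X M' := by
    intro i q hq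
    have h3 : M' ≤ M'.comap (X i) := by
      refine iSup_le fun j => ?_
      rintro _ ⟨q, rfl⟩
      show X i (Polynomial.aeval (X j) (p j) q) ∈ M'
      have h4 : Commute (X i) (Polynomial.aeval (X j) (p j)) := by
        induction p j using Polynomial.induction_on' with
        | add f g hf hg => rw [map_add]; exact hf.add_right hg
        | monomial e t =>
          rw [Polynomial.aeval_monomial]
          exact (Algebra.commute_algebraMap_right t (X i)).mul_right ((hXX i j).pow_right e)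
      have h5 : X i (Polynomial.aeval (X j) (p j) q) = Polynomial.aeval (X j) (p j) (X i q) :=
        LinearMap.congr_fun h4.eq q
      rw [h5]
      exact (le_iSup (fun j => LinearMap.range (Polynomial.aeval (X j) (p j))) j) ⟨_, rfl⟩
    exact h3 hq
  let I0 : Submodule k E := (M'.comap (mc_Z k E).mkQ).map (D1 k E).toSubmodule.subtype
  have hI0 : ∀ (a : E) (ha : a ∈ D1 k E), a ∈ I0 ↔ mc_cl a ha ∈ M' := by
    intro a ha
    constructor
    · rintro ⟨a', ha', rfl⟩
      exact ha'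
    · intro h
      exact ⟨⟨a, ha⟩, h, rfl⟩
  have hI0D : ∀ a ∈ I0, a ∈ D1 k E := by
    rintro _ ⟨a, _, rfl⟩
    exact a.2
  have hI0s : Stab (fun i => adr k (x i)) I0 := by
    intro i a ha
    have h3 := hI0D a ha
    show ⁅a, x i⁆ ∈ I0
    rw [hI0 _ (lie_mem_left k E _ _ _ h3), ← hX i a h3]
    exact hM's i _ ((hI0 a h3).mp ha)
  let I : LieIdeal k E := { I0 with
    lie_mem := by
      intro y a ha
      have h3 : ⁅a, y⁆ ∈ I0 := c1a k E n x hgen I0 hI0s a ha y
      have h4 : ⁅y, a⁆ = -⁅a, y⁆ := (lie_skew y a).symm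
      show ⁅y, a⁆ ∈ I0
      rw [h4]
      exact I0.neg_mem h3 }
  refine ⟨I, ?_, ?_⟩
  · -- finite codimension
    show FC I0 ⊤
    refine FC.trans ?_ hD1fc
    obtain ⟨S, hS⟩ := hMgen
    obtain ⟨F, hF⟩ := h5 k (mc_M k E) (Fin n) X M' ⊤ hM's (by
      intro i j q _
      have h3 : X i (X j q) = X j (X i q) := LinearMap.congr_fun (hXX i j).eq q
      rw [h3, sub_self]
      exact M'.zero_mem) ⟨S, by rw [hS, top_sup_eq]⟩ (by
      intro i
      exact ⟨p i, hp0 i, fun q _ =>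
        (le_iSup (fun j => LinearMap.range (Polynomial.aeval (X j) (p j))) i) ⟨q, rfl⟩⟩)
    choose g hgD hg using fun q : mc_M k E => mc_cl_surj q
    refine ⟨F.image g, ?_⟩
    intro a ha
    obtain ⟨u, hu, v, hv, huv⟩ :=
      Submodule.mem_sup.mp (hF (Submodule.mem_top : mc_cl a ha ∈ (⊤ : Submodule k (mc_M k E))))
    have h3 : ∀ v ∈ Submodule.span k (F : Set (mc_M k E)), ∃ (b : E) (hb : b ∈ D1 k E),
        mc_cl b hb = v ∧ b ∈ Submodule.span k ((F.image g : Finset E) : Set E) := by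
      intro v hv
      induction hv using Submodule.span_induction with
      | mem v hv => exact ⟨g v, hgD v, (hg v).symm, Submodule.subset_span (by
          rw [Finset.coe_image]; exact ⟨v, hv, rfl⟩)⟩
      | zero => exact ⟨0, (D1 k E).zero_mem, rfl, Submodule.zero_mem _⟩
      | add v1 v2 _ _ ih1 ih2 =>
        obtain ⟨b1, hb1, e1, f1⟩ := ih1
        obtain ⟨b2, hb2, e2, f2⟩ := ih2
        exact ⟨b1 + b2, (D1 k E).add_mem hb1 hb2, by rw [hcl_add b1 b2 hb1 hb2, e1, e2],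
          Submodule.add_mem _ f1 f2⟩
      | smul t v1 _ ih1 =>
        obtain ⟨b1, hb1, e1, f1⟩ := ih1
        exact ⟨t • b1, (D1 k E).smul_mem t hb1, by rw [hcl_smul t b1 hb1, e1],
          Submodule.smul_mem _ t f1⟩
    obtain ⟨b, hb, hbv, hbF⟩ := h3 v hv
    refine Submodule.mem_sup.mpr ⟨a - b, ?_, b, hbF, by abel⟩
    rw [hI0 _ ((D1 k E).sub_mem ha hb)]
    have h4 : mc_cl (a - b) ((D1 k E).sub_mem ha hb) = mc_cl a ha - mc_cl b hb := rfl
    rw [h4, hbv, ← huv, add_sub_cancel_right]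
    exact hu
  · -- `ζ` is not in `⁅I, D1⁆ ⊔ K`
    intro hmem
    obtain ⟨e, he, κ, hκ, heκ⟩ := (LieSubmodule.mem_sup _ _ _).mp hmem
    have h3 : (⁅I, D1 k E⁆ : LieIdeal k E).toSubmodule =
        Submodule.span k {⁅(a : E), (b : E)⁆ | (a : I) (b : D1 k E)} :=
      LieSubmodule.lieIdeal_oper_eq_linear_span _ _
    have h4 : e ∈ (⁅I, D1 k E⁆ : LieIdeal k E).toSubmodule := he
    rw [h3] at h4
    have h5' : ∃ w ∈ Submodule.span k {w | ∃ (i : Fin n) (a b : mc_M k E),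
        w = (Polynomial.aeval (X i) (p i) a) ⊗ₜ[k] b}, T w = e := by
      clear he heκ
      induction h4 using Submodule.span_induction with
      | mem e he =>
        obtain ⟨a, b, rfl⟩ := he
        have haD : (a : E) ∈ D1 k E := hI0D a a.2
        refine ⟨mc_cl a haD ⊗ₜ[k] mc_cl b b.2, ?_, hT _ _ _ _⟩
        have h6 : mc_cl (a : E) haD ∈ M' := (hI0 a haD).mp a.2
        have h7 : M' ≤ (Submodule.span k {w | ∃ (i : Fin n) (a b : mc_M k E),
            w = (Polynomial.aeval (X i) (p i) a) ⊗ₜ[k] b}).comap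
            ((TensorProduct.mk k (mc_M k E) (mc_M k E)).flip (mc_cl b b.2)) := by
          refine iSup_le fun i => ?_
          rintro _ ⟨q, rfl⟩
          exact Submodule.subset_span ⟨i, q, _, rfl⟩
        exact h7 h6
      | zero => exact ⟨0, Submodule.zero_mem _, map_zero T⟩
      | add p q _ _ ihp ihq =>
        obtain ⟨w1, hw1, hw1'⟩ := ihp
        obtain ⟨w2, hw2, hw2'⟩ := ihq
        exact ⟨w1 + w2, Submodule.add_mem _ hw1 hw2, by rw [map_add, hw1', hw2']⟩
      | smul t p _ ihp =>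
        obtain ⟨w1, hw1, hw1'⟩ := ihp
        exact ⟨t • w1, Submodule.smul_mem _ t hw1, by rw [map_smul, hw1']⟩
    obtain ⟨w, hw, hwe⟩ := h5'
    apply hpz
    have h6 : z = (z - w) + w := by abel
    rw [h6]
    refine Submodule.add_mem_sup ?_ hw
    show T (z - w) ∈ K
    rw [map_sub, hz, hwe, ← heκ, add_sub_cancel_left]
    exact hκ

end

end Pool.Agent.Lib.MP_240c17_al.Two
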