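import Pool.Agent.Lib.MP_240c17_al.Two.Spec

/-!
# MP_240c17_al: the norm property (C3)
-/

set_option autoImplicit false

namespace Pool.Agent.Lib.MP_240c17_al.Two

universe u

variable {k : Type u} [Field k] {F : Type u} [LieRing F] [LieAlgebra k F]

theorem norm_jac (a b y : F) : ⁅⁅a, b⁆, y⁆ = ⁅⁅a, y⁆, b⁆ + ⁅a, ⁅b, y⁆⁆ := by
  rw [lie_lie, ← lie_skew b ⁅a, y⁆]
  abel

theorem norm_mem_D1 (a b : F) : ⁅a, b⁆ ∈ D1 k F :=
  LieSubmodule.lie_mem_lie (LieSubmodule.mem_top a) (LieSubmodule.mem_top b)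

theorem norm_mem_D2 {a b : F} (ha : a ∈ D1 k F) (hb : b ∈ D1 k F) : ⁅a, b⁆ ∈ D2 k F :=
  LieSubmodule.lie_mem_lie ha hb

theorem norm_lie_right {I : LieIdeal k F} {a : F} (ha : a ∈ I) (z : F) : ⁅a, z⁆ ∈ I := by
  rw [← lie_skew]
  exact neg_mem (LieSubmodule.lie_mem _ ha)

/-- the elements whose brackets with `w` lie in the subspace `C` stable under all brackets -/
def norm_sub (C : Submodule k F) (hC : ∀ c ∈ C, ∀ z : F, ⁅c, z⁆ ∈ C) (w : F) :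
    LieSubalgebra k F where
  carrier := {u | ⁅u, w⁆ ∈ C}
  add_mem' := by
    intro a b ha hb
    show ⁅a + b, w⁆ ∈ C
    rw [add_lie]
    exact C.add_mem ha hb
  zero_mem' := by
    show ⁅(0 : F), w⁆ ∈ C
    rw [zero_lie]
    exact C.zero_mem
  smul_mem' := by
    intro c a ha
    show ⁅c • a, w⁆ ∈ C
    rw [smul_lie]
    exact C.smul_mem c ha
  lie_mem' := by
    intro a b ha hb
    show ⁅⁅a, b⁆, w⁆ ∈ C
    have ha' : ⁅a, w⁆ ∈ C := ha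
    have hb' : ⁅b, w⁆ ∈ C := hb
    rw [norm_jac]
    refine C.add_mem (hC _ ha' b) ?_
    rw [← lie_skew]
    exact C.neg_mem (hC _ hb' a)

theorem norm_all {n : ℕ} {x : Fin n → F} (hx : LieSubalgebra.lieSpan k F (Set.range x) = ⊤)
    (C : Submodule k F) (hC : ∀ c ∈ C, ∀ z : F, ⁅c, z⁆ ∈ C) (h : ∀ j l, ⁅x j, x l⁆ ∈ C) :
    ∀ u v : F, ⁅u, v⁆ ∈ C := by
  have h1 : ∀ (l : Fin n) (u : F), ⁅u, x l⁆ ∈ C := by
    intro l u
    have h2 : LieSubalgebra.lieSpan k F (Set.range x) ≤ norm_sub C hC (x l) := by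
      rw [LieSubalgebra.lieSpan_le]
      rintro _ ⟨j, rfl⟩
      exact h j l
    rw [hx] at h2
    exact h2 (LieSubalgebra.mem_top u)
  intro u v
  have h2 : LieSubalgebra.lieSpan k F (Set.range x) ≤ norm_sub C hC u := by
    rw [LieSubalgebra.lieSpan_le]
    rintro _ ⟨j, rfl⟩
    show ⁅x j, u⁆ ∈ C
    rw [← lie_skew]
    exact C.neg_mem (h1 j u)
  rw [hx] at h2
  have h3 : ⁅v, u⁆ ∈ C := h2 (LieSubalgebra.mem_top v)
  rw [← lie_skew]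
  exact C.neg_mem h3

theorem norm_D1_le (C : Submodule k F) (h : ∀ u v : F, ⁅u, v⁆ ∈ C) : ∀ a ∈ D1 k F, a ∈ C := by
  intro a ha
  have h1 : (D1 k F).toSubmodule =
      Submodule.span k {m | ∃ a ∈ (⊤ : LieIdeal k F), ∃ b ∈ (⊤ : LieIdeal k F), ⁅a, b⁆ = m} :=
    LieSubmodule.lieIdeal_oper_eq_linear_span' _ _
  have h2 : a ∈ (D1 k F).toSubmodule := ha
  rw [h1] at h2
  refine (Submodule.span_le.mpr ?_) h2
  rintro _ ⟨u, -, v, -, rfl⟩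
  exact h u v

/-- the elements of the derived algebra on which `θ` is `1 + ad` modulo the second derived algebra -/
def norm_C (θ : F →ₗ⁅k⁆ F) (y : F) : Submodule k F where
  carrier := {a | a ∈ D1 k F ∧ θ a - a - ⁅a, y⁆ ∈ D2 k F}
  add_mem' := by
    rintro a b ⟨ha, ha'⟩ ⟨hb, hb'⟩
    refine ⟨add_mem ha hb, ?_⟩
    have e : θ (a + b) - (a + b) - ⁅a + b, y⁆ = (θ a - a - ⁅a, y⁆) + (θ b - b - ⁅b, y⁆) := by
      rw [map_add, add_lie]; abel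
    rw [e]
    exact add_mem ha' hb'
  zero_mem' := by
    refine ⟨zero_mem _, ?_⟩
    simp
  smul_mem' := by
    rintro c a ⟨ha, ha'⟩
    refine ⟨SMulMemClass.smul_mem c ha, ?_⟩
    have e : θ (c • a) - c • a - ⁅c • a, y⁆ = c • (θ a - a - ⁅a, y⁆) := by
      rw [map_smul, smul_lie, smul_sub, smul_sub]
    rw [e]
    exact SMulMemClass.smul_mem c ha'

/-- (C3) -/
theorem norm_ (c1a : StabIdealProp.{u}) : NormProp.{u} := by
  intro k _ F _ _ n x hx hcom i θ hθ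
  obtain ⟨y, hy⟩ : ∃ y, y = x i := ⟨_, rfl⟩
  rw [← hy] at hθ ⊢
  have h1 : ∀ j l, ⁅x j, x l⁆ ∈ norm_C θ y := by
    intro j l
    refine ⟨norm_mem_D1 _ _, ?_⟩
    have e : θ ⁅x j, x l⁆ - ⁅x j, x l⁆ - ⁅⁅x j, x l⁆, y⁆ = ⁅⁅x j, y⁆, ⁅x l, y⁆⁆ := by
      rw [LieHom.map_lie, hθ, hθ, norm_jac (x j) (x l) y, add_lie, lie_add, lie_add]
      abel
    rw [e]
    exact norm_mem_D2 (norm_mem_D1 _ _) (norm_mem_D1 _ _)
  have h2 : Stab (fun i => adr k (x i)) (norm_C θ y) := by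
    rintro l a ⟨ha, ha'⟩
    show ⁅a, x l⁆ ∈ norm_C θ y
    refine ⟨norm_mem_D1 _ _, ?_⟩
    obtain ⟨d, hd⟩ : ∃ d, d = θ a - a - ⁅a, y⁆ := ⟨_, rfl⟩
    rw [← hd] at ha'
    have hθa : θ a = a + ⁅a, y⁆ + d := by rw [hd]; abel
    have e : θ ⁅a, x l⁆ - ⁅a, x l⁆ - ⁅⁅a, x l⁆, y⁆ =
        ⁅d, x l⁆ + ⁅⁅a, y⁆, ⁅x l, y⁆⁆ + ⁅d, ⁅x l, y⁆⁆ := by
      rw [LieHom.map_lie, hθ, hθa, norm_jac a (x l) y, add_lie, add_lie, lie_add, lie_add, lie_add]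
      abel
    rw [e]
    exact add_mem (add_mem (norm_lie_right ha' _)
      (norm_mem_D2 (norm_mem_D1 _ _) (norm_mem_D1 _ _))) (norm_lie_right ha' _)
  have h3 := c1a k F n x hx (norm_C θ y) h2
  have h4 : ∀ a ∈ D1 k F, θ a - a - ⁅a, y⁆ ∈ D2 k F := fun a ha =>
    (norm_D1_le (norm_C θ y) (norm_all hx _ h3 h1) a ha).2
  have hD : ∀ a ∈ D2 k F, a ∈ D1 k F := fun a ha => LieSubmodule.lie_le_right _ _ ha
  intro N a b ha hb hab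
  have h5 : ∀ j, ⁅θ (a j), θ (b j)⁆ = ⁅a j, b j⁆ + ⁅⁅a j, b j⁆, y⁆ + ⁅⁅a j, y⁆, ⁅b j, y⁆⁆ := by
    intro j
    obtain ⟨d, hd⟩ : ∃ d, d = θ (a j) - a j - ⁅a j, y⁆ := ⟨_, rfl⟩
    obtain ⟨e, he⟩ : ∃ e, e = θ (b j) - b j - ⁅b j, y⁆ := ⟨_, rfl⟩
    have hd2 : d ∈ D2 k F := by rw [hd]; exact h4 _ (ha j)
    have he2 : e ∈ D2 k F := by rw [he]; exact h4 _ (hb j)
    have hθa : θ (a j) = a j + ⁅a j, y⁆ + d := by rw [hd]; abel
    have hθb : θ (b j) = b j + ⁅b j, y⁆ + e := by rw [he]; abel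
    have z1 : ⁅d, b j⁆ = 0 := hcom d hd2 _ (hb j)
    have z2 : ⁅d, ⁅b j, y⁆⁆ = 0 := hcom d hd2 _ (norm_mem_D1 _ _)
    have z3 : ⁅d, e⁆ = 0 := hcom d hd2 _ (hD _ he2)
    have z4 : ⁅a j, e⁆ = 0 := by rw [← lie_skew, hcom e he2 _ (ha j), neg_zero]
    have z5 : ⁅⁅a j, y⁆, e⁆ = 0 := by rw [← lie_skew, hcom e he2 _ (norm_mem_D1 _ _), neg_zero]
    rw [hθa, hθb, norm_jac (a j) (b j) y]
    simp only [add_lie, lie_add, z1, z2, z3, z4, z5, add_zero]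
    abel
  have h6 : ∑ j, ⁅θ (a j), θ (b j)⁆ = 0 := by
    have : ∑ j, ⁅θ (a j), θ (b j)⁆ = θ (∑ j, ⁅a j, b j⁆) := by
      rw [map_sum]
      exact Finset.sum_congr rfl fun j _ => (LieHom.map_lie θ _ _).symm
    rw [this, hab, map_zero]
  simp only [h5, Finset.sum_add_distrib] at h6
  have h7 : ∑ j, ⁅⁅a j, b j⁆, y⁆ = 0 := by
    have : ∑ j, ⁅⁅a j, b j⁆, y⁆ = adr k y (∑ j, ⁅a j, b j⁆) := by
      rw [map_sum]
      rfl
    rw [this, hab, map_zero]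
  rw [hab, h7, zero_add, zero_add] at h6
  exact h6

end Pool.Agent.Lib.MP_240c17_al.Two
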