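import Pool.Agent.Lib.MP_240c17_al.Two.Spec

/-!
# MP_240c17_al: recurrences (B3) and generation of tensor products (B4)
-/

set_option autoImplicit false

namespace Pool.Agent.Lib.MP_240c17_al.Two

universe u

open TensorProduct

theorem rec_poly_infinite (k : Type u) [Field k] : ¬ FiniteDimensional k (Polynomial k) := by
  intro h
  have : Finite ℕ := Module.Finite.finite_basis (Polynomial.basisMonomials k)
  exact not_finite ℕ

/-- (B3) -/
theorem rec_ : RecProp.{u} := by
  intro k _ M _ _ x D hfc hS hT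
  have : FiniteDimensional k ((M ⊗[k] M) ⧸ D) := (fc_top_iff D).mp hfc
  obtain ⟨A, hA⟩ : ∃ A, A = LinearMap.rTensor M x := ⟨_, rfl⟩
  obtain ⟨B, hB⟩ : ∃ B, B = LinearMap.lTensor M x := ⟨_, rfl⟩
  rw [← hA, ← hB] at hS hT
  have hAB : A * B = B * A := by
    rw [hA, hB]
    exact TensorProduct.ext' fun a b => by simp
  obtain ⟨Sb, hSb⟩ : ∃ Sb : Module.End k ((M ⊗[k] M) ⧸ D), ∀ w, Sb (D.mkQ w) = D.mkQ ((A + B) w) :=
    ⟨Submodule.mapQ D D (A + B) hS, fun w => rfl⟩
  obtain ⟨Tb, hTb⟩ : ∃ Tb : Module.End k ((M ⊗[k] M) ⧸ D), ∀ w, Tb (D.mkQ w) = D.mkQ ((A * B) w) :=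
    ⟨Submodule.mapQ D D (A * B) hT, fun w => rfl⟩
  -- the finite dimensional space of maps
  let Φ : (Module.End k ((M ⊗[k] M) ⧸ D) × Module.End k ((M ⊗[k] M) ⧸ D)) →ₗ[k]
      ((M ⊗[k] M) →ₗ[k] ((M ⊗[k] M) ⧸ D)) :=
    (LinearMap.lcomp k ((M ⊗[k] M) ⧸ D) (D.mkQ ∘ₗ A)).comp (LinearMap.fst k _ _) +
    (LinearMap.lcomp k ((M ⊗[k] M) ⧸ D) D.mkQ).comp (LinearMap.snd k _ _)
  have hΦ : ∀ P Q w, Φ (P, Q) w = P (D.mkQ (A w)) + Q (D.mkQ w) := fun P Q w => rfl
  let ψ : Polynomial k →ₗ[k] ((M ⊗[k] M) →ₗ[k] ((M ⊗[k] M) ⧸ D)) :=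
    (LinearMap.llcomp k (M ⊗[k] M) (M ⊗[k] M) ((M ⊗[k] M) ⧸ D) D.mkQ).comp
      (Polynomial.aeval A).toLinearMap
  have hψ : ∀ p w, ψ p w = D.mkQ (Polynomial.aeval A p w) := fun p w => rfl
  have hpow : ∀ n : ℕ, ∃ P Q : Module.End k ((M ⊗[k] M) ⧸ D), ∀ w,
      D.mkQ ((A ^ n) w) = P (D.mkQ (A w)) + Q (D.mkQ w) := by
    intro n
    induction n with
    | zero => exact ⟨0, 1, fun w => by simp⟩
    | succ n ih =>
      obtain ⟨P, Q, h⟩ := ih
      refine ⟨P * Sb + Q, -(P * Tb), fun w => ?_⟩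
      have e1 : (A ^ (n + 1)) w = (A ^ n) (A w) := by rw [pow_succ]; rfl
      have e2 : A (A w) = (A + B) (A w) - (A * B) w := by
        rw [hAB, LinearMap.add_apply, Module.End.mul_apply]
        abel
      rw [e1, h, e2, map_sub, map_sub, ← hSb, ← hTb]
      simp only [LinearMap.add_apply, LinearMap.neg_apply, Module.End.mul_apply]
      abel
  have hmem : ∀ p, ψ p ∈ LinearMap.range Φ := by
    intro p
    induction p using Polynomial.induction_on' with
    | add p q hp hq => rw [map_add]; exact Submodule.add_mem _ hp hq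
    | monomial n a =>
      obtain ⟨P, Q, h⟩ := hpow n
      rw [← Polynomial.C_mul_X_pow_eq_monomial, ← Polynomial.smul_eq_C_mul, map_smul]
      refine Submodule.smul_mem _ _ ⟨(P, Q), ?_⟩
      refine LinearMap.ext fun w => ?_
      rw [hΦ, hψ, ← h w]
      simp
  have hker : ∃ p : Polynomial k, p ≠ 0 ∧ ψ p = 0 := by
    by_contra hcon
    push Not at hcon
    have hinj : Function.Injective (LinearMap.codRestrict (LinearMap.range Φ) ψ hmem) := by
      rw [injective_iff_map_eq_zero]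
      intro p hp
      by_contra hne
      apply hcon p hne
      have := congrArg Subtype.val hp
      exact this
    exact rec_poly_infinite k (Module.Finite.of_injective _ hinj)
  obtain ⟨p, hp, h0⟩ := hker
  refine ⟨p, hp, fun a b => ?_⟩
  have e : Polynomial.aeval A p = LinearMap.rTensor M (Polynomial.aeval x p) := by
    have := Polynomial.aeval_algHom_apply (Module.End.rTensorAlgHom k M M) x p
    rw [hA]
    exact this
  have h1 := LinearMap.congr_fun h0 (a ⊗ₜ[k] b)
  rw [hψ, e, LinearMap.rTensor_tmul, LinearMap.zero_apply, Submodule.mkQ_apply,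
    Submodule.Quotient.mk_eq_zero] at h1
  exact h1

/-- (B4) -/
theorem tensorGen : TensorGenProp.{u} := by
  classical
  intro k _ M _ _ n x ⟨S, hS⟩
  refine ⟨(S ×ˢ S).image fun p => p.1 ⊗ₜ[k] p.2, ?_⟩
  obtain ⟨G, hG⟩ : ∃ G, G = gen (Sum.elim (fun i => LinearMap.rTensor M (x i))
      (fun i => LinearMap.lTensor M (x i)))
      (((S ×ˢ S).image fun p => p.1 ⊗ₜ[k] p.2 : Finset (M ⊗[k] M)) : Set (M ⊗[k] M)) := ⟨_, rfl⟩
  rw [← hG]
  have hst := gen_stab (Sum.elim (fun i => LinearMap.rTensor M (x i))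
      (fun i => LinearMap.lTensor M (x i)))
      (((S ×ˢ S).image fun p => p.1 ⊗ₜ[k] p.2 : Finset (M ⊗[k] M)) : Set (M ⊗[k] M))
  rw [← hG, stab_elim] at hst
  have hsub : ∀ s ∈ S, ∀ s' ∈ S, s ⊗ₜ[k] s' ∈ G := by
    intro s hs s' hs'
    rw [hG]
    apply subset_gen
    rw [Finset.coe_image]
    exact ⟨(s, s'), by simp [hs, hs'], rfl⟩
  have h1 : ∀ s' ∈ S, ∀ a : M, a ⊗ₜ[k] s' ∈ G := by
    intro s' hs' a
    have h : gen x (S : Set M) ≤ G.comap ((TensorProduct.mk k M M).flip s') := by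
      apply gen_le
      · intro i y hy
        rw [Submodule.mem_comap, LinearMap.flip_apply, TensorProduct.mk_apply] at hy ⊢
        have := hst.1 i _ hy
        rwa [LinearMap.rTensor_tmul] at this
      · intro s hs
        exact hsub s hs s' hs'
    rw [hS] at h
    exact h (Submodule.mem_top : a ∈ ⊤)
  have h2 : ∀ a b : M, a ⊗ₜ[k] b ∈ G := by
    intro a b
    have h : gen x (S : Set M) ≤ G.comap (TensorProduct.mk k M M a) := by
      apply gen_le
      · intro i y hy
        rw [Submodule.mem_comap, TensorProduct.mk_apply] at hy ⊢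
        have := hst.2 i _ hy
        rwa [LinearMap.lTensor_tmul] at this
      · intro s hs
        exact h1 s hs a
    rw [hS] at h
    exact h (Submodule.mem_top : b ∈ ⊤)
  rw [eq_top_iff]
  intro w _
  induction w using TensorProduct.induction_on with
  | zero => exact Submodule.zero_mem _
  | tmul a b => exact h2 a b
  | add u v hu hv => exact Submodule.add_mem _ (hu trivial) (hv trivial)

end Pool.Agent.Lib.MP_240c17_al.Two
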