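import Pool.Agent.Lib.MP_240c17_al.Two.Spec

/-!
(C2): separation of elements outside `⁅I, D1⁆` by ideals of finite codimension.
-/

set_option autoImplicit false

namespace Pool.Agent.Lib.MP_240c17_al.Two

universe u

theorem sep (h2 : RfdProp.{u}) (c1a : StabIdealProp.{u}) (c1b : CofFgProp.{u})
    (c1e : IdealGenProp.{u}) : SepProp.{u} := by
  intro k _ P _ _ n x hx I ζ hI hζ
  by_cases hζI : ζ ∈ I
  swap
  · exact ⟨I, hI, hζI⟩
  obtain ⟨S, hS⟩ := c1b k P n x hx I hI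
  have hgen : gen (fun i => adr k (x i)) (S : Set P) = I.toSubmodule := by
    rw [← c1e k P n x hx (S : Set P), hS]
  have hstab : ∀ K : LieIdeal k P, Stab (fun i => adr k (x i)) K.toSubmodule := by
    intro K i y hy
    have h1 : ⁅x i, y⁆ ∈ K := K.lie_mem hy
    have h3 : ⁅y, x i⁆ ∈ K := by
      rw [← lie_skew]
      exact K.neg_mem h1
    exact h3
  have hYI : (⁅I, D1 k P⁆ : LieIdeal k P) ≤ I := LieSubmodule.lie_le_left _ _
  have hYI' : (⁅I, D1 k P⁆ : LieIdeal k P).toSubmodule ≤ I.toSubmodule := fun y hy => hYI hy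
  have hcomm : CommMod (fun i => adr k (x i)) (⁅I, D1 k P⁆ : LieIdeal k P).toSubmodule
      I.toSubmodule := by
    intro i j z hz
    have h1 : (adr k (x i)) ((adr k (x j)) z) - (adr k (x j)) ((adr k (x i)) z) =
        ⁅z, ⁅x j, x i⁆⁆ := by
      show ⁅⁅z, x j⁆, x i⁆ - ⁅⁅z, x i⁆, x j⁆ = ⁅z, ⁅x j, x i⁆⁆
      rw [leibniz_lie z (x j) (x i), ← lie_skew (x j) ⁅z, x i⁆]
      abel
    show (adr k (x i)) ((adr k (x j)) z) - (adr k (x j)) ((adr k (x i)) z) ∈ _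
    rw [h1]
    exact LieSubmodule.lie_mem_lie hz (LieSubmodule.lie_mem_lie (LieSubmodule.mem_top _)
      (LieSubmodule.mem_top _))
  obtain ⟨D, hD1, hD2, hD3, hD4, hD5⟩ := h2 k P (Fin n) (fun i => adr k (x i))
    (⁅I, D1 k P⁆ : LieIdeal k P).toSubmodule I.toSubmodule
    (⁅I, D1 k P⁆ : LieIdeal k P).toSubmodule ζ (hstab _) hcomm
    ⟨S, by rw [hgen]; exact sup_eq_left.2 hYI'⟩ (hstab _) le_rfl hYI' hζI hζ
  have hid := c1a k P n x hx D hD1
  refine ⟨{ D with lie_mem := ?_ }, ?_, ?_⟩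
  · intro a m hm
    have h3 : ⁅m, a⁆ ∈ D := hid m hm a
    have h4 : ⁅a, m⁆ ∈ D := by
      rw [← lie_skew]
      exact D.neg_mem h3
    exact h4
  · exact FC.trans hD5 hI
  · exact hD4

end Pool.Agent.Lib.MP_240c17_al.Two
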