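import Pool.Agent.Lib.MP_240c17_al.Two.Spec

/-!
# (B1): the lemma on the identities `f (u_t, v_t) = 0`
-/

set_option autoImplicit false

namespace Pool.Agent.Lib.MP_240c17_al.Two

universe u

open Polynomial

private theorem lines_term {k : Type u} [Field k] {B : Type u} [CommRing B] [Algebra k B]
    (m j : ℕ) (hj : j ≤ m) (S U : B) :
    U ^ j * (S - U) ^ (m - j) = ∑ l ∈ Finset.range (m + 1),
      (((m - j).choose l : k) * (-1) ^ (m - j - l)) • (S ^ l * U ^ (m - l)) := by
  rw [sub_eq_add_neg, add_pow, Finset.mul_sum]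
  have h1 : Finset.range (m - j + 1) ⊆ Finset.range (m + 1) := by
    intro x hx
    rw [Finset.mem_range] at hx ⊢
    omega
  rw [← Finset.sum_subset h1]
  · apply Finset.sum_congr rfl
    intro l hl
    rw [Finset.mem_range] at hl
    have h2 : m - l = j + (m - j - l) := by omega
    rw [h2, pow_add, neg_pow U, Algebra.smul_def]
    push_cast
    ring
  · intro l _ hl
    rw [Finset.mem_range, not_lt] at hl
    rw [Nat.choose_eq_zero_of_lt (by omega), Nat.cast_zero, zero_mul, zero_smul]

private theorem lines_expand {k : Type u} [Field k] (m : ℕ) (c : ℕ → k)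
    (hc : ∃ i ≤ m, c i ≠ 0) :
    ∃ (ε d : ℕ) (g : ℕ → k), ε + d = m ∧ g d ≠ 0 ∧
      ∀ (B : Type u) [CommRing B] [Algebra k B] (S U : B),
      ∑ j ∈ Finset.range (m + 1), c j • (U ^ j * (S - U) ^ (m - j)) =
        S ^ ε * ∑ p ∈ Finset.range (d + 1), g p • (S ^ (d - p) * U ^ p) := by
  classical
  set e : ℕ → k := fun l => ∑ j ∈ Finset.range (m + 1),
    c j * (((m - j).choose l : k) * (-1) ^ (m - j - l)) with he
  have H1 : ∀ (B : Type u) [CommRing B] [Algebra k B] (S U : B),
      ∑ j ∈ Finset.range (m + 1), c j • (U ^ j * (S - U) ^ (m - j)) =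
        ∑ l ∈ Finset.range (m + 1), e l • (S ^ l * U ^ (m - l)) := by
    intro B _ _ S U
    rw [he]
    simp_rw [Finset.sum_smul]
    rw [Finset.sum_comm]
    apply Finset.sum_congr rfl
    intro j hj
    rw [Finset.mem_range] at hj
    rw [lines_term (k := k) m j (by omega) S U, Finset.smul_sum]
    apply Finset.sum_congr rfl
    intro l _
    rw [smul_smul]
  have H2 : ∃ l, l ≤ m ∧ e l ≠ 0 := by
    by_contra hcon
    push Not at hcon
    obtain ⟨i, him, hi⟩ := hc
    have h := H1 k[X] (X + 1) 1
    rw [Finset.sum_eq_zero (s := Finset.range (m + 1)) (f := fun l => e l • ((X + 1 : k[X]) ^ l * 1 ^ (m - l)))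
      (fun l hl => by rw [hcon l (by rw [Finset.mem_range] at hl; omega), zero_smul])] at h
    have h2 := congrArg (fun f => coeff f (m - i)) h
    simp only [one_pow, one_mul, add_sub_cancel_right, finsetSum_coeff, coeff_smul, coeff_X_pow,
      coeff_zero, smul_eq_mul, mul_ite, mul_one, mul_zero] at h2
    rw [Finset.sum_eq_single i] at h2
    · rw [if_pos rfl] at h2
      exact hi h2
    · intro b hb hbi
      rw [Finset.mem_range] at hb
      rw [if_neg (by omega)]
    · intro hn
      exact absurd (Finset.mem_range.mpr (by omega)) hn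
  obtain ⟨hε1, hε2⟩ := Nat.find_spec H2
  set ε := Nat.find H2 with hε
  have hε3 : ∀ l < ε, e l = 0 := by
    intro l hl
    by_contra hne
    exact Nat.find_min H2 hl ⟨by omega, hne⟩
  refine ⟨ε, m - ε, fun p => e (m - p), by omega, ?_, ?_⟩
  · show e (m - (m - ε)) ≠ 0
    rwa [show m - (m - ε) = ε by omega]
  · intro B _ _ S U
    rw [H1 B S U, ← Finset.sum_range_reflect]
    have h1 : Finset.range (m - ε + 1) ⊆ Finset.range (m + 1) := by
      intro x hx
      rw [Finset.mem_range] at hx ⊢
      omega
    rw [← Finset.sum_subset h1]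
    · rw [Finset.mul_sum]
      apply Finset.sum_congr rfl
      intro p hp
      rw [Finset.mem_range] at hp
      rw [show m + 1 - 1 - p = m - p by omega, show m - (m - p) = p by omega,
        mul_smul_comm, ← mul_assoc, ← pow_add, show ε + (m - ε - p) = m - p by omega]
    · intro p hp hp2
      rw [Finset.mem_range] at hp hp2
      rw [hε3 (m + 1 - 1 - p) (by omega), zero_smul]

private theorem lines_poly_zero {k : Type u} [Field k] [Infinite k] {B : Type u} [CommRing B]
    [Algebra k B] (F : B[X]) (h : ∀ l : k, F.eval (algebraMap k B l) = 0) : F = 0 := by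
  ext i
  rw [coeff_zero]
  apply (Module.forall_dual_apply_eq_zero_iff k (F.coeff i)).mp
  intro f
  set G : k[X] := ∑ i ∈ Finset.range (F.natDegree + 1), C (f (F.coeff i)) * X ^ i with hG
  have h1 : G = 0 := by
    apply Polynomial.funext
    intro r
    rw [eval_zero, hG, eval_finsetSum]
    have h2 := congrArg f (h r)
    rw [eval_eq_sum_range, map_sum, map_zero] at h2
    rw [← h2]
    apply Finset.sum_congr rfl
    intro j _
    rw [eval_mul, eval_C, eval_pow, eval_X, ← map_pow, mul_comm (F.coeff j), ← Algebra.smul_def,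
      map_smul, smul_eq_mul, mul_comm]
  by_cases hi : i ≤ F.natDegree
  · have h2 := congrArg (fun p => coeff p i) h1
    simp only [hG, finsetSum_coeff, coeff_C_mul, coeff_X_pow, mul_ite, mul_one, mul_zero,
      coeff_zero] at h2
    rw [Finset.sum_eq_single i] at h2
    · rwa [if_pos rfl] at h2
    · intro j _ hj
      rw [if_neg (fun hh => hj hh.symm)]
    · intro hn
      exact absurd (Finset.mem_range.mpr (by omega)) hn
  · rw [coeff_eq_zero_of_natDegree_lt (by omega), map_zero]

private theorem lines_kill {B : Type u} [CommRing B] (s s' : B) :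
    ∀ (d : ℕ) (R : B[X]), (∀ i, d ≤ i → R.coeff i = 0) → (C s + X * C s') * R = 0 →
      C (s' ^ d) * R = 0 := by
  intro d
  induction d with
  | zero =>
    intro R h _
    have : R = 0 := by
      ext i
      rw [h i (Nat.zero_le i), coeff_zero]
    rw [this, mul_zero]
  | succ d ih =>
    intro R h1 h2
    have h3 : s' * R.coeff d = 0 := by
      have h4 := congrArg (fun p => coeff p (d + 1)) h2
      simp only [add_mul, coeff_add, coeff_C_mul, mul_assoc, coeff_X_mul, coeff_zero] at h4
      rwa [h1 (d + 1) le_rfl, mul_zero, zero_add] at h4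
    have h5 := ih (C s' * R) (by
      intro i hi
      rw [coeff_C_mul]
      rcases Nat.eq_or_lt_of_le hi with h | h
      · rw [← h, h3]
      · rw [h1 i h, mul_zero]) (by rw [mul_left_comm, h2, mul_zero])
    rw [← mul_assoc, ← C_mul, ← pow_succ] at h5
    exact h5

private theorem lines_kill_pow {B : Type u} [CommRing B] (s s' : B) :
    ∀ (ε : ℕ) (P : B[X]), (C s + X * C s') ^ ε * P = 0 → ∃ N, C (s' ^ N) * P = 0 := by
  intro ε
  induction ε with
  | zero =>
    intro P h
    refine ⟨0, ?_⟩
    rw [pow_zero, one_mul] at h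
    rw [h, mul_zero]
  | succ ε ih =>
    intro P h
    rw [pow_succ', mul_assoc] at h
    have h1 := lines_kill s s' (((C s + X * C s') ^ ε * P).natDegree + 1) _
      (fun i hi => coeff_eq_zero_of_natDegree_lt (by omega)) h
    rw [mul_left_comm] at h1
    obtain ⟨N, hN⟩ := ih _ h1
    rw [← mul_assoc, ← C_mul, ← pow_add] at hN
    exact ⟨_, hN⟩

private theorem lines_comm {k : Type u} [Field k] [Infinite k] (m : ℕ) (c : ℕ → k)
    (hc : ∃ i ≤ m, c i ≠ 0) :
    ∃ (d : ℕ) (g : ℕ → k), g d ≠ 0 ∧
      ∀ (B : Type u) [CommRing B] [Algebra k B] (n : ℕ) (α β : Fin n → B),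
      (∀ t : Fin n → k, ∑ j ∈ Finset.range (m + 1),
        c j • ((∑ i, t i • α i) ^ j * (∑ i, t i • β i) ^ (m - j)) = 0) →
      ∃ q : ℕ, ∀ i j, (α j + β j) ^ q *
        ∑ p ∈ Finset.range (d + 1), g p • ((α i + β i) ^ (d - p) * α i ^ p) = 0 := by
  classical
  obtain ⟨ε, d, g, hm, hg, H⟩ := lines_expand m c hc
  refine ⟨d, g, hg, ?_⟩
  intro B _ _ n α β h
  have key : ∀ i j : Fin n, ∃ N : ℕ, (α j + β j) ^ N *
        ∑ p ∈ Finset.range (d + 1), g p • ((α i + β i) ^ (d - p) * α i ^ p) = 0 := by
    intro i j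
    set s := α i + β i with hs
    set s' := α j + β j with hs'
    set P : B[X] := ∑ p ∈ Finset.range (d + 1),
      g p • ((C s + X * C s') ^ (d - p) * (C (α i) + X * C (α j)) ^ p) with hP
    have hF : (C s + X * C s') ^ ε * P = 0 := by
      apply lines_poly_zero (k := k)
      intro l
      have e1 := h (Pi.single i 1 + l • Pi.single j 1)
      have e2 : ∀ γ : Fin n → B, ∑ x, ((Pi.single i 1 + l • Pi.single j 1 : Fin n → k) x) • γ x =
          γ i + algebraMap k B l * γ j := by
        intro γ
        simp only [Pi.add_apply, Pi.smul_apply, add_smul, Finset.sum_add_distrib, smul_eq_mul]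
        rw [Finset.sum_eq_single i, Finset.sum_eq_single j]
        · rw [Pi.single_eq_same, Pi.single_eq_same, one_smul, mul_one, Algebra.smul_def]
        · intro x _ hx
          rw [Pi.single_eq_of_ne hx, mul_zero, zero_smul]
        · intro hn
          exact absurd (Finset.mem_univ j) hn
        · intro x _ hx
          rw [Pi.single_eq_of_ne hx, zero_smul]
        · intro hn
          exact absurd (Finset.mem_univ i) hn
      rw [e2 α, e2 β] at e1
      have e3 := H B (s + algebraMap k B l * s') (α i + algebraMap k B l * α j)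
      rw [show s + algebraMap k B l * s' - (α i + algebraMap k B l * α j) =
        β i + algebraMap k B l * β j by rw [hs, hs']; ring, e1] at e3
      rw [eval_mul, eval_pow, hP, eval_finsetSum]
      simp only [eval_smul, eval_mul, eval_pow, eval_add, eval_C, eval_X]
      exact e3.symm
    obtain ⟨N, hN⟩ := lines_kill_pow s s' ε P hF
    refine ⟨N, ?_⟩
    have h0 := congrArg (fun p => eval 0 p) hN
    simp only [eval_mul, eval_C, eval_zero] at h0
    rw [hP, eval_finsetSum] at h0
    simpa only [eval_smul, eval_mul, eval_pow, eval_add, eval_C, eval_X, zero_mul, add_zero] using h0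
  choose N hN using key
  refine ⟨∑ i, ∑ j, N i j, fun i j => ?_⟩
  have h1 : N i j ≤ ∑ i, ∑ j, N i j :=
    (Finset.single_le_sum (f := fun j => N i j) (fun _ _ => Nat.zero_le _) (Finset.mem_univ j)).trans
      (Finset.single_le_sum (f := fun i => ∑ j, N i j) (fun _ _ => Nat.zero_le _)
        (Finset.mem_univ i))
  rw [← Nat.sub_add_cancel h1, pow_add, mul_assoc, hN, mul_zero]

/-- A commutative algebra acting through the operators `a i`, `b i`. -/
private theorem lines_alg {k : Type u} [Field k] {X : Type u} [AddCommGroup X] [Module k X]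
    {n : ℕ} (a b : Fin n → Module.End k X) (haa : ∀ i j, Commute (a i) (a j))
    (hbb : ∀ i j, Commute (b i) (b j)) (hab : ∀ i j, Commute (a i) (b j)) :
    ∃ ρ : MvPolynomial (Fin n ⊕ Fin n) k →ₐ[k] Module.End k X,
      (∀ i, ρ (MvPolynomial.X (Sum.inl i)) = a i) ∧ (∀ i, ρ (MvPolynomial.X (Sum.inr i)) = b i) := by
  have hcomm : ∀ x ∈ Set.range (Sum.elim a b), ∀ y ∈ Set.range (Sum.elim a b), x * y = y * x := by
    rintro _ ⟨i | i, rfl⟩ _ ⟨j | j, rfl⟩
    · exact haa i j
    · exact hab i j
    · exact (hab j i).symm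
    · exact hbb i j
  let _ : CommRing (Algebra.adjoin k (Set.range (Sum.elim a b))) :=
    { (Algebra.adjoin k (Set.range (Sum.elim a b))).toRing with
      mul_comm := by
        have h := (Algebra.isMulCommutative_adjoin k hcomm).is_comm
        exact fun x y => h.comm x y }
  refine ⟨(Subalgebra.val _).comp (MvPolynomial.aeval
    (fun i => (⟨Sum.elim a b i, Algebra.subset_adjoin ⟨i, rfl⟩⟩ :
      Algebra.adjoin k (Set.range (Sum.elim a b))))), fun i => ?_, fun i => ?_⟩
  · rw [AlgHom.comp_apply, MvPolynomial.aeval_X]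
    rfl
  · rw [AlgHom.comp_apply, MvPolynomial.aeval_X]
    rfl

theorem lines (h4 : IntegralProp.{u}) : LinesProp.{u} := by
  classical
  intro k _ _ X _ _ n a b Y m c haa hbb hab hc hY hgen hid
  obtain ⟨ρ, hρa, hρb⟩ := lines_alg a b haa hbb hab
  obtain ⟨d, g, hg, H⟩ := lines_comm m c hc
  have hρY : ∀ (r : MvPolynomial (Fin n ⊕ Fin n) k), ∀ y ∈ Y, ρ r y ∈ Y := by
    intro r
    induction r using MvPolynomial.induction_on with
    | C s =>
      intro y hy
      rw [← MvPolynomial.algebraMap_eq, AlgHom.commutes, Module.algebraMap_end_apply]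
      exact Y.smul_mem s hy
    | add p q hp hq =>
      intro y hy
      rw [map_add, LinearMap.add_apply]
      exact Y.add_mem (hp y hy) (hq y hy)
    | mul_X p i hp =>
      intro y hy
      rw [map_mul, Module.End.mul_apply]
      apply hp
      rcases i with i | i
      · rw [hρa]
        exact hY (Sum.inl i) y hy
      · rw [hρb]
        exact hY (Sum.inr i) y hy
  have hρc : ∀ r s : MvPolynomial (Fin n ⊕ Fin n) k, Commute (ρ r) (ρ s) := by
    intro r s
    show ρ r * ρ s = ρ s * ρ r
    rw [← map_mul, ← map_mul, mul_comm]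
  let I : Ideal (MvPolynomial (Fin n ⊕ Fin n) k) :=
    { carrier := {r | ∀ x : X, ρ r x ∈ Y}
      add_mem' := by
        intro r s hr hs x
        rw [map_add, LinearMap.add_apply]
        exact Y.add_mem (hr x) (hs x)
      zero_mem' := by
        intro x
        rw [map_zero, LinearMap.zero_apply]
        exact Y.zero_mem
      smul_mem' := by
        intro r s hs x
        rw [smul_eq_mul, map_mul, Module.End.mul_apply]
        exact hρY r _ (hs x) }
  have hI : ∀ r, r ∈ I ↔ ∀ x : X, ρ r x ∈ Y := fun r => Iff.rfl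
  set π := Ideal.Quotient.mkₐ k I with hπ
  have hπ0 : ∀ r, π r = 0 ↔ r ∈ I := fun r => Ideal.Quotient.eq_zero_iff_mem
  obtain ⟨q, hq⟩ := H (MvPolynomial (Fin n ⊕ Fin n) k ⧸ I) n
    (fun i => π (MvPolynomial.X (Sum.inl i))) (fun i => π (MvPolynomial.X (Sum.inr i))) (by
      intro t
      have h1 : ∑ j ∈ Finset.range (m + 1), c j • ((∑ i, t i • π (MvPolynomial.X (Sum.inl i))) ^ j *
          (∑ i, t i • π (MvPolynomial.X (Sum.inr i))) ^ (m - j)) =
          π (∑ j ∈ Finset.range (m + 1), c j • ((∑ i, t i • (MvPolynomial.X (Sum.inl i))) ^ j *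
          (∑ i, t i • (MvPolynomial.X (Sum.inr i))) ^ (m - j))) := by
        simp only [map_sum, map_smul, map_mul, map_pow]
      rw [h1, hπ0, hI]
      intro x
      have h2 := hid t x
      simp only [map_sum, map_smul, map_mul, map_pow, hρa, hρb]
      rw [LinearMap.sum_apply]
      simpa only [LinearMap.smul_apply] using h2)
  set G : Fin n → MvPolynomial (Fin n ⊕ Fin n) k := fun i => ∑ p ∈ Finset.range (d + 1),
    g p • ((MvPolynomial.X (Sum.inl i) + MvPolynomial.X (Sum.inr i)) ^ (d - p) *
      MvPolynomial.X (Sum.inl i) ^ p) with hG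
  have hρG : ∀ i, ρ (G i) = ∑ p ∈ Finset.range (d + 1), g p • ((a i + b i) ^ (d - p) * a i ^ p) := by
    intro i
    simp only [hG, map_sum, map_smul, map_mul, map_pow, map_add, hρa, hρb]
  have hqG : ∀ i j (x : X), ((a j + b j) ^ q) (ρ (G i) x) ∈ Y := by
    intro i j x
    have h1 : π ((MvPolynomial.X (Sum.inl j) + MvPolynomial.X (Sum.inr j)) ^ q * G i) = 0 := by
      rw [← hq i j]
      simp only [hG, map_sum, map_smul, map_mul, map_pow, map_add]
    rw [hπ0, hI] at h1
    have h2 := h1 x
    rwa [map_mul, map_pow, map_add, hρa, hρb, Module.End.mul_apply] at h2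
  set X₀ : Submodule k X := Y ⊔ ⨆ i, LinearMap.range (ρ (G i)) with hX₀
  have hstab : ∀ r : MvPolynomial (Fin n ⊕ Fin n) k, ∀ x ∈ X₀, ρ r x ∈ X₀ := by
    intro r
    have h1 : X₀ ≤ X₀.comap (ρ r) := by
      rw [hX₀]
      refine sup_le ?_ (iSup_le fun i => ?_)
      · intro y hy
        exact Submodule.mem_comap.mpr (Submodule.mem_sup_left (hρY r y hy))
      · rintro _ ⟨x, rfl⟩
        rw [Submodule.mem_comap]
        have h2 : ρ r (ρ (G i) x) = ρ (G i) (ρ r x) := by
          rw [← Module.End.mul_apply, (hρc r (G i)).eq, Module.End.mul_apply]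
        have h3 : ρ (G i) (ρ r x) ∈ ⨆ i, LinearMap.range (ρ (G i)) :=
          (le_iSup (fun i => LinearMap.range (ρ (G i))) i) (LinearMap.mem_range_self _ _)
        rw [h2]
        exact Submodule.mem_sup_right h3
    exact h1
  have hsa : Stab a X₀ := fun i x hx => by
    rw [← hρa]
    exact hstab _ x hx
  have hsb : Stab b X₀ := fun i x hx => by
    rw [← hρb]
    exact hstab _ x hx
  have hss : Stab (fun i => a i + b i) X₀ := fun i x hx => by
    show (a i + b i) x ∈ X₀
    rw [LinearMap.add_apply]
    exact X₀.add_mem (hsa i x hx) (hsb i x hx)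
  refine ⟨X₀, q, le_sup_left, stab_elim.mpr ⟨hsa, hsb⟩, ?_, ?_⟩
  · intro j
    have h1 : X₀ ≤ Y.comap ((a j + b j) ^ q) := by
      rw [hX₀]
      refine sup_le ?_ (iSup_le fun i => ?_)
      · intro y hy
        rw [Submodule.mem_comap, ← hρa, ← hρb, ← map_add, ← map_pow]
        exact hρY _ y hy
      · rintro _ ⟨x, rfl⟩
        exact hqG i j x
    exact h1
  · refine h4 k X (Fin n) (Fin n) (fun i => a i + b i) a X₀ ⊤ (stab_elim.mpr ⟨hss, hsa⟩) ?_ ?_ ?_
    · have hcc : ∀ i j, Commute (Sum.elim (fun i => a i + b i) a i) (Sum.elim (fun i => a i + b i) a j) := by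
        have hss' : ∀ i j, Commute (a i + b i) (a j + b j) := fun i j =>
          ((haa i j).add_left (hab j i).symm).add_right ((hab i j).add_left (hbb i j))
        rintro (i | i) (j | j)
        · exact hss' i j
        · exact (haa i j).add_left (hab j i).symm
        · exact (haa i j).add_right (hab i j)
        · exact haa i j
      intro i j x _
      have h1 := congrArg (fun f : Module.End k X => f x) (hcc i j).eq
      simp only [Module.End.mul_apply] at h1
      rw [h1, sub_self]
      exact X₀.zero_mem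
    · obtain ⟨S, hS⟩ := hgen
      refine ⟨S, ?_⟩
      rw [eq_top_iff, ← hS]
      refine sup_le_sup (gen_le ?_ (subset_gen _ _)) le_sup_left
      rintro (i | i) y hy
      · exact gen_stab (Sum.elim (fun i => a i + b i) a) (S : Set X) (Sum.inr i) y hy
      · have h1 := gen_stab (Sum.elim (fun i => a i + b i) a) (S : Set X) (Sum.inl i) y hy
        have h2 := gen_stab (Sum.elim (fun i => a i + b i) a) (S : Set X) (Sum.inr i) y hy
        have h3 := Submodule.sub_mem _ h1 h2
        simpa only [Sum.elim_inl, Sum.elim_inr, LinearMap.add_apply, add_sub_cancel_left] using h3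
    · intro j
      refine ⟨d, fun l => (-((g d)⁻¹ * g l)) • (a j + b j) ^ (d - l), ?_, ?_⟩
      · intro l
        have hmem : a j + b j ∈ Algebra.adjoin k (Set.range (fun i => a i + b i)) :=
          Algebra.subset_adjoin ⟨j, rfl⟩
        exact Subalgebra.smul_mem _ (Subalgebra.pow_mem _ hmem _) _
      · intro x _
        have h0 : ρ (G j) x ∈ ⨆ i, LinearMap.range (ρ (G i)) :=
          (le_iSup (fun i => LinearMap.range (ρ (G i))) j) (LinearMap.mem_range_self _ _)
        have h1 : ρ (G j) x ∈ X₀ := Submodule.mem_sup_right h0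
        have h2 := X₀.smul_mem (g d)⁻¹ h1
        have h3 : (a j ^ d) x - ∑ l ∈ Finset.range d,
            ((-((g d)⁻¹ * g l)) • (a j + b j) ^ (d - l)) ((a j ^ l) x) =
            (g d)⁻¹ • ρ (G j) x := by
          rw [hρG, LinearMap.sum_apply, Finset.sum_range_succ, smul_add, Finset.smul_sum, Nat.sub_self,
            pow_zero, one_mul, LinearMap.smul_apply, smul_smul, inv_mul_cancel₀ hg, one_smul,
            sub_eq_add_neg, ← Finset.sum_neg_distrib, add_comm]
          congr 1
          apply Finset.sum_congr rfl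
          intro l _
          rw [LinearMap.smul_apply, LinearMap.smul_apply, Module.End.mul_apply, smul_smul, neg_smul,
            neg_neg]
        rw [h3]
        exact h2

end Pool.Agent.Lib.MP_240c17_al.Two
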